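import Pool.Agent.Lib.MP_bca3e5_nt.IS.Pos

set_option autoImplicit false

/-!
Project IS: a positive proportion of the fixed sets of coefficients, at many scales.
-/

namespace Pool.Agent.IS

open Finset Filter
open ArithmeticFunction (cardFactors)

/-- Pigeonhole over the subsets at one point. -/
theorem pigeon1 (A : Finset ℕ) (s : ℕ) (hs : s ≤ A.card) (F : Finset ℕ → ℕ) (f : ℝ)
    (hf : f ≤ ∑ A1 ∈ A.powersetCard s, (F A1 : ℝ)) :
    ∃ A1 ∈ A.powersetCard s, f / (A.card.choose s) ≤ F A1 := by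
  by_contra h
  push Not at h
  have hne : (A.powersetCard s).Nonempty := Finset.powersetCard_nonempty.2 hs
  have h3 := Finset.sum_lt_sum_of_nonempty hne h
  rw [Finset.sum_const, Finset.card_powersetCard, nsmul_eq_mul] at h3
  have hc : (0 : ℝ) < A.card.choose s := by exact_mod_cast Nat.choose_pos hs
  rw [mul_div_cancel₀ _ hc.ne'] at h3
  linarith only [hf, h3]

/-- Consequence of the theorem RC. -/
theorem sub1' (h : RC.R_cor) : ∀ s : ℕ, 1 ≤ s → ∃ (k : ℕ) (c : ℝ), s ≤ k ∧ 0 < c ∧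
    ∀ A : Finset ℕ, A.card = k → AdS A → ∀ᶠ x : ℕ in atTop, ∃ A1 ∈ A.powersetCard s,
      c * x / (Real.log x) ^ (k + 1) ≤ N1 A1 x := by
  classical
  obtain ⟨c0, hc0, h⟩ := h
  intro s hs
  obtain ⟨k0, hk0⟩ := exists_nat_ge (Real.exp (s / c0))
  set k := max k0 s with hk
  have hk0k : (k0 : ℝ) ≤ k := by exact_mod_cast le_max_left _ _
  have hsk : s ≤ k := le_max_right _ _
  have hk1 : 1 ≤ k := hs.trans hsk
  have hkr : (0 : ℝ) < k := by exact_mod_cast hk1
  have hlog : (s : ℝ) ≤ c0 * Real.log k := by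
    have h1 : s / c0 ≤ Real.log k := by
      rw [Real.le_log_iff_exp_le hkr]
      exact hk0.trans hk0k
    rw [div_le_iff₀ hc0] at h1
    linarith only [h1]
  obtain ⟨B, c, hc, h⟩ := h k hk1
  have hch : (0 : ℝ) < k.choose s := by exact_mod_cast Nat.choose_pos hsk
  refine ⟨k, c / k.choose s, hsk, div_pos hc hch, ?_⟩
  intro A hA hAd
  obtain ⟨x₀, hx₀⟩ := h A hA hAd.1 hAd.2 A (Finset.Subset.refl A)
    (Finset.card_pos.1 (by omega))
  filter_upwards [tendsto_natCast_atTop_atTop.eventually_ge_atTop x₀] with x hx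
  obtain ⟨A1, hA1, hf⟩ := pigeon1 A s (by omega) (fun A1 => N1 A1 x)
    (c * x / (Real.log x) ^ (k + 1)) (by
    refine (hx₀ x hx).trans ?_
    have h1 : ((Finset.range (⌊(x : ℝ)⌋₊ + 1)).filter (fun n : ℕ => 1 < n ∧ cardFactors n ≤ 2 ∧
      (∀ p ∈ n.primeFactors, (x : ℝ) < (p : ℝ) ^ 12) ∧
      c0 * Real.log A.card ≤ ((A.filter (fun a => (a * n + 1).Prime)).card : ℝ) ∧
      1 ≤ (A.filter (fun a => (a * n + 1).Prime)).card ∧
      ∀ a ∈ A, cardFactors (a * n + 1) ≤ B ∧
        ∀ p ∈ (a * n + 1).primeFactors, (x : ℝ) < (p : ℝ) ^ B)).card ≤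
        ∑ A1 ∈ A.powersetCard s, N1 A1 x := by
      unfold N1
      refine le_trans (Finset.card_le_card ?_) Finset.card_biUnion_le
      intro n hn
      obtain ⟨hnx, hn1, hn2, hn3, hn4, _, _⟩ := mf.1 hn
      have h2 : s ≤ (A.filter (fun a => (a * n + 1).Prime)).card := by
        rw [hA] at hn4
        have h3 := hlog.trans hn4
        exact_mod_cast h3
      obtain ⟨A1, hA1, hA1c⟩ := Finset.exists_subset_card_eq h2
      rw [Finset.mem_biUnion]
      refine ⟨A1, Finset.mem_powersetCard.2 ⟨hA1.trans (Finset.filter_subset _ _), hA1c⟩, ?_⟩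
      exact mf.2 ⟨hnx, hn1, hn2, hn3, fun a ha => (mf.1 (hA1 ha)).2⟩
    have h2 := (Nat.cast_le (α := ℝ)).2 h1
    push_cast at h2
    exact_mod_cast h2)
  refine ⟨A1, hA1, ?_⟩
  rw [hA] at hf
  refine le_trans (le_of_eq ?_) hf
  ring

/-- Consequence of the theorem CM. -/
theorem sub2' (h : CM.C.R_cor) : ∀ s : ℕ, 1 ≤ s → ∃ (k B : ℕ) (c : ℝ), s ≤ k ∧ 0 < c ∧
    ∀ A : Finset ℕ, A.card = k → AdS A → ∀ᶠ x : ℕ in atTop, ∃ A1 ∈ A.powersetCard s,
      c * x / (Real.log x) ^ (k + 1) ≤ N2 B A1 x := by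
  classical
  obtain ⟨c0, hc0, h⟩ := h
  intro s hs
  obtain ⟨k0, hk0⟩ := exists_nat_ge (Real.exp (s / c0))
  set k := max k0 s with hk
  have hk0k : (k0 : ℝ) ≤ k := by exact_mod_cast le_max_left _ _
  have hsk : s ≤ k := le_max_right _ _
  have hk1 : 1 ≤ k := hs.trans hsk
  have hkr : (0 : ℝ) < k := by exact_mod_cast hk1
  have hlog : (s : ℝ) ≤ c0 * Real.log k := by
    have h1 : s / c0 ≤ Real.log k := by
      rw [Real.le_log_iff_exp_le hkr]
      exact hk0.trans hk0k
    rw [div_le_iff₀ hc0] at h1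
    linarith only [h1]
  obtain ⟨B, c, hc, h⟩ := h k hk1
  have hch : (0 : ℝ) < k.choose s := by exact_mod_cast Nat.choose_pos hsk
  refine ⟨k, B, c / k.choose s, hsk, div_pos hc hch, ?_⟩
  intro A hA hAd
  obtain ⟨x₀, hx₀⟩ := h A hA hAd.1 hAd.2 A (Finset.Subset.refl A)
    (Finset.card_pos.1 (by omega))
  filter_upwards [tendsto_natCast_atTop_atTop.eventually_ge_atTop x₀] with x hx
  obtain ⟨A1, hA1, hf⟩ := pigeon1 A s (by omega) (fun A1 => N2 B A1 x)
    (c * x / (Real.log x) ^ (k + 1)) (by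
    refine (hx₀ x hx).trans ?_
    have h1 : ((Finset.range (⌊(x : ℝ)⌋₊ + 1)).filter (fun n : ℕ => n.Prime ∧
      c0 * Real.log A.card ≤ ((A.filter (fun a => cardFactors (a * n + 1) ≤ 2)).card : ℝ) ∧
      1 ≤ (A.filter (fun a => cardFactors (a * n + 1) ≤ 2)).card ∧
      ∀ a ∈ A, cardFactors (a * n + 1) ≤ B ∧
        ∀ p ∈ (a * n + 1).primeFactors, (x : ℝ) < (p : ℝ) ^ B)).card ≤
        ∑ A1 ∈ A.powersetCard s, N2 B A1 x := by
      unfold N2
      refine le_trans (Finset.card_le_card ?_) Finset.card_biUnion_le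
      intro n hn
      obtain ⟨hnx, hn1, hn4, _, hn5⟩ := mf.1 hn
      have h2 : s ≤ (A.filter (fun a => cardFactors (a * n + 1) ≤ 2)).card := by
        rw [hA] at hn4
        have h3 := hlog.trans hn4
        exact_mod_cast h3
      obtain ⟨A1, hA1, hA1c⟩ := Finset.exists_subset_card_eq h2
      rw [Finset.mem_biUnion]
      refine ⟨A1, Finset.mem_powersetCard.2 ⟨hA1.trans (Finset.filter_subset _ _), hA1c⟩, ?_⟩
      exact mf.2 ⟨hnx, hn1, fun a ha => ⟨(mf.1 (hA1 ha)).2,
        (hn5 a (mf.1 (hA1 ha)).1).2⟩⟩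
    have h2 := (Nat.cast_le (α := ℝ)).2 h1
    push_cast at h2
    exact_mod_cast h2)
  refine ⟨A1, hA1, ?_⟩
  rw [hA] at hf
  refine le_trans (le_of_eq ?_) hf
  ring

/-- If many members are good at each scale, then many members are good at many scales. -/
theorem scales (S : Finset (Finset ℕ)) (G : Finset ℕ → ℕ → Prop) [∀ A, DecidablePred (G A)]
    (δ : ℝ) (hδ : 0 < δ) (k0 : ℕ)
    (h : ∀ k, k0 ≤ k → δ * S.card ≤ ((S.filter (fun A => G A k)).card : ℝ)) :
    ∃ F ⊆ S, δ / 4 * S.card ≤ F.card ∧ ∀ A ∈ F, ∃ᶠ N : ℕ in atTop,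
      δ / 4 * N ≤ (((Finset.range N).filter (fun k => G A k)).card : ℝ) := by
  classical
  by_cases hδ1 : S.card = 0
  · refine ⟨∅, Finset.empty_subset _, ?_, fun A hA => absurd hA (Finset.notMem_empty A)⟩
    rw [hδ1]
    simp
  have hS0 : (0 : ℝ) < S.card := by
    have : 0 < S.card := Nat.pos_of_ne_zero hδ1
    exact_mod_cast this
  -- the family at `N`
  set Fm : ℕ → Finset (Finset ℕ) := fun N => S.filter
    (fun A => δ / 4 * N ≤ (((Finset.range N).filter (fun k => G A k)).card : ℝ)) with hFm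
  have hbig : ∀ N : ℕ, 2 * k0 + 1 ≤ N → δ / 4 * S.card ≤ (Fm N).card := by
    intro N hN
    by_contra hcon
    push Not at hcon
    have hNr : (0 : ℝ) < N := by
      have : 0 < N := by omega
      exact_mod_cast this
    -- lower bound for the double sum
    have h1 : ∑ A ∈ S, (((Finset.range N).filter (fun k => G A k)).card : ℝ) =
        ∑ k ∈ Finset.range N, ((S.filter (fun A => G A k)).card : ℝ) := by
      simp only [Finset.card_filter, Nat.cast_sum]
      exact Finset.sum_comm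
    have h2 : ((N : ℝ) / 2) * (δ * S.card) ≤
        ∑ k ∈ Finset.range N, ((S.filter (fun A => G A k)).card : ℝ) := by
      have h3 : ∑ k ∈ Finset.Ico k0 N, (δ * S.card) ≤
          ∑ k ∈ Finset.range N, ((S.filter (fun A => G A k)).card : ℝ) := by
        calc ∑ k ∈ Finset.Ico k0 N, (δ * S.card) ≤
              ∑ k ∈ Finset.Ico k0 N, ((S.filter (fun A => G A k)).card : ℝ) :=
              Finset.sum_le_sum fun k hk => h k (Finset.mem_Ico.1 hk).1
          _ ≤ _ := Finset.sum_le_sum_of_subset_of_nonneg (by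
              intro k hk
              rw [Finset.mem_range]
              exact (Finset.mem_Ico.1 hk).2) fun _ _ _ => Nat.cast_nonneg _
      rw [Finset.sum_const, Nat.card_Ico, nsmul_eq_mul] at h3
      refine le_trans ?_ h3
      apply mul_le_mul_of_nonneg_right _ (by positivity)
      have h4 : N ≤ 2 * (N - k0) := by omega
      have h5 : (N : ℝ) ≤ 2 * ((N - k0 : ℕ) : ℝ) := by exact_mod_cast h4
      linarith only [h5]
    -- upper bound
    have h3 : ∑ A ∈ S, (((Finset.range N).filter (fun k => G A k)).card : ℝ) ≤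
        (Fm N).card * N + S.card * (δ / 4 * N) := by
      have h4 : ∀ A ∈ S, (((Finset.range N).filter (fun k => G A k)).card : ℝ) ≤
          (if A ∈ Fm N then (N : ℝ) else 0) + δ / 4 * N := by
        intro A hA
        have h6 : (0 : ℝ) ≤ δ / 4 * N := by positivity
        by_cases h5 : A ∈ Fm N
        · rw [if_pos h5]
          have h7 : (((Finset.range N).filter (fun k => G A k)).card : ℝ) ≤ N := by
            have := Finset.card_filter_le (Finset.range N) (fun k => G A k)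
            rw [Finset.card_range] at this
            exact_mod_cast this
          linarith only [h6, h7]
        · rw [if_neg h5]
          have h7 : ¬ (δ / 4 * N ≤ (((Finset.range N).filter (fun k => G A k)).card : ℝ)) :=
            fun h8 => h5 (Finset.mem_filter.2 ⟨hA, h8⟩)
          push Not at h7
          linarith only [h7]
      refine (Finset.sum_le_sum h4).trans (le_of_eq ?_)
      rw [Finset.sum_add_distrib, Finset.sum_const, nsmul_eq_mul, ← Finset.sum_filter,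
        Finset.sum_const, nsmul_eq_mul]
      congr 2
      have : S.filter (fun A => A ∈ Fm N) = Fm N := by
        ext A
        rw [Finset.mem_filter]
        exact ⟨fun h => h.2, fun h => ⟨(Finset.mem_filter.1 h).1, h⟩⟩
      rw [this]
    rw [h1] at h3
    have h4 := h2.trans h3
    have h5 : ((Fm N).card : ℝ) * N < δ / 4 * S.card * N := mul_lt_mul_of_pos_right hcon hNr
    nlinarith only [h4, h5]
  -- one family for infinitely many `N`
  have hmem : ∀ N, Fm N ∈ S.powerset := fun N => Finset.mem_powerset.2 (Finset.filter_subset _ _)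
  obtain ⟨F, hF, hfreq⟩ : ∃ F ∈ S.powerset, ∃ᶠ N : ℕ in atTop, Fm N = F := by
    by_contra hcon
    push Not at hcon
    have h1 : ∀ᶠ N : ℕ in atTop, ∀ F ∈ S.powerset, Fm N ≠ F :=
      (Filter.eventually_all_finset _).2 hcon
    obtain ⟨N, hN⟩ := h1.exists
    exact hN (Fm N) (hmem N) rfl
  refine ⟨F, Finset.mem_powerset.1 hF, ?_, ?_⟩
  · obtain ⟨N, hN1, hN2⟩ := (hfreq.and_eventually (eventually_ge_atTop (2 * k0 + 1))).exists
    rw [← hN1]
    exact hbig N hN2
  · intro A hA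
    refine hfreq.mono fun N hN => ?_
    rw [← hN] at hA
    exact (Finset.mem_filter.1 hA).2

open Classical in
/-- The set `A` is good at the scale `2 ^ k`. -/
def GS (K : ℕ) (c : ℝ) (A : Finset ℕ) (k : ℕ) : Prop :=
  c * 2 ^ k / (k : ℝ) ^ K ≤ (((Finset.Icc 2 (2 ^ k)).filter (fun n : ℕ => cardFactors n ≤ 2 ∧
    (∀ p ∈ n.primeFactors, 2 ^ k < p ^ 12) ∧ ∀ a ∈ A, (a * n + 1).Prime)).card : ℝ) ∧
  c * 2 ^ k / (k : ℝ) ^ K ≤ (((Finset.Icc 2 (2 ^ k)).filter (fun n : ℕ => n.Prime ∧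
    ∀ a ∈ A, cardFactors (a * n + 1) ≤ 2 ∧
      ∀ p ∈ (a * n + 1).primeFactors, 2 ^ k < p ^ K)).card : ℝ)

theorem GS_of (K k : ℕ) (c : ℝ) (hc0 : 0 < c) (hk2 : 1 ≤ k) (A1 : Finset ℕ)
    (hx1 : c * ((2 ^ k : ℕ) : ℝ) / (Real.log ((2 ^ k : ℕ) : ℝ)) ^ K ≤ N1 A1 ((2 ^ k : ℕ) : ℝ))
    (hx2 : c * ((2 ^ k : ℕ) : ℝ) / (Real.log ((2 ^ k : ℕ) : ℝ)) ^ K ≤ N2 K A1 ((2 ^ k : ℕ) : ℝ)) :
    GS K c A1 k := by
  have hlk : Real.log ((2 ^ k : ℕ) : ℝ) ≤ k := by
    push_cast
    rw [Real.log_pow]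
    have h3 : Real.log 2 ≤ 1 := by
      have := Real.log_two_lt_d9
      linarith only [this]
    calc (k : ℝ) * Real.log 2 ≤ k * 1 := mul_le_mul_of_nonneg_left h3 (Nat.cast_nonneg k)
      _ = k := mul_one _
  have hlk0 : 0 < Real.log ((2 ^ k : ℕ) : ℝ) := by
    push_cast
    rw [Real.log_pow]
    have hk0' : (0 : ℝ) < k := by exact_mod_cast hk2
    have h3 := Real.log_pos (show (1 : ℝ) < 2 by norm_num)
    positivity
  have hcmp : c * 2 ^ k / (k : ℝ) ^ K ≤
      c * ((2 ^ k : ℕ) : ℝ) / (Real.log ((2 ^ k : ℕ) : ℝ)) ^ K := by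
    push_cast
    push_cast at hlk hlk0
    apply div_le_div_of_nonneg_left (by positivity) (by positivity)
    exact pow_le_pow_left₀ hlk0.le hlk K
  unfold GS
  constructor
  · refine (hcmp.trans hx1).trans (Nat.cast_le.2 ?_)
    unfold N1
    apply Finset.card_le_card
    intro n hn
    obtain ⟨hnx, hn1, hn2, hn3, hn4⟩ := mf.1 hn
    rw [Finset.mem_range, Nat.floor_natCast] at hnx
    refine mf.2 ⟨Finset.mem_Icc.2 ⟨hn1, by omega⟩, hn2, fun p hp => ?_, hn4⟩
    have h4 := hn3 p hp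
    exact_mod_cast h4
  · refine (hcmp.trans hx2).trans (Nat.cast_le.2 ?_)
    unfold N2
    apply Finset.card_le_card
    intro n hn
    obtain ⟨hnx, hn1, hn2⟩ := mf.1 hn
    rw [Finset.mem_range, Nat.floor_natCast] at hnx
    refine mf.2 ⟨Finset.mem_Icc.2 ⟨hn1.two_le, by omega⟩, hn1, fun a ha =>
      ⟨(hn2 a ha).1, fun p hp => ?_⟩⟩
    have h4 := (hn2 a ha).2 p hp
    exact_mod_cast h4

open Classical in
/-- A positive proportion of the sets of coefficients, at many scales `x = 2 ^ k`. -/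
def R_pos2 : Prop := ∀ s : ℕ, 1 ≤ s → ∃ (K : ℕ) (c : ℝ), 0 < c ∧ ∀ C : Finset ℕ, K ≤ C.card →
  (∀ a ∈ C, 0 < a ∧ Even a) →
  c * (C.card.choose s) ≤ (((C.powersetCard s).filter (fun A =>
    ∃ᶠ N : ℕ in atTop, c * N ≤ (((Finset.range N).filter (fun k : ℕ =>
      c * 2 ^ k / (k : ℝ) ^ K ≤ (((Finset.Icc 2 (2 ^ k)).filter (fun n : ℕ => cardFactors n ≤ 2 ∧
        (∀ p ∈ n.primeFactors, 2 ^ k < p ^ 12) ∧ ∀ a ∈ A, (a * n + 1).Prime)).card : ℝ) ∧
      c * 2 ^ k / (k : ℝ) ^ K ≤ (((Finset.Icc 2 (2 ^ k)).filter (fun n : ℕ => n.Prime ∧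
        ∀ a ∈ A, cardFactors (a * n + 1) ≤ 2 ∧
          ∀ p ∈ (a * n + 1).primeFactors, 2 ^ k < p ^ K)).card : ℝ))).card : ℝ))).card : ℝ)

theorem p_pos2 (hrc : RC.R_cor) (hcm : CM.C.R_cor) : R_pos2 := by
  classical
  intro s hs
  obtain ⟨k2, B, c2, hsk2, hc2, h2⟩ := sub2' hcm s hs
  obtain ⟨k1, c1, hk21, hc1, h1⟩ := sub1' hrc k2 (hs.trans hsk2)
  set K := 2 ^ k1 * (2 * (k1 + s)) + B + k1 + 1 with hK
  set P0 : ℕ := (2 ^ (k1 + 1)) ^ s * k1.choose s with hP0
  have hP00 : 0 < P0 := Nat.mul_pos (by positivity) (Nat.choose_pos (by omega))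
  have hP0r : (0 : ℝ) < P0 := by exact_mod_cast hP00
  have hP0r1 : (1 : ℝ) ≤ P0 := by exact_mod_cast hP00
  set c := min (min c1 c2) (1 / (4 * P0 : ℝ)) with hc
  have hc0 : 0 < c := lt_min (lt_min hc1 hc2) (by positivity)
  have hcc1 : c ≤ c1 := (min_le_left _ _).trans (min_le_left _ _)
  have hcc2 : c ≤ c2 := (min_le_left _ _).trans (min_le_right _ _)
  have hccP : c ≤ 1 / (4 * P0 : ℝ) := min_le_right _ _
  refine ⟨K, c, hc0, ?_⟩
  intro C hCK hC
  obtain ⟨C', hC'C, hcard, hav⟩ := thin k1 C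
  have hC'card : 2 * (k1 + s) ≤ C'.card := by
    have h3 : 2 ^ k1 * (2 * (k1 + s)) ≤ 2 ^ k1 * C'.card := by omega
    exact Nat.le_of_mul_le_mul_left h3 (by positivity)
  set G : Finset ℕ → ℕ → Prop := GS K c with hG
  -- at each large scale every `k1`-subset of `C'` contains a good subset
  have hev : ∀ᶠ x : ℕ in atTop, ∀ A ∈ C'.powersetCard k1, ∃ A1 ∈ A.powersetCard s,
      c * x / (Real.log x) ^ K ≤ N1 A1 x ∧ c * x / (Real.log x) ^ K ≤ N2 K A1 x := by
    rw [Filter.eventually_all_finset]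
    intro A hA
    rw [Finset.mem_powersetCard] at hA
    have hAd : AdS A := ads_of A (fun a ha => hC a (hC'C (hA.1 ha))) (by
      intro p hp h3 hpA
      obtain ⟨r, hr1, hr2, hr⟩ := hav p hp h3 (by omega)
      exact ⟨r, hr1, hr2, fun a ha => hr a (hA.1 ha)⟩)
    have hlog : ∀ᶠ x : ℕ in atTop, 1 ≤ Real.log (x : ℝ) :=
      (Real.tendsto_log_atTop.comp
        (tendsto_natCast_atTop_atTop (R := ℝ))).eventually_ge_atTop 1
    have hall : ∀ᶠ x : ℕ in atTop, ∀ A2 ∈ A.powersetCard k2, ∃ A1 ∈ A2.powersetCard s,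
        c2 * x / (Real.log x) ^ (k2 + 1) ≤ N2 B A1 x := by
      rw [Filter.eventually_all_finset]
      intro A2 hA2
      rw [Finset.mem_powersetCard] at hA2
      exact h2 A2 hA2.2 (hAd.sub hA2.1)
    filter_upwards [h1 A hA.2 hAd, hlog, hall] with x hx hl hxall
    obtain ⟨A2, hA2, hx1⟩ := hx
    obtain ⟨A1, hA1, hx2⟩ := hxall A2 hA2
    rw [Finset.mem_powersetCard] at hA1 hA2
    refine ⟨A1, Finset.mem_powersetCard.2 ⟨hA1.1.trans hA2.1, hA1.2⟩, ?_, ?_⟩
    · have h3 : (N1 A2 x : ℝ) ≤ N1 A1 x := by exact_mod_cast N1_anti hA1.1 x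
      refine le_trans (le_trans ?_ hx1) h3
      calc c * x / (Real.log x) ^ K ≤ c * x / (Real.log x) ^ (k1 + 1) := by
            apply div_le_div_of_nonneg_left (by positivity) (by positivity)
            exact pow_le_pow_right₀ hl (by omega)
        _ ≤ c1 * x / (Real.log x) ^ (k1 + 1) := by
            apply div_le_div_of_nonneg_right _ (by positivity)
            exact mul_le_mul_of_nonneg_right hcc1 (Nat.cast_nonneg x)
    · have h3 : (N2 B A1 x : ℝ) ≤ N2 K A1 x := by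
        exact_mod_cast N2_mono (by omega) A1 x
      refine le_trans (le_trans ?_ hx2) h3
      calc c * x / (Real.log x) ^ K ≤ c * x / (Real.log x) ^ (k2 + 1) := by
            apply div_le_div_of_nonneg_left (by positivity) (by positivity)
            exact pow_le_pow_right₀ hl (by omega)
        _ ≤ c2 * x / (Real.log x) ^ (k2 + 1) := by
            apply div_le_div_of_nonneg_right _ (by positivity)
            exact mul_le_mul_of_nonneg_right hcc2 (Nat.cast_nonneg x)
  have htwo : Tendsto (fun k : ℕ => 2 ^ k) atTop atTop :=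
    tendsto_pow_atTop_atTop_of_one_lt (by norm_num : 1 < 2)
  have hev2 := (htwo.eventually hev).and (eventually_ge_atTop 1)
  obtain ⟨k0, hk0⟩ := Filter.eventually_atTop.1 hev2
  -- the good subsets at the scale `k`
  have hscale : ∀ k, k0 ≤ k → (1 / P0 : ℝ) * (C.powersetCard s).card ≤
      (((C.powersetCard s).filter (fun A => G A k)).card : ℝ) := by
    intro k hk
    obtain ⟨hk1, hk2⟩ := hk0 k hk
    have hkey : ∀ A ∈ C'.powersetCard k1, ∃ A1 ∈ A.powersetCard s, G A1 k := by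
      intro A hA
      obtain ⟨A1, hA1, hx1, hx2⟩ := hk1 A hA
      exact ⟨A1, hA1, GS_of K k c hc0 hk2 A1 hx1 hx2⟩
    have h3 := averaging k1 s (by omega) C' (by omega) (fun A => G A k) hkey
    have h4 := choose_thin s k1 C.card C'.card hcard (by omega)
    have h5 : ((C'.powersetCard s).filter (fun A => G A k)).card ≤
        ((C.powersetCard s).filter (fun A => G A k)).card :=
      Finset.card_le_card (Finset.filter_subset_filter _ (Finset.powersetCard_mono hC'C))
    have h6 : C.card.choose s ≤ P0 * ((C.powersetCard s).filter (fun A => G A k)).card := by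
      calc C.card.choose s ≤ (2 ^ (k1 + 1)) ^ s * C'.card.choose s := h4
        _ ≤ (2 ^ (k1 + 1)) ^ s *
            (k1.choose s * ((C'.powersetCard s).filter (fun A => G A k)).card) :=
            Nat.mul_le_mul_left _ h3
        _ ≤ (2 ^ (k1 + 1)) ^ s *
            (k1.choose s * ((C.powersetCard s).filter (fun A => G A k)).card) :=
            Nat.mul_le_mul_left _ (Nat.mul_le_mul_left _ h5)
        _ = _ := by rw [hP0]; ring
    rw [Finset.card_powersetCard]
    rw [one_div, inv_mul_le_iff₀ hP0r]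
    exact_mod_cast h6
  obtain ⟨F, hFS, hFc, hF⟩ := scales (C.powersetCard s) G (1 / P0 : ℝ) (by positivity) k0 hscale
  have hcF : c ≤ 1 / P0 / 4 := by
    refine hccP.trans (le_of_eq ?_)
    field_simp
  have h9 : c * (C.card.choose s) ≤ F.card := by
    refine le_trans ?_ hFc
    rw [Finset.card_powersetCard]
    exact mul_le_mul_of_nonneg_right hcF (Nat.cast_nonneg _)
  refine h9.trans (Nat.cast_le.2 (Finset.card_le_card ?_))
  intro A hA
  refine mf.2 ⟨hFS hA, (hF A hA).mono fun N hN => ?_⟩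
  have h10 : c * N ≤ 1 / (P0 : ℝ) / 4 * N := mul_le_mul_of_nonneg_right hcF (Nat.cast_nonneg N)
  refine (h10.trans hN).trans (Nat.cast_le.2 (Finset.card_le_card ?_))
  intro k hk
  have hk' := (mf.1 hk)
  have hk2 : GS K c A k := hk'.2
  unfold GS at hk2
  exact mf.2 ⟨hk'.1, hk2.1.trans (Nat.cast_le.2 (Finset.card_le_card fun n hn => mf.2 (mf.1 hn))),
    hk2.2.trans (Nat.cast_le.2 (Finset.card_le_card fun n hn => mf.2 (mf.1 hn)))⟩

end Pool.Agent.IS
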