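import Pool.Agent.Lib.MP_bca3e5_nt.RC.Main
import Pool.Agent.Lib.MP_bca3e5_nt.IS.Pos2
import Pool.Agent.Lib.MP_bca3e5_nt.IS.P.wn
import Pool.Agent.Lib.MP_bca3e5_nt.IS.P.U1
import Pool.Agent.Lib.MP_bca3e5_nt.IS.P.lC
import Pool.Agent.Lib.MP_bca3e5_nt.IS.P.lR
import Pool.Agent.Lib.MP_bca3e5_nt.IS.P.cv
import Pool.Agent.Lib.MP_bca3e5_nt.IS.P.K
import Pool.Agent.Lib.MP_bca3e5_nt.IS.P.ad
import Pool.Agent.Lib.MP_bca3e5_nt.IS.P.fin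

set_option autoImplicit false

/-!
Project IS: the assembly.
-/

namespace Pool.Agent.IS

theorem h_wn : R_wn := p_wn CM.S.h_v1 CM.W.h_pr CM.W.h_bp

theorem h_U1 : R_U1 :=
  p_U1 CM.F.h_app CM.F.h_cnv RC.h_mn CM.S.h_rc CM.L.h_dns CM.L.h_mass CM.L.h_bvF CM.L.h_win CM.L.h_P

theorem h_lC : FL PrP P2P :=
  p_lC h_wn RC.h_nr RC.h_pwr CM.F.h_T12 CM.F.h_T3 CM.F.h_S0 CM.F.h_pw3 CM.F.h_sq CM.S.h_pre CM.S.h_pt
    CM.L.h_P CM.L.h_win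

theorem h_lR : FL P2P PrP :=
  p_lR h_wn h_U1 RC.h_sw RC.h_nr RC.h_pwr RC.h_U0 RC.h_vu CM.F.h_T12 CM.F.h_T3 CM.F.h_pw3 CM.F.h_sq
    CM.S.h_pre CM.S.h_pt CM.L.h_P CM.L.h_win

theorem h_aC : AL PrP P2P := p_cv CM.L.h_fam _ _ h_lC

theorem h_aR : AL P2P PrP := p_cv CM.L.h_fam _ _ h_lR

/-- Infinite sets. -/
theorem h_fin : R_fin := p_fin h_aR h_aC p_K p_ad

/-- A positive proportion of the fixed sets. -/
theorem h_pos : R_pos := p_pos RC.h_cor CM.C.h_cor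

/-- A positive proportion of the fixed sets, at many scales. -/
theorem h_pos2 : R_pos2 := p_pos2 RC.h_cor CM.C.h_cor

end Pool.Agent.IS
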