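import Pool.Agent.Lib.MP_bca3e5_nt.RC.Defs

set_option autoImplicit false

/-!
Project IS (infinite sets, coordinator helper76), for MP_bca3e5_nt: every infinite set `C` of positive even
integers contains an infinite subset `B` such that for every finite `A ⊆ B` there are infinitely many `n`
with at most two prime factors for which all `a n + 1`, `a ∈ A`, are prime, and infinitely many primes `n`
for which all `a n + 1`, `a ∈ A`, have at most two prime factors.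

Everything is built on the libraries CM (`Lib/MP_0da313_nt/CM`) and RC (`Lib/MP_bca3e5_nt/RC`). New: the
weights are not symmetric (`R_wn`): the index with number `x` gets the probability `≥ c * thw x`, and
`∑ thw x = ∞`; there are majorants of the weights for pairs of indices, which give the second moments.

Notation of the docstrings: `z = z0 D n'`, `κ = kapD z`, `V0 = F.V n n'`, `V1 = V (z + 1) (kz n)`,
`Φ = F.hw * n * (V0 / κ)`, `x' j = 1/(j-1)`, `L l x = F.L n l x`.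
-/

namespace Pool.Agent.IS

open Finset Filter
open ArithmeticFunction (cardFactors)
open Pool.Agent.MP89da58 (bil pw nn supp part kapD)
open Pool.Agent.MT (PJf LocD dvI ZI sp)
open Pool.Agent.BVall (om PK lev)
open Pool.Agent.Lib.MP_0da313_nt (Admissible lineRestrict val singV)
open Pool.Agent.CH.S (th Pr gd RepC V)
open Pool.Agent.CM (Fam F12 F3 kz ky k3 lD al cv z0)
open Pool.Agent.CM.W (WPk yM)
open Pool.Agent.CM.F (DF qf Par Pre Wts)
open Pool.Agent.RC (sw Rou Near)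

/-! ### The weights -/

/-- The number of scales of the index with number `x`. -/
def mth (x : ℕ) : ℕ := Nat.log 2 (x + 2)

/-- The weight of the index with number `x`; `∑ thw x` diverges. -/
noncomputable def thw (x : ℕ) : ℝ := 1 / ((2 : ℝ) ^ mth x * mth x)

/-- The weights: `lam` as in `WPk`; `lami i` without the index `i`; `lam1 i k` majorant at the index `k`,
without the index `i`; `lam2 i k` majorant at the indices `i` and `k`. -/
structure WN {ι : Type} [Fintype ι] [DecidableEq ι] (P : Finset ℕ) (Y : ℕ) (B A V1 C : ℝ)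
    (T : ι → ℝ) (lam : (PJf P → Option ι) → ℝ) (lami : ι → (PJf P → Option ι) → ℝ)
    (lam1 lam2 : ι → ι → (PJf P → Option ι) → ℝ) : Prop where
  base : WPk P Y B A V1 0 lam lami
  lo : ∀ i, T i * A ≤ V1 * bil (fun j : PJf P => 1 / (((j : ℕ) : ℝ) - 1)) (lami i) (lami i)
  bd1 : ∀ i k α, |lam1 i k α| ≤ B
  bd2 : ∀ i k α, |lam2 i k α| ≤ B
  sup1 : ∀ i k α, lam1 i k α ≠ 0 →
    part α i = ∅ ∧ nn (fun j : PJf P => (j : ℕ)) (supp α) ≤ Y
  sup2 : ∀ i k α, lam2 i k α ≠ 0 → nn (fun j : PJf P => (j : ℕ)) (supp α) ≤ Y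
  link : ∀ i k, i ≠ k → ∀ (D : PJf P → ι → ℤ → Prop) (y : ℤ), (∀ j, ¬ D j i y) →
    (∀ j, ¬ D j k y) → ZI D (lam1 i k) y = ZI D lam y ∧ ZI D (lam2 i k) y = ZI D lam y
  up1 : ∀ i k, i ≠ k → V1 * bil (fun j : PJf P => 1 / (((j : ℕ) : ℝ) - 1)) (lam1 i k) (lam1 i k) ≤
    C * (T i * T k * A)
  up2 : ∀ i k, i ≠ k → bil (fun j : PJf P => 1 / (((j : ℕ) : ℝ) - 1)) (lam2 i k) (lam2 i k) ≤
    C * (T i * T k * A)

/-- Existence of the weights. -/
def R_wn : Prop := ∃ c C : ℝ, 0 < c ∧ 0 < C ∧ ∀ (ι : Type) [Fintype ι] [DecidableEq ι] [Nonempty ι]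
  (e : ι → ℕ), Function.Injective e →
  ∃ M : ℕ, 1 ≤ M ∧ ∀ B0 : ℕ, 1 ≤ B0 → ∀ᶠ n : ℕ in atTop, ∀ z : ℕ, n ≤ z ^ B0 →
  (z : ℝ) ^ M ≤ (n : ℝ) ^ (1 / 1000 : ℝ) → ∀ P Ex : Finset ℕ,
  (∀ p ∈ P, p.Prime ∧ z < p ∧ p ≤ yM M n) →
  (∀ p : ℕ, p.Prime → z < p → p ≤ yM M n → p ∈ P ∨ p ∈ Ex) →
  ∑ p ∈ Ex, 1 / (p : ℝ) ≤ 1 / 2 →
  ∃ (lam : (PJf P → Option ι) → ℝ) (lami : ι → (PJf P → Option ι) → ℝ)
    (lam1 lam2 : ι → ι → (PJf P → Option ι) → ℝ) (A : ℝ) (T : ι → ℝ),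
    WN P (yM M n) ((B0 : ℝ) ^ (Fintype.card ι + 2)) A (V (z + 1) (kz n)) C T lam lami lam1 lam2 ∧
    ∀ i, c * thw (e i) ≤ T i

/-- [IS wn] helper76. -/
def S_wn : Prop := CM.S.R_v1 → CM.W.R_pr → CM.W.R_bp → R_wn

/-! ### One more sum -/

/-- The upper bound for the sum over the points where `some i` has no prime factor `< kz n`. -/
def R_U1 : Prop := ∀ (ι : Type) [Fintype ι] [DecidableEq ι] [Nonempty ι] (D : ℕ) (F : Fam ι D)
  (B0 M B A : ℕ), 1 ≤ D → 1 ≤ B0 → 1 ≤ M → ∀ᶠ n : ℕ in atTop, ∀ (n' : ℕ)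
  (P : Finset ℕ), Par F B0 M n n' P → ∀ Fp Fm, Pre D n' Fp Fm → ∀ (i : ι)
  (g : (PJf P → Option ι) → ℝ), Wts B (yM M n) none (some i) g →
  ∑ x ∈ Ioo 0 n, F.a0 n (F.L n none x).toNat *
      (F3 Fp (z0 D n' + 1) (kz n) (lD n) (F.ri n (z0 D n') none (some i) x) *
        ZI (DF F n P) g x ^ 2) ≤
    102 / 100 * (F.hw * n * (F.V n n' / kapD (z0 D n'))) * (V (z0 D n' + 1) (kz n) * qf g) +
      n / (Real.log n) ^ A

/-- [IS U1] (uses CM F app, cnv, RC mn, CM S rc, L dns, mass, bvF, win, P) Proof: this is the proof of `S_T12`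
(`CM/P/T12.lean`) with `Ff = F3 Fp (z + 1) (kz n) (lD n)` instead of `F12 ..`, and upper bounds instead of
lower bounds; compare also the proof of `S_S0` (`CM/P/S0.lean`) and of `R_U0` (`Lib/MP_bca3e5_nt/RC/P/U0.lean`, which
uses the same `Ff`). `R_app` with `l = none`, `l' = some i`, `y = kz n` (or `y = ky C n` with any `C`), `a = F.a0 n`,
`N = F.NX n none`; `R_rc` gives the representation (with `z = y = k = kz n`: `kz n * kz n < lD n`;
`lev^3 * lD n ≤ n^(0.001 + 273/550) ≤ n^(0.4974)`). Main term: `Ff (rd) ≤ 1.01 V0' V1` by `RC.R_mn`, where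
`V0' = W (F.rd ..) (PK ..)`, `V0'/φ(|u|) = V/(κ |u|)` (`R_dns`), `sT ≤ 1.002 hw n |u|` (`R_mass`), `1.01 * 1.002 ≤ 1.02`;
`qf g ≥ 0` (`cm_S0_qf`). -/
def S_U1 : Prop := CM.F.R_app → CM.F.R_cnv → RC.R_mn → CM.S.R_rc → CM.L.R_dns → CM.L.R_mass →
  CM.L.R_bvF → CM.L.R_win → CM.L.R_P → R_U1

/-! ### The laws -/

/-- A finite measure `w` of mass at most `1` on the integers `x` with the property `Gd`, and random
variables `Y i` with values in `[0, 1]` such that `Y i x ≠ 0` implies the event `Ev i x`, with first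
moments at least `c * T i` and second moments at most `C * T i * T k`. -/
structure Law {ι : Type} (Gd : ℕ → Prop) (Ev : ι → ℕ → Prop) (c C : ℝ) (θ : ι → ℝ) (N : ℕ)
    (w : ℕ → ℝ) (Y : ι → ℕ → ℝ) (T : ι → ℝ) : Prop where
  w0 : ∀ x, 0 ≤ w x
  wG : ∀ x, w x ≠ 0 → Gd x
  w1 : ∑ x ∈ range N, w x ≤ 1
  Y0 : ∀ i x, 0 ≤ Y i x ∧ Y i x ≤ 1
  YE : ∀ i x, w x ≠ 0 → Y i x ≠ 0 → Ev i x
  T0 : ∀ i, c * θ i ≤ T i
  lo : ∀ i, c * T i ≤ ∑ x ∈ range N, w x * Y i x
  up : ∀ i k, i ≠ k → ∑ x ∈ range N, w x * (Y i x * Y k x) ≤ C * (T i * T k)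

/-- The law for families: `Pn` is the property of the form `none`, `Ps` the event for the forms
`some i`. -/
def FL (Pn Ps : ℕ → ℕ → Prop) : Prop := ∃ c C : ℝ, 0 < c ∧ 0 < C ∧
  ∀ (ι : Type) [Fintype ι] [DecidableEq ι] [Nonempty ι] (e : ι → ℕ), Function.Injective e →
  ∃ M : ℕ, 1 ≤ M ∧ ∀ (D B0 : ℕ), 1 ≤ D → 1 ≤ B0 →
  ∀ F : Fam ι D, ∀ᶠ n : ℕ in atTop, ∀ n' : ℕ, n ≤ z0 D n' ^ B0 →
  (lev (2 * D) n' : ℝ) ^ (3 * M) ≤ (n : ℝ) ^ (1 / 1000 : ℝ) →
  (2 : ℝ) ^ (2 * D + n') ≤ Real.log n →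
  ∃ (w : ℕ → ℝ) (Y : ι → ℕ → ℝ) (T : ι → ℝ),
    Law (fun x => x < n ∧ Near F n x ∧ Pn n (F.L n none x).natAbs)
      (fun i x => Ps n (F.L n (some i) x).natAbs) c C (fun i => thw (e i)) n w Y T

/-- The property to be a prime. -/
def PrP (_ m : ℕ) : Prop := m.Prime

/-- The property to have at most two prime factors, none of them `< kz n`. -/
def P2P (n m : ℕ) : Prop := cardFactors m ≤ 2 ∧ Rou (kz n) m

/-- [IS lC] (uses wn, RC nr, RC pwr, CM F T12, T3, S0, pw3, sq, S pre, S pt, L P, L win) The form `none` is a prime,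
the forms `some i` are `P_2`. Proof: adapt `p_cnt` (`CM/P/cnt.lean`) up to the point where the first moments are
bounded. Parameters as there, `B = B0^(|ι| + 2)`. `lam, lami, lam1, lam2, A, T` from `R_wn` (instead of `R_wp`);
`hW.base : WPk ..` gives what `WPk` gave there (its `τ` is `0`; use `hW.lo` instead). `T i ≥ c' * thw (e i) > 0`
(`mth x ≥ 1`) is a positive constant, so `e = n/(log n)^(8D+2)` is small with respect to `Φ A`, `T i Φ A` and
`T i T k Φ A` for all `i, k` (as in `cnt`: `V0 ≥ c1/(log n)^(8D)`, `κ ≤ 1`, `A ≥ 1`).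
`w x = a0 n (L none x).toNat * [Rg] * Z(x)/(3 Φ A)` for `x ∈ Ioo 0 n`, and `0` otherwise, `Z(x) = ZI (DF F n P) lam x ^ 2`;
`Y i x = 1` if `P2P n (L (some i) x).natAbs`, else `0`. Mass: `∑ a0 [Rg] Z ≤ 2.03 Φ A` as in `cnt`. `wG`: `a0 ≠ 0` gives
that `L none x` is a prime and (`RC.R_nr`) `Near`. First moments: as in `cnt`, but with `RC.R_pwr` (multiplied by
`a0 * ZI (lami i)^2`) instead of `R_pw1` (in this way the condition `Rou (kz n)` is kept; see also `RC/P/cnt.lean`,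
`rc_cnt_pt`; if `a0 ≠ 0` and `Rou (kz n) (L (some i) x).toNat` then no `j ∈ P` divides `L (some i) x`, because
`j ≤ yM M n < kz n`, and `ZI lam = ZI (lami i)` by `base.link`):
`∑ a0 [Rg] [P2P_i] Z ≥ 0.2105 Φ V1 b_i - e - (1/2)(0.391 Φ V1 b_i + e) - e ≥ (14/1000) T i Φ A`.
Second moments, `i ≠ k`: where `a0 ≠ 0`, `Rg`, `P2P_i`, `P2P_k`: no `j ∈ P` divides `L (some i) x` or `L (some k) x`, so
`Z(x) = ZI (lam2 i k) x ^ 2` (`link`), and `[Rg] ≤ Fp (ri none none x)` (`Pre.pt`, see `cnt`); so the sum is at most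
`R_S0` for `g = lam2 i k` (`Wts B _ none none`): `1.01 Φ qf (lam2 i k) + e ≤ 1.01 Φ C T i T k A + e`. Then
`c = min (1/1000) c'`, `C = C' + 1` or so. -/
def S_lC : Prop := R_wn → RC.R_nr → RC.R_pwr → CM.F.R_T12 → CM.F.R_T3 → CM.F.R_S0 →
  CM.F.R_pw3 → CM.F.R_sq → CM.S.R_pre → CM.S.R_pt → CM.L.R_P → CM.L.R_win → FL PrP P2P

/-- [IS lR] (uses wn, U1, RC sw, nr, pwr, U0, vu, CM F T12, T3, pw3, sq, S pre, S pt, L P, L win) The form `none` is a
`P_2`, the forms `some i` are primes. Proof: adapt `p_cnt` of RC (`RC/P/cnt.lean`) up to the point where `h1` (first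
moments) and `h2` (total mass) of `rc_cnt_core` are available; `B = B0^(|ι| + 2)`, weights from `R_wn`
(`hW.base : WPk ..`, `hW.lo` instead of its `lo`). `a i x = Fi.a0 n (L (some i) x).toNat`, `Fi = sw F i`; `E` as there
(`Rg`, `Near`, `Rou (kz n)`, `cardFactors ≤ 2` for the form `none`). `S = ∑_{x ∈ E} Z(x) ≤ 121 Φ A/log n`,
`∑_{x ∈ E} a i x * Z(x) ≥ (14/1000) T i Φ A` for every `i` (with `T i` in place of `τ`; `T i ≥ c' thw (e i) > 0`
constant). `w x = Z(x) log n/(121 Φ A)` for `x ∈ E`, else `0`; `Y i x = a i x/(2 log n) ∈ [0, 1]`.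
First moments: `≥ (14/242000) T i`. Second moments, `i ≠ k`: `a k x ≤ 2 log n`; where `x ∈ E`, `a i x ≠ 0`, `a k x ≠ 0`
the numbers `L (some i) x`, `L (some k) x` are primes `> yM M n`, so `ZI lam x = ZI (lam1 i k) x` (`link`), which is the
same for `DF Fi n P` (`R_sw`, last part: `lam1 i k` is in `Wts B _ none (some i)` by `sup1`), and
`F3 Fp (z+1) (kz n) (lD n) (Fi.ri n z none (some i) x) ≥ W W = 1` (`CM.S.R_pt`: all conditions `Fi.Q n z none (some i) p x`,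
`p ≤ z` or `z < p < kz n`, are false by `Rg` and `Rou`: `Fi.L n (some i) = F.L n none`), and `F3 ≥ 0` always. Hence
`∑_{x ∈ E} a i x * a k x * Z(x) ≤ 2 log n * (1.02 Φ V1 qf (lam1 i k) + e) ≤ 2 log n * (1.02 Φ C T i T k A + e)` by `R_U1`
for `Fi`, `g = lam1 i k`, and `hW.up1`; `e ≤ T i T k Φ A` for large `n`. Multiply by `log n/(121 Φ A)/(2 log n)^2`. -/
def S_lR : Prop := R_wn → R_U1 → RC.R_sw → RC.R_nr → RC.R_pwr → RC.R_U0 → RC.R_vu → CM.F.R_T12 →
  CM.F.R_T3 → CM.F.R_pw3 → CM.F.R_sq → CM.S.R_pre → CM.S.R_pt → CM.L.R_P → CM.L.R_win → FL P2P PrP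

/-- The condition on the sequence `a`. -/
def Adm (a : ℕ → ℕ) : Prop := Function.Injective a ∧ (∀ i, 0 < a i) ∧
  ∀ k : ℕ, ¬ ∃ p : ℕ, p.Prime ∧ ∀ n : ℕ, 1 ≤ n → p ∣ n * ∏ i ∈ range k, (a i * n + 1)

/-- The laws for the numbers `x`, `a i * x + 1`. -/
def AL (Pn Ps : ℕ → ℕ → Prop) : Prop := ∃ c C : ℝ, 0 < c ∧ 0 < C ∧ ∀ a : ℕ → ℕ, Adm a →
  ∀ k N0 : ℕ, 1 ≤ k → ∃ (N : ℕ) (w : ℕ → ℝ) (Y : Fin k → ℕ → ℝ) (T : Fin k → ℝ),
    Law (fun x => N0 ≤ x ∧ x < N ∧ Pn N x) (fun (i : Fin k) x => Ps N (a i * x + 1)) c C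
      (fun i => thw i) N w Y T

/-- [IS cv] (uses CM L fam) Proof: compare `p_fin` and `p_cor` (`CM/P/fin.lean`, `CM/P/cor.lean`). Given `a`, `k ≥ 1`, let
`f : Fin (k + 1) → MvPolynomial (Fin 2) ℤ`, `f 0 = X 0`, `f j.succ = C (a j) * X 0 + 1`, as in `p_cor`, `Admissible f` from
`Adm a` (with this `k`), `k0 = 0`, `I = univ.erase 0` (or the image of `Fin.succ`), `ι = {j // j ∈ I}`, and
`e : ι → ℕ`, `e j = (j : Fin (k+1)) - 1` (injective). `M` from `FL`, `D = (k + 1) * 1`, `F` from `R_fam` (`m = k + 1`, `d = 1`),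
`B0 = 128000 * (2D) * (3M)` and `n'` from `choose_levS (2D) (3M) ..` as in `p_fin`, for a large `n =: N`, also
`2 F.hw n ≥ N0`. `Near F n x` and `F.xi ≥ 4 F.hw` give `x ≥ 2 F.hw n ≥ N0`. Last part of `R_fam`: `(F.L n none x).natAbs`
is `(val (f 0) x (n - x)).natAbs = x` and `(F.L n (some j) x).natAbs = a (j-1) * x + 1`. Reindex by
`Fin k ≃ ι`, `i ↦ i.succ`. -/
def S_cv : Prop := CM.L.R_fam → ∀ Pn Ps : ℕ → ℕ → Prop, FL Pn Ps → AL Pn Ps

/-! ### The infinite set of indices -/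

/-- The compactness theorem. -/
def R_K : Prop := ∀ (c C : ℝ), 0 < c → 0 < C → ∀ (Gd : ℕ → Prop) (Ev : ℕ → ℕ → Prop),
  (∀ k N0 : ℕ, 1 ≤ k → ∃ (N : ℕ) (w : ℕ → ℝ) (Y : Fin k → ℕ → ℝ) (T : Fin k → ℝ),
    Law (fun x => N0 ≤ x ∧ x < N ∧ Gd x) (fun (i : Fin k) x => Ev i x) c C (fun i => thw i) N w Y T) →
  ∃ I : Set ℕ, I.Infinite ∧ ∀ J : Finset ℕ, (J : Set ℕ) ⊆ I →
    {x : ℕ | Gd x ∧ ∀ i ∈ J, Ev i x}.Infinite

/-- [IS K] Proof. (1) `∑_{x < j} thw x → ∞`: the block `2^m ≤ x + 2 < 2^(m+1)`, `m ≥ 1`, contributes `≥ (2^m - 2)/(2^m m)`...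
precisely `2^m` terms `1/(2^m m)` (for `m = 1`: `x = 0, 1`), harmonic series.
(2) For `k ≥ 1` take the law for `k` and `N0 = k`. Let `j ≤ k`, `t = ∑_{i<j} T i`, `S(x) = ∑_{i<j} Y i x ≤ #{i < j : Ev i x}`
(if `w x ≠ 0`), `m1 = ∑ w S ≥ c t`, `∑ w S^2 ≤ C t^2 + m1` (diagonal terms: `Y^2 ≤ Y`; `T i ≥ 0`). For `t ≥ 1`: the `x` with
`S(x) ≥ c t/2` have mass `≥ (m1/2)^2/(C t^2 + m1) ≥ δ := c^2/(4 (C + c))` (Cauchy; the mass is `≤ 1`, so the
other `x` contribute `≤ c t/2 ≤ m1/2` to `m1`; `m ↦ m^2/(C t^2 + m)` is increasing). `c t/2 ≥ (c^2/2) ∑_{i<j} thw i`.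
So for every `m` there is `j(m)` such that for all `k ≥ j(m)`: mass of `{x : #{i < j(m) : Ev i x} ≥ m} ≥ δ`.
(3) Let `P_k` be the probability measure on `ℕ → Bool` which is the normalised image of `w` (total mass
`W_k ∈ (0, 1]`) under `x ↦ (decide (Ev i x))_i`. Mathlib: `ProbabilityMeasure (ℕ → Bool)` is compact
(`Mathlib/MeasureTheory/Measure/Prokhorov.lean`, instance `CompactSpace (ProbabilityMeasure E)`), let `P` be a
cluster point of `P_k`. For clopen `U` the map `μ ↦ μ U` is continuous (the frontier is empty;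
`ProbabilityMeasure.tendsto_measure_of_null_frontier_of_tendsto` or continuity of the integral of the
indicator, a continuous function). So `P U_m ≥ δ` for `U_m = {ω : #{i < j(m) : ω i} ≥ m}`, and `P V_J = 0` for
`V_J = {ω : ∀ i ∈ J, ω i}` whenever the set `{x : Gd x ∧ ∀ i ∈ J, Ev i x}` is finite (then `P_k V_J = 0` for all large
`k`, since `w x ≠ 0` implies `x ≥ k`). `P (limsup U_m) ≥ δ > 0` (continuity from above), the union of the
countably many null `V_J` is a null set: take `ω` in the first set and not in the second one,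
`I = {i | ω i = true}`. (Instead of a topological limit one can also use an ultrafilter.) -/
def S_K : Prop := R_K

/-- Admissible sequences in infinite sets of even numbers. -/
def R_ad : Prop := ∀ C : Set ℕ, C.Infinite → (∀ a ∈ C, 0 < a ∧ Even a) →
  ∃ a : ℕ → ℕ, (∀ i, a i ∈ C) ∧ Adm a

/-- [IS ad] Proof: let `U` be an ultrafilter on `ℕ` which contains `C` and all cofinite sets
(`Filter.hyperfilter` mapped, or `Ultrafilter.of (cofinite ⊓ 𝓟 C)`). For every `p ≥ 1` there is a residue `r p` with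
`{a | a % p = r p} ∈ U` (finite partition). Choose recursively `a 0 < a 1 < ...` in `C` with
`a i % p = r p` for all `1 ≤ p ≤ i + 3` (the set of these `a` is in `U`, hence infinite). Let `p` be a prime and `k` given.
`p = 2`: `n = 1`, all `a i + 1` are odd. `p ≥ 3`: the `i < k` with `i + 3 < p` are at most `p - 3` in number, for the
others `a i ≡ r p`. For each residue class of `a i` modulo `p` there is at most one class `n` with
`p ∣ a i * n + 1`; together with the class `0` at most `1 + (p - 3) + 1 = p - 1` classes are excluded, so there is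
`1 ≤ n ≤ p` such that `p` divides neither `n` nor any `a i * n + 1`. -/
def S_ad : Prop := R_ad

/-! ### The final theorem -/

/-- The final theorem. -/
def R_fin : Prop := ∀ C : Set ℕ, C.Infinite → (∀ a ∈ C, 0 < a ∧ Even a) →
  ∃ B : Set ℕ, B ⊆ C ∧ B.Infinite ∧ ∀ A : Finset ℕ, (A : Set ℕ) ⊆ B →
  {n : ℕ | 1 < n ∧ cardFactors n ≤ 2 ∧ (∀ p : ℕ, p.Prime → p ∣ n → n < p ^ 12) ∧
    ∀ a ∈ A, (a * n + 1).Prime}.Infinite ∧
  {n : ℕ | n.Prime ∧ ∀ a ∈ A, cardFactors (a * n + 1) ≤ 2 ∧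
    ∀ p : ℕ, p.Prime → p ∣ a * n + 1 → n < p ^ 12}.Infinite

/-- [IS fin] Proof: `R_ad` gives `a` in `C`. `AL P2P PrP` and `R_K` with `Gd x = (1 < x ∧ cardFactors x ≤ 2 ∧ ∀ p ∣ x, x < p^12)`,
`Ev i x = (a i * x + 1).Prime` (`x ≥ N0 ≥ 2`; `x < N ≤ (kz N)^11 ≤ p^11`, `p ^ 11 ≤ p ^ 12`; laws for smaller `N0` follow from
laws for larger `N0`): an infinite set `I1` of indices, `B1 = a '' I1 ⊆ C`. Then the same for `C := B1` with `AL PrP P2P`:
`B ⊆ B1`. A finite `A ⊆ B` is the image of a finite set of indices (`a` injective). -/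
def S_fin : Prop := AL P2P PrP → AL PrP P2P → R_K → R_ad → R_fin

end Pool.Agent.IS
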