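import Mathlib

set_option autoImplicit false

/-!
Infinite sets, section K: a second moment argument and compactness.

If events `E_i` (given by patterns `R n` and weights `w m n`) have masses about `p i`, with
`∑ p i = ∞`, and pairwise masses at most `C * p i * p j`, then there is an infinite set `B` such
that for all finite `A ⊆ B` the joint mass of the `E_i`, `i ∈ A`, is bounded below for infinitely
many `m`.
-/

namespace Pool.Agent.IS

open Finset Filter MeasureTheory Topology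
open scoped Classical

/-- Finite second moment inequality. -/
theorem pz_fin (C : ℝ) (hC : 0 < C) (p : ℕ → ℝ) (hp : ∀ i, 0 ≤ p i) (R : ℕ → Set ℕ)
    (w : ℕ → ℝ) (s : Finset ℕ) (hw : ∀ n, 0 ≤ w n) (h1 : ∑ n ∈ s, w n ≤ 1) (J M : ℕ)
    (hS1 : 1 ≤ ∑ i ∈ range J, p i) (hSM : 2 * (M : ℝ) ≤ ∑ i ∈ range J, p i)
    (hlo : ∀ i < J, p i ≤ ∑ n ∈ s, if i ∈ R n then w n else 0)
    (hup : ∀ i < J, (∑ n ∈ s, if i ∈ R n then w n else 0) ≤ C * p i)
    (h2 : ∀ i < J, ∀ j < J, i ≠ j →
      (∑ n ∈ s, if i ∈ R n ∧ j ∈ R n then w n else 0) ≤ C * p i * p j) :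
    1 / (8 * C) ≤ ∑ n ∈ s, if M ≤ ((range J).filter (fun i => i ∈ R n)).card then w n else 0 := by
  set S : ℝ := ∑ i ∈ range J, p i with hS
  set X : ℕ → ℝ := fun n => (((range J).filter (fun i => i ∈ R n)).card : ℝ) with hX
  have hXs : ∀ n, X n = ∑ i ∈ range J, (if i ∈ R n then (1 : ℝ) else 0) := by
    intro n
    simp [hX, Finset.sum_boole]
  have hX0 : ∀ n, 0 ≤ X n := fun n => Nat.cast_nonneg _
  -- first moment
  have hE : ∑ n ∈ s, w n * X n = ∑ i ∈ range J, ∑ n ∈ s, (if i ∈ R n then w n else 0) := by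
    rw [Finset.sum_comm]
    refine Finset.sum_congr rfl fun n _ => ?_
    rw [hXs, Finset.mul_sum]
    refine Finset.sum_congr rfl fun i _ => ?_
    split_ifs <;> simp
  have hE1 : S ≤ ∑ n ∈ s, w n * X n := by
    rw [hE, hS]
    exact Finset.sum_le_sum fun i hi => hlo i (Finset.mem_range.1 hi)
  -- second moment
  have hE2 : ∑ n ∈ s, w n * X n ^ 2 =
      ∑ i ∈ range J, ∑ j ∈ range J, ∑ n ∈ s, (if i ∈ R n ∧ j ∈ R n then w n else 0) := by
    have : ∀ n ∈ s, w n * X n ^ 2 =
        ∑ i ∈ range J, ∑ j ∈ range J, (if i ∈ R n ∧ j ∈ R n then w n else 0) := by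
      intro n _
      rw [hXs, sq, Finset.sum_mul_sum, Finset.mul_sum]
      refine Finset.sum_congr rfl fun i _ => ?_
      rw [Finset.mul_sum]
      refine Finset.sum_congr rfl fun j _ => ?_
      by_cases hi : i ∈ R n <;> by_cases hj : j ∈ R n <;> simp [hi, hj]
    rw [Finset.sum_congr rfl this, Finset.sum_comm]
    refine Finset.sum_congr rfl fun i _ => ?_
    rw [Finset.sum_comm]
  have hE3 : ∑ n ∈ s, w n * X n ^ 2 ≤ C * S + C * S ^ 2 := by
    rw [hE2]
    have hb : ∀ i ∈ range J, ∑ j ∈ range J, ∑ n ∈ s, (if i ∈ R n ∧ j ∈ R n then w n else 0) ≤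
        C * p i + ∑ j ∈ range J, C * p i * p j := by
      intro i hi
      rw [← Finset.add_sum_erase _ _ hi]
      have e1 : ∑ n ∈ s, (if i ∈ R n ∧ i ∈ R n then w n else 0) ≤ C * p i := by
        simpa using hup i (Finset.mem_range.1 hi)
      have e2 : ∑ j ∈ (range J).erase i, ∑ n ∈ s, (if i ∈ R n ∧ j ∈ R n then w n else 0) ≤
          ∑ j ∈ range J, C * p i * p j := by
        refine (Finset.sum_le_sum (fun j hj => ?_)).trans
          (Finset.sum_le_sum_of_subset_of_nonneg (Finset.erase_subset i (range J))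
            (fun j _ _ => mul_nonneg (mul_nonneg hC.le (hp i)) (hp j)))
        exact h2 i (Finset.mem_range.1 hi) j (Finset.mem_range.1 (Finset.mem_of_mem_erase hj))
          (Finset.ne_of_mem_erase hj).symm
      linarith
    refine (Finset.sum_le_sum hb).trans (le_of_eq ?_)
    rw [Finset.sum_add_distrib, ← Finset.mul_sum, ← hS, sq]
    congr 1
    calc ∑ i ∈ range J, ∑ j ∈ range J, C * p i * p j
        = ∑ i ∈ range J, (C * S) * p i := by
          refine Finset.sum_congr rfl fun i _ => ?_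
          rw [← Finset.mul_sum, ← hS]
          ring
      _ = C * (S * S) := by rw [← Finset.mul_sum, ← hS]; ring
  -- conclusion
  set P : ℝ := ∑ n ∈ s, if M ≤ ((range J).filter (fun i => i ∈ R n)).card then w n else 0 with hP
  have hMX : ∀ n, (M ≤ ((range J).filter (fun i => i ∈ R n)).card) ↔ (M : ℝ) ≤ X n := by
    intro n
    simp only [hX]
    exact Nat.cast_le.symm
  have hP' : P = ∑ n ∈ s, (if (M : ℝ) ≤ X n then w n else 0) := by
    rw [hP]
    refine Finset.sum_congr rfl fun n _ => ?_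
    simp only [hMX n]
  set T : ℝ := ∑ n ∈ s, (if (M : ℝ) ≤ X n then w n * X n else 0) with hT
  have hsplit : ∑ n ∈ s, w n * X n ≤ M + T := by
    have h3 : ∑ n ∈ s, w n * X n ≤ ∑ n ∈ s, (w n * M + (if (M : ℝ) ≤ X n then w n * X n else 0)) := by
      refine Finset.sum_le_sum fun n _ => ?_
      split_ifs with h
      · have := mul_nonneg (hw n) (Nat.cast_nonneg (α := ℝ) M)
        linarith
      · push Not at h
        have := mul_le_mul_of_nonneg_left h.le (hw n)
        linarith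
    rw [Finset.sum_add_distrib, ← Finset.sum_mul, ← hT] at h3
    have h4 : (∑ n ∈ s, w n) * (M : ℝ) ≤ 1 * M :=
      mul_le_mul_of_nonneg_right h1 (Nat.cast_nonneg M)
    linarith
  have hT1 : S / 2 ≤ T := by linarith
  have hcs : T ^ 2 ≤ (∑ n ∈ s, w n * X n ^ 2) * P := by
    rw [hP', hT]
    have h5 := Finset.sum_mul_sq_le_sq_mul_sq s (fun n => Real.sqrt (w n) * X n)
      (fun n => if (M : ℝ) ≤ X n then Real.sqrt (w n) else 0)
    have e1 : ∑ n ∈ s, (Real.sqrt (w n) * X n) * (if (M : ℝ) ≤ X n then Real.sqrt (w n) else 0)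
        = ∑ n ∈ s, (if (M : ℝ) ≤ X n then w n * X n else 0) := by
      refine Finset.sum_congr rfl fun n _ => ?_
      split_ifs with h
      · have := Real.mul_self_sqrt (hw n)
        calc Real.sqrt (w n) * X n * Real.sqrt (w n)
            = (Real.sqrt (w n) * Real.sqrt (w n)) * X n := by ring
          _ = w n * X n := by rw [this]
      · ring
    have e2 : ∑ n ∈ s, (Real.sqrt (w n) * X n) ^ 2 = ∑ n ∈ s, w n * X n ^ 2 := by
      refine Finset.sum_congr rfl fun n _ => ?_
      rw [mul_pow, Real.sq_sqrt (hw n)]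
    have e3 : ∑ n ∈ s, (if (M : ℝ) ≤ X n then Real.sqrt (w n) else 0) ^ 2
        = ∑ n ∈ s, (if (M : ℝ) ≤ X n then w n else 0) := by
      refine Finset.sum_congr rfl fun n _ => ?_
      split_ifs with h
      · rw [Real.sq_sqrt (hw n)]
      · simp
    rw [e1, e2, e3] at h5
    exact h5
  have hP0 : 0 ≤ P := by
    rw [hP]
    exact Finset.sum_nonneg fun n _ => by split_ifs <;> first | exact hw n | exact le_rfl
  have hS0 : 0 < S := by linarith
  have h6 : C * S + C * S ^ 2 ≤ 2 * C * S ^ 2 := by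
    have h60 : S ≤ S ^ 2 := by nlinarith
    have h61 := mul_le_mul_of_nonneg_left h60 hC.le
    linarith
  have h7 : (S / 2) ^ 2 ≤ (2 * C * S ^ 2) * P := by
    have a1 : (S / 2) ^ 2 ≤ T ^ 2 := by
      apply pow_le_pow_left₀ (by linarith) hT1
    have a2 : (∑ n ∈ s, w n * X n ^ 2) * P ≤ (2 * C * S ^ 2) * P :=
      mul_le_mul_of_nonneg_right (hE3.trans h6) hP0
    linarith
  have hS2 : 0 < S ^ 2 := by positivity
  rw [div_le_iff₀ (by positivity)]
  nlinarith

/-- The pattern of `n`. -/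
noncomputable def pat (R : ℕ → Set ℕ) (n : ℕ) : ℕ → Bool := fun i => decide (i ∈ R n)

/-- The law of the pattern. -/
noncomputable def law (R : ℕ → Set ℕ) (w : ℕ → ℝ) (s : Finset ℕ) : Measure (ℕ → Bool) :=
  (∑ n ∈ s, ENNReal.ofReal (w n) • Measure.dirac (pat R n)) +
    ENNReal.ofReal (1 - ∑ n ∈ s, w n) • Measure.dirac (fun _ => false)

theorem law_apply (R : ℕ → Set ℕ) (w : ℕ → ℝ) (s : Finset ℕ) (hw : ∀ n, 0 ≤ w n)
    (E : Set (ℕ → Bool)) (hE : MeasurableSet E) :
    law R w s E = ENNReal.ofReal (∑ n ∈ s, if pat R n ∈ E then w n else 0) +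
      (if (fun _ => false) ∈ E then ENNReal.ofReal (1 - ∑ n ∈ s, w n) else 0) := by
  unfold law
  rw [Measure.add_apply, Measure.finsetSum_apply, Measure.smul_apply, Measure.dirac_apply' _ hE]
  congr 1
  · rw [ENNReal.ofReal_sum_of_nonneg (fun n _ => by split_ifs <;> first | exact hw n | exact le_rfl)]
    refine Finset.sum_congr rfl fun n _ => ?_
    rw [Measure.smul_apply, Measure.dirac_apply' _ hE]
    by_cases h : pat R n ∈ E <;> simp [h]
  · by_cases h : (fun _ => false) ∈ E <;> simp [h]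

theorem law_prob (R : ℕ → Set ℕ) (w : ℕ → ℝ) (s : Finset ℕ) (hw : ∀ n, 0 ≤ w n)
    (h1 : ∑ n ∈ s, w n ≤ 1) : IsProbabilityMeasure (law R w s) := by
  constructor
  rw [law_apply R w s hw _ MeasurableSet.univ]
  simp only [Set.mem_univ, if_true]
  rw [← ENNReal.ofReal_add (Finset.sum_nonneg fun n _ => hw n) (by linarith)]
  simp

/-- The patterns containing `A`. -/
def cyl (A : Finset ℕ) : Set (ℕ → Bool) := {x | ∀ i ∈ A, x i = true}

/-- The patterns with at least `M` elements below `J`. -/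
def cnt (J M : ℕ) : Set (ℕ → Bool) := {x | M ≤ ((range J).filter (fun i => x i = true)).card}

theorem clopen_cyl (A : Finset ℕ) : IsClopen (cyl A) := by
  have : cyl A = ⋂ i ∈ A, (fun x : ℕ → Bool => x i) ⁻¹' {true} := by
    ext x
    simp [cyl]
  rw [this]
  exact isClopen_biInter_finset fun i _ => (isClopen_discrete _).preimage (continuous_apply i)

theorem clopen_cnt (J M : ℕ) : IsClopen (cnt J M) := by
  have hc : Continuous (fun x : ℕ → Bool => ∑ i ∈ range J, (if x i = true then 1 else 0 : ℕ)) := by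
    refine continuous_finsetSum _ fun i _ => ?_
    exact (continuous_of_discreteTopology (f := fun b : Bool => (if b = true then 1 else 0 : ℕ))).comp
      (continuous_apply i)
  have : cnt J M = (fun x : ℕ → Bool => ∑ i ∈ range J, (if x i = true then 1 else 0 : ℕ)) ⁻¹'
      {k | M ≤ k} := by
    ext x
    simp only [cnt, Set.mem_ofPred_eq, Set.mem_preimage, Finset.card_filter]
  rw [this]
  exact (isClopen_discrete _).preimage hc

theorem cnt_anti (J : ℕ) {M M' : ℕ} (h : M ≤ M') : cnt J M' ⊆ cnt J M := fun _ hx => h.trans hx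

/-- **Section K.** -/
theorem kochen (C : ℝ) (hC : 0 < C) (p : ℕ → ℝ) (hp : ∀ i, 0 ≤ p i)
    (hdiv : Tendsto (fun J => ∑ i ∈ range J, p i) atTop atTop)
    (R : ℕ → Set ℕ) (w : ℕ → ℕ → ℝ) (s : ℕ → Finset ℕ)
    (hw : ∀ m n, 0 ≤ w m n) (h1 : ∀ m, ∑ n ∈ s m, w m n ≤ 1)
    (hlo : ∀ i, ∀ᶠ m in atTop, p i ≤ ∑ n ∈ s m, if i ∈ R n then w m n else 0)
    (hup : ∀ i, ∀ᶠ m in atTop, (∑ n ∈ s m, if i ∈ R n then w m n else 0) ≤ C * p i)
    (h2 : ∀ i j, i ≠ j → ∀ᶠ m in atTop,
      (∑ n ∈ s m, if i ∈ R n ∧ j ∈ R n then w m n else 0) ≤ C * p i * p j) :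
    ∃ B : Set ℕ, B.Infinite ∧ ∀ A : Finset ℕ, (A : Set ℕ) ⊆ B → ∃ c : ℝ, 0 < c ∧
      ∃ᶠ m in atTop, c ≤ ∑ n ∈ s m, if (∀ i ∈ A, i ∈ R n) then w m n else 0 := by
  -- the laws and their limit
  let ν : ℕ → ProbabilityMeasure (ℕ → Bool) := fun m =>
    ⟨law R (w m) (s m), law_prob R (w m) (s m) (hw m) (h1 m)⟩
  let 𝒰 : Ultrafilter ℕ := Filter.hyperfilter ℕ
  have h𝒰 : (𝒰 : Filter ℕ) ≤ atTop := Nat.hyperfilter_le_atTop
  obtain ⟨μ, -, hμ⟩ := isCompact_univ.ultrafilter_le_nhds (𝒰.map ν) (by simp)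
  have hlim : Tendsto ν (𝒰 : Filter ℕ) (𝓝 μ) := hμ
  -- clopen sets
  have hclop : ∀ E : Set (ℕ → Bool), IsClopen E →
      Tendsto (fun m => (ν m : Measure (ℕ → Bool)) E) (𝒰 : Filter ℕ)
        (𝓝 ((μ : Measure (ℕ → Bool)) E)) := by
    intro E hE
    refine ProbabilityMeasure.tendsto_measure_of_null_frontier_of_tendsto' hlim ?_
    rw [hE.frontier_eq]
    simp
  have hc0 : (0 : ℝ) < 1 / (8 * C) := by positivity
  -- many elements with positive probability
  have hcnt : ∀ M : ℕ, ∃ J : ℕ, ENNReal.ofReal (1 / (8 * C)) ≤ (μ : Measure (ℕ → Bool)) (cnt J M) := by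
    intro M
    obtain ⟨J, hJ1, hJ2⟩ : ∃ J : ℕ, 1 ≤ ∑ i ∈ range J, p i ∧ 2 * (M : ℝ) ≤ ∑ i ∈ range J, p i :=
      ((hdiv.eventually_ge_atTop 1).and (hdiv.eventually_ge_atTop (2 * (M : ℝ)))).exists
    refine ⟨J, ge_of_tendsto (hclop _ (clopen_cnt J M)) (h𝒰 ?_)⟩
    have e1 : ∀ᶠ m in atTop, ∀ i ∈ range J, p i ≤ ∑ n ∈ s m, if i ∈ R n then w m n else 0 :=
      (Filter.eventually_all_finset _).2 fun i _ => hlo i
    have e2 : ∀ᶠ m in atTop, ∀ i ∈ range J, (∑ n ∈ s m, if i ∈ R n then w m n else 0) ≤ C * p i :=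
      (Filter.eventually_all_finset _).2 fun i _ => hup i
    have e3 : ∀ᶠ m in atTop, ∀ i ∈ range J, ∀ j ∈ range J, i ≠ j →
        (∑ n ∈ s m, if i ∈ R n ∧ j ∈ R n then w m n else 0) ≤ C * p i * p j := by
      refine (Filter.eventually_all_finset _).2 fun i _ => (Filter.eventually_all_finset _).2 fun j _ => ?_
      by_cases hij : i = j
      · exact Filter.Eventually.of_forall fun m h => absurd hij h
      · exact (h2 i j hij).mono fun m hm _ => hm
    filter_upwards [e1, e2, e3] with m m1 m2 m3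
    have key := pz_fin C hC p hp R (w m) (s m) (hw m) (h1 m) J M hJ1 hJ2
      (fun i hi => m1 i (Finset.mem_range.2 hi)) (fun i hi => m2 i (Finset.mem_range.2 hi))
      (fun i hi j hj => m3 i (Finset.mem_range.2 hi) j (Finset.mem_range.2 hj))
    show ENNReal.ofReal (1 / (8 * C)) ≤ law R (w m) (s m) (cnt J M)
    rw [law_apply R (w m) (s m) (hw m) _ (clopen_cnt J M).isOpen.measurableSet]
    refine le_add_right (ENNReal.ofReal_le_ofReal ?_)
    refine key.trans (le_of_eq (Finset.sum_congr rfl fun n _ => ?_))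
    simp [cnt, pat]
  -- infinitely many elements with positive probability
  set U : ℕ → Set (ℕ → Bool) := fun M => ⋃ J, cnt J M with hU
  have hUm : ∀ M, MeasurableSet (U M) := fun M =>
    MeasurableSet.iUnion fun J => (clopen_cnt J M).isOpen.measurableSet
  have hUanti : Antitone U := fun M M' h => Set.iUnion_mono fun J => cnt_anti J h
  have hUlim : ENNReal.ofReal (1 / (8 * C)) ≤ (μ : Measure (ℕ → Bool)) (⋂ M, U M) := by
    have ht := tendsto_measure_iInter_atTop (μ := (μ : Measure (ℕ → Bool)))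
      (fun M => (hUm M).nullMeasurableSet) hUanti ⟨0, measure_ne_top _ _⟩
    refine ge_of_tendsto ht (Filter.Eventually.of_forall fun M => ?_)
    obtain ⟨J, hJ⟩ := hcnt M
    exact hJ.trans (measure_mono (Set.subset_iUnion (fun J => cnt J M) J))
  -- null patterns
  set Z : Set (ℕ → Bool) := ⋃ A : {A : Finset ℕ // (μ : Measure (ℕ → Bool)) (cyl A) = 0}, cyl A.1
    with hZ
  have hZ0 : (μ : Measure (ℕ → Bool)) Z = 0 := measure_iUnion_null fun A => A.2
  obtain ⟨x, hx1, hx2⟩ : ∃ x, x ∈ (⋂ M, U M) ∧ x ∉ Z := by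
    by_contra hcon
    push Not at hcon
    have : (μ : Measure (ℕ → Bool)) (⋂ M, U M) ≤ 0 := by
      rw [← hZ0]
      exact measure_mono fun x hx => hcon x hx
    have h0 := hUlim.trans this
    rw [nonpos_iff_eq_zero, ENNReal.ofReal_eq_zero] at h0
    linarith
  set B : Set ℕ := {i | x i = true} with hB
  have hBinf : B.Infinite := by
    intro hfin
    have hx3 := Set.mem_iInter.1 hx1 (hfin.toFinset.card + 1)
    obtain ⟨J, hJ⟩ := Set.mem_iUnion.1 hx3
    have hJ' : hfin.toFinset.card + 1 ≤ ((range J).filter (fun i => x i = true)).card := hJ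
    have : ((range J).filter (fun i => x i = true)).card ≤ hfin.toFinset.card := by
      refine Finset.card_le_card fun i hi => ?_
      simp only [Finset.mem_filter] at hi
      simpa [hB] using hi.2
    omega
  refine ⟨B, hBinf, fun A hA => ?_⟩
  obtain ⟨i0, hi0⟩ := hBinf.nonempty
  set A' := insert i0 A with hA'
  have hxA' : x ∈ cyl A' := by
    intro i hi
    rcases Finset.mem_insert.1 hi with rfl | hi
    · exact hi0
    · exact hA hi
  have hpos : (μ : Measure (ℕ → Bool)) (cyl A') ≠ 0 := fun h0 =>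
    hx2 (Set.mem_iUnion.2 ⟨⟨A', h0⟩, hxA'⟩)
  have hpos' : 0 < ((μ : Measure (ℕ → Bool)) (cyl A')).toReal :=
    ENNReal.toReal_pos hpos (measure_ne_top _ _)
  refine ⟨((μ : Measure (ℕ → Bool)) (cyl A')).toReal / 2, by positivity, ?_⟩
  have ht := (ENNReal.tendsto_toReal (measure_ne_top _ _)).comp (hclop _ (clopen_cyl A'))
  have hev := ht.eventually (lt_mem_nhds (half_lt_self hpos'))
  refine (hev.frequently.filter_mono h𝒰).mono fun m hm => ?_
  refine hm.le.trans ?_
  show (law R (w m) (s m) (cyl A')).toReal ≤ _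
  rw [law_apply R (w m) (s m) (hw m) _ (clopen_cyl A').isOpen.measurableSet]
  have hnf : (fun _ : ℕ => false) ∉ cyl A' := fun h => by
    have := h i0 (Finset.mem_insert_self _ _)
    simp at this
  rw [if_neg hnf, add_zero, ENNReal.toReal_ofReal
    (Finset.sum_nonneg fun n _ => by split_ifs <;> first | exact hw m n | exact le_rfl)]
  refine Finset.sum_le_sum fun n _ => ?_
  by_cases h : pat R n ∈ cyl A'
  · have h' : ∀ i ∈ A, i ∈ R n := fun i hi => by
      have := h i (Finset.mem_insert_of_mem hi)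
      simpa [pat] using this
    rw [if_pos h, if_pos h']
  · rw [if_neg h]
    split_ifs <;> first | exact hw m n | exact le_rfl

end Pool.Agent.IS
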