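import Pool.Agent.Lib.MP_89da58_nt.SieveF

set_option autoImplicit false
set_option linter.unusedSectionVars false

/-!
Project IS: Maynard-type weights with a different cut-off function for every index.
-/

namespace Pool.Agent.IS

open Pool.Agent.MP89da58

/-- The data of the sieve: primes `p j`, cut-off function `g`, level `R`. -/
structure ND (ι J : Type) [Fintype ι] [DecidableEq ι] [Fintype J] [DecidableEq J] where
  p : J → ℕ
  hp : ∀ j, 2 ≤ p j
  hpK : ∀ j, Fintype.card ι + 2 ≤ p j
  g : ι → ℕ → ℝ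
  hg0 : ∀ l n, 0 ≤ g l n
  hg1 : ∀ l, g l 1 = 1
  hg : ∀ l, ∀ m n : ℕ, 1 ≤ m → m ≤ n → g l n ≤ g l m
  R : ℕ
  hgR : ∀ l, ∀ n : ℕ, g l n ≠ 0 → n * n ≤ R
  hE : ((Fintype.card ι : ℝ) + 2) ^ 2 * ∑ j, (1 / ((p j : ℝ) - 1)) ^ 2 ≤ 1 / 8

variable {ι : Type} [Fintype ι] [DecidableEq ι] {J : Type} [Fintype J] [DecidableEq J]

namespace ND

variable (S : ND ι J)

/-- `1/p`. -/
noncomputable def x (j : J) : ℝ := 1 / (S.p j : ℝ)

/-- `1/(p-1)`. -/
noncomputable def x' (j : J) : ℝ := 1 / ((S.p j : ℝ) - 1)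

theorem p_ge (j : J) : (2 : ℝ) ≤ S.p j := by exact_mod_cast S.hp j

theorem p_geK (j : J) : (Fintype.card ι : ℝ) + 2 ≤ S.p j := by exact_mod_cast S.hpK j

theorem p_one (j : J) : 1 ≤ S.p j := le_trans (by norm_num) (S.hp j)

theorem x_pos (j : J) : 0 < S.x j := by
  unfold x
  have := S.p_ge j
  positivity

theorem x'_pos (j : J) : 0 < S.x' j := by
  unfold x'
  have := S.p_ge j
  apply div_pos one_pos
  linarith

theorem x_le_half (j : J) : S.x j ≤ 1 / 2 := by
  unfold x
  have := S.p_ge j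
  rw [div_le_div_iff₀ (by linarith) (by norm_num)]
  linarith

theorem x_le_x' (j : J) : S.x j ≤ S.x' j := by
  unfold x x'
  have := S.p_ge j
  apply one_div_le_one_div_of_le <;> linarith

theorem card_mul_x (j : J) : (Fintype.card ι : ℝ) * S.x j ≤ 1 := by
  unfold x
  have := S.p_geK j
  have h2 := S.p_ge j
  rw [mul_one_div, div_le_one (by linarith)]
  linarith

theorem card_mul_x' (j : J) : (Fintype.card ι : ℝ) * S.x' j ≤ 1 := by
  unfold x'
  have := S.p_geK j
  have h2 := S.p_ge j
  rw [mul_one_div, div_le_one (by linarith)]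
  linarith

theorem y_eq (j : J) : S.x' j - S.x j = S.x j * S.x' j := by
  unfold x x'
  have := S.p_ge j
  have h1 : (S.p j : ℝ) ≠ 0 := by linarith
  have h2 : (S.p j : ℝ) - 1 ≠ 0 := by linarith
  field_simp
  ring

theorem hE' : ((Fintype.card ι : ℝ) + 2) ^ 2 * ∑ j, S.x' j ^ 2 ≤ 1 / 8 := S.hE

/-- The basic one-dimensional sums. -/
noncomputable def A1 (l : ι) : ℝ := ∑ a : Finset J, pw S.x a * S.g l (nn S.p a)

noncomputable def A2 (l : ι) : ℝ := ∑ a : Finset J, pw S.x a * S.g l (nn S.p a) ^ 2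

noncomputable def B1 (l : ι) : ℝ :=
  ∑ a : Finset J, pw S.x a * S.g l (nn S.p a) ^ 2 * Real.log (nn S.p a)

/-- The nonnegative weight function on assignments. -/
noncomputable def wh (u : J → Option ι) : ℝ :=
  if nn S.p (supp u) ≤ S.R then ∏ l, S.g l (nn S.p (part u l)) else 0

end ND

namespace ND

variable (S : ND ι J)

/-- The sieve weights. -/
noncomputable def lam : (J → Option ι) → ℝ :=
  op (fun j => tm (-S.x j)) (fun u => sgn u * S.wh u)

theorem wh_nonneg (u : J → Option ι) : 0 ≤ S.wh u := by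
  unfold wh
  split_ifs
  · exact Finset.prod_nonneg fun l _ => S.hg0 _ _
  · exact le_refl _

theorem wh_le (u : J → Option ι) : S.wh u ≤ ∏ l, S.g l (nn S.p (part u l)) := by
  unfold wh
  split_ifs
  · exact le_refl _
  · exact Finset.prod_nonneg fun l _ => S.hg0 _ _

theorem g_le_one (l : ι) (n : ℕ) (hn : 1 ≤ n) : S.g l n ≤ 1 := by
  rw [← S.hg1 l]
  exact S.hg l 1 n (le_refl _) hn

theorem wh_le_one (u : J → Option ι) : S.wh u ≤ 1 := by
  refine le_trans (S.wh_le u) ?_
  exact Finset.prod_le_one (fun l _ => S.hg0 _ _) (fun l _ => S.g_le_one _ _ (nn_pos S.p_one _))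

theorem A1_nonneg (l : ι) : 0 ≤ S.A1 l :=
  Finset.sum_nonneg fun a _ => mul_nonneg (pw_nonneg (fun j => (S.x_pos j).le) a) (S.hg0 _ _)

theorem A2_ge_one (l : ι) : 1 ≤ S.A2 l := by
  unfold A2
  have h : pw S.x (∅ : Finset J) * S.g l (nn S.p ∅) ^ 2 = 1 := by
    rw [pw_empty, nn_empty, S.hg1]; norm_num
  rw [← h]
  exact Finset.single_le_sum (f := fun a => pw S.x a * S.g l (nn S.p a) ^ 2)
    (fun a _ => mul_nonneg (pw_nonneg (fun j => (S.x_pos j).le) a) (sq_nonneg _))
    (Finset.mem_univ ∅)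

/-- (I): upper bound for the main quadratic form. -/
theorem bil_lam_le : bil S.x S.lam S.lam ≤ ∏ l, S.A2 l := by
  have h1 := (bil_bounds S.x (fun j => ⟨(S.x_pos j).le, S.card_mul_x j⟩) S.lam).2
  refine le_trans h1 ?_
  unfold lam
  rw [op_tm_neg]
  have h2 : ∀ u : J → Option ι, (sgn u * S.wh u) ^ 2 * ∏ j, wt (S.x j) (u j) ≤
      ∏ l, (pw S.x (part u l) * S.g l (nn S.p (part u l)) ^ 2) := by
    intro u
    rw [mul_pow, sgn_sq, one_mul, prod_wt, pw_supp, Finset.prod_mul_distrib, mul_comm]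
    refine mul_le_mul_of_nonneg_left ?_
      (Finset.prod_nonneg fun l _ => pw_nonneg (fun j => (S.x_pos j).le) _)
    rw [Finset.prod_pow]
    exact pow_le_pow_left₀ (S.wh_nonneg u) (S.wh_le u) 2
  refine le_trans (Finset.sum_le_sum fun u _ => h2 u) ?_
  refine le_trans (sum_prod_part_le (fun l a => pw S.x a * S.g l (nn S.p a) ^ 2)
    (fun _ a => mul_nonneg (pw_nonneg (fun j => (S.x_pos j).le) a) (sq_nonneg _))) ?_
  exact le_refl _

end ND

namespace ND

variable (S : ND ι J)

/-- The weights restricted to assignments without the value `i`. -/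
noncomputable def lami (i : ι) (u : J → Option ι) : ℝ := (∏ j, rho i (u j)) * S.lam u

/-- The operator `M`. -/
noncomputable def MM (i : ι) : (J → Option ι) → ℝ := op (fun j => cp i (S.x j)) S.wh

theorem op_tm_lami (i : ι) (u : J → Option ι) :
    op (fun j => tm (S.x' j)) (S.lami i) u =
      sgn u * op (fun j => iy i (S.x' j - S.x j)) (S.MM i) u := by
  have h1 : S.lami i = op (fun j a b => rho i a * tm (-S.x j) a b)
      (fun u => sgn u * S.wh u) := by
    funext v
    unfold lami lam op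
    rw [Finset.mul_sum]
    refine Finset.sum_congr rfl fun α _ => ?_
    rw [Finset.prod_mul_distrib]
    ring
  rw [h1, op_comp]
  unfold MM
  rw [op_comp]
  unfold op
  rw [Finset.mul_sum]
  refine Finset.sum_congr rfl fun α _ => ?_
  have h2 : (∏ j, ∑ c, tm (S.x' j) (u j) c * (rho i c * tm (-S.x j) c (α j))) * sgn α =
      sgn u * ∏ j, ∑ c, iy i (S.x' j - S.x j) (u j) c * cp i (S.x j) c (α j) := by
    unfold sgn
    rw [← Finset.prod_mul_distrib, ← Finset.prod_mul_distrib]
    exact Finset.prod_congr rfl fun j _ => local_id i (S.x j) (S.x' j) (u j) (α j)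
  rw [← mul_assoc, h2]
  ring

theorem MM_eq (i : ι) (u : J → Option ι) (hu : part u i = ∅) :
    S.MM i u = ∑ a ∈ ((supp u)ᶜ).powerset, pw S.x a * S.wh (ext i u a) :=
  op_cp_eq i S.x S.wh u hu

theorem wh_anti (u v : J → Option ι) (h : ∀ l, part u l ⊆ part v l) : S.wh v ≤ S.wh u := by
  unfold wh
  have hs : nn S.p (supp u) ≤ nn S.p (supp v) := by
    rw [nn_supp, nn_supp]
    exact Finset.prod_le_prod' fun l _ => nn_mono S.p_one (h l)
  by_cases hv : nn S.p (supp v) ≤ S.R
  · rw [if_pos hv, if_pos (le_trans hs hv)]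
    exact Finset.prod_le_prod (fun l _ => S.hg0 _ _)
      (fun l _ => S.hg _ _ _ (nn_pos S.p_one _) (nn_mono S.p_one (h l)))
  · rw [if_neg hv]
    split_ifs
    · exact Finset.prod_nonneg fun l _ => S.hg0 _ _
    · exact le_refl _

theorem MM_nonneg (i : ι) (u : J → Option ι) (hu : part u i = ∅) : 0 ≤ S.MM i u := by
  rw [S.MM_eq i u hu]
  exact Finset.sum_nonneg fun a _ =>
    mul_nonneg (pw_nonneg (fun j => (S.x_pos j).le) a) (S.wh_nonneg _)

theorem MM_anti (i : ι) (u v : J → Option ι) (hu : part u i = ∅) (hv : part v i = ∅)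
    (h : ∀ l, part u l ⊆ part v l) : S.MM i v ≤ S.MM i u := by
  rw [S.MM_eq i u hu, S.MM_eq i v hv]
  have hsupp : supp u ⊆ supp v := by
    rw [supp_eq_biUnion, supp_eq_biUnion]
    exact Finset.biUnion_mono fun l _ => h l
  have h1 : ∑ a ∈ ((supp v)ᶜ).powerset, pw S.x a * S.wh (ext i v a) ≤
      ∑ a ∈ ((supp v)ᶜ).powerset, pw S.x a * S.wh (ext i u a) := by
    refine Finset.sum_le_sum fun a ha => ?_
    rw [Finset.mem_powerset] at ha
    refine mul_le_mul_of_nonneg_left ?_ (pw_nonneg (fun j => (S.x_pos j).le) a)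
    apply S.wh_anti
    intro l
    have ha' : a ⊆ (supp u)ᶜ := ha.trans (Finset.compl_subset_compl.mpr hsupp)
    by_cases hl : l = i
    · rw [hl, part_ext_self i u hu, part_ext_self i v hv]
    · rw [part_ext_ne i l hl u a ha', part_ext_ne i l hl v a ha]
      exact h l
  refine le_trans h1 (Finset.sum_le_sum_of_subset_of_nonneg ?_ ?_)
  · exact Finset.powerset_mono.mpr (Finset.compl_subset_compl.mpr hsupp)
  · intro a _ _
    exact mul_nonneg (pw_nonneg (fun j => (S.x_pos j).le) a) (S.wh_nonneg _)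

end ND

namespace ND

variable (S : ND ι J)

theorem y_nonneg (j : J) : 0 ≤ S.x' j - S.x j := by linarith [S.x_le_x' j]

theorem y_le (j : J) : S.x' j - S.x j ≤ S.x' j ^ 2 := by
  rw [S.y_eq j, sq]
  exact mul_le_mul_of_nonneg_right (S.x_le_x' j) (S.x'_pos j).le

theorem sum_sq_nonneg : 0 ≤ ∑ j, S.x' j ^ 2 := Finset.sum_nonneg fun _ _ => sq_nonneg _

theorem card_sum_le : (Fintype.card ι : ℝ) * ∑ j, S.x' j ^ 2 ≤ 1 / 64 := by
  have h := S.hE'
  have h0 := S.sum_sq_nonneg
  have hK : (0 : ℝ) ≤ Fintype.card ι := Nat.cast_nonneg _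
  nlinarith only [h, h0, mul_nonneg hK h0, sq_nonneg ((Fintype.card ι : ℝ) - 2)]

theorem prod_row_le (i : ι) (u : J → Option ι) :
    ∏ j, ∑ b, |iy i (S.x' j - S.x j) (u j) b| ≤ 5 / 4 := by
  have h1 : ∏ j, ∑ b, |iy i (S.x' j - S.x j) (u j) b| ≤
      ∏ j, (1 + (Fintype.card ι : ℝ) * (S.x' j - S.x j)) := by
    refine Finset.prod_le_prod (fun j _ => Finset.sum_nonneg fun b _ => abs_nonneg _) fun j _ => ?_
    exact sum_abs_iy_le i _ (S.y_nonneg j) (u j)
  have h2 : ∑ j, (Fintype.card ι : ℝ) * (S.x' j - S.x j) ≤ 1 / 64 := by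
    rw [← Finset.mul_sum]
    refine le_trans (mul_le_mul_of_nonneg_left (Finset.sum_le_sum fun j _ => S.y_le j)
      (Nat.cast_nonneg _)) S.card_sum_le
  have h3 := prod_one_add_le Finset.univ (fun j => (Fintype.card ι : ℝ) * (S.x' j - S.x j))
    (fun j => mul_nonneg (Nat.cast_nonneg _) (S.y_nonneg j)) (by linarith only [h2])
  linarith only [h1, h2, h3]

theorem op_iy_ge (i : ι) (u : J → Option ι) (hu : part u i = ∅) :
    3 / 4 * S.MM i u ≤ op (fun j => iy i (S.x' j - S.x j)) (S.MM i) u := by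
  have hui : ∀ j, u j ≠ some i := by
    intro j hj
    have : j ∈ part u i := mem_part.mpr hj
    rw [hu] at this
    exact absurd this (Finset.notMem_empty j)
  have hM := S.MM_nonneg i u hu
  -- each term is bounded below
  have hterm : ∀ β : J → Option ι, β ≠ u →
      -(∏ j, |iy i (S.x' j - S.x j) (u j) (β j)|) * S.MM i u ≤
      (∏ j, iy i (S.x' j - S.x j) (u j) (β j)) * S.MM i β := by
    intro β _
    by_cases hz : ∃ j, iy i (S.x' j - S.x j) (u j) (β j) = 0
    · obtain ⟨j, hj⟩ := hz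
      have e1 : ∏ j, |iy i (S.x' j - S.x j) (u j) (β j)| = 0 :=
        Finset.prod_eq_zero (Finset.mem_univ j) (by rw [hj, abs_zero])
      have e2 : ∏ j, iy i (S.x' j - S.x j) (u j) (β j) = 0 :=
        Finset.prod_eq_zero (Finset.mem_univ j) hj
      rw [e1, e2]
      simp
    · push Not at hz
      have hβi : part β i = ∅ := by
        rw [Finset.eq_empty_iff_forall_notMem]
        intro j hj
        rw [mem_part] at hj
        have h := hz j
        rw [hj] at h
        rcases huj : u j with _ | l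
        · rw [huj] at h; simp [iy] at h
        · rw [huj] at h
          simp only [iy] at h
          by_cases hl : l = i <;> simp [hl] at h
      have hsub : ∀ l, part u l ⊆ part β l := by
        intro l j hj
        rw [mem_part] at hj ⊢
        have h := hz j
        rw [hj] at h
        rcases hbj : β j with _ | l'
        · rw [hbj] at h; simp [iy] at h
        · rw [hbj] at h
          simp only [iy] at h
          by_cases hl : l = l'
          · rw [hl]
          · simp [hl] at h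
      have h1 := S.MM_anti i u β hu hβi hsub
      have h0 := S.MM_nonneg i β hβi
      have h2 : -(∏ j, |iy i (S.x' j - S.x j) (u j) (β j)|) * S.MM i u ≤
          -(∏ j, |iy i (S.x' j - S.x j) (u j) (β j)|) * S.MM i β := by
        have h3 : 0 ≤ ∏ j, |iy i (S.x' j - S.x j) (u j) (β j)| :=
          Finset.prod_nonneg fun j _ => abs_nonneg _
        nlinarith
      refine le_trans h2 ?_
      refine mul_le_mul_of_nonneg_right ?_ h0
      rw [← Finset.abs_prod]
      exact neg_abs_le _
  have hdiag : ∏ j, iy i (S.x' j - S.x j) (u j) (u j) = 1 := by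
    refine Finset.prod_eq_one fun j _ => ?_
    rcases huj : u j with _ | l
    · rfl
    · have : l ≠ i := by
        intro h; rw [h] at huj; exact hui j huj
      simp [iy, this]
  have habs : ∏ j, |iy i (S.x' j - S.x j) (u j) (u j)| = 1 := by
    rw [← Finset.abs_prod, hdiag, abs_one]
  have hrow : ∑ β : J → Option ι, ∏ j, |iy i (S.x' j - S.x j) (u j) (β j)| ≤ 5 / 4 := by
    have := S.prod_row_le i u
    rw [Finset.prod_univ_sum, Fintype.piFinset_univ] at this
    exact this
  unfold op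
  rw [← Finset.add_sum_erase _ _ (Finset.mem_univ u)] at hrow ⊢
  rw [habs] at hrow
  rw [hdiag, one_mul]
  have hsum : ∑ β ∈ Finset.univ.erase u, -(∏ j, |iy i (S.x' j - S.x j) (u j) (β j)|) * S.MM i u ≤
      ∑ β ∈ Finset.univ.erase u, (∏ j, iy i (S.x' j - S.x j) (u j) (β j)) * S.MM i β :=
    Finset.sum_le_sum fun β hβ => hterm β (Finset.ne_of_mem_erase hβ)
  rw [← Finset.sum_mul, Finset.sum_neg_distrib] at hsum
  nlinarith

/-- Lower bound for `M` on small assignments. -/
theorem MM_ge (i : ι) (u : J → Option ι) (hu : part u i = ∅)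
    (hR : nn S.p (supp u) * nn S.p (supp u) ≤ S.R) :
    (∏ l ∈ Finset.univ.erase i, S.g l (nn S.p (part u l))) * S.A1 i ≤
      (∏ j ∈ supp u, (1 + S.x j)) * S.MM i u := by
  rw [S.MM_eq i u hu]
  have h1 := sum_compl_ge (fun j => (S.x_pos j).le) S.p_one (S.g i) (S.hg i) (supp u)
  have hg0 : 0 ≤ ∏ l ∈ Finset.univ.erase i, S.g l (nn S.p (part u l)) :=
    Finset.prod_nonneg fun l _ => S.hg0 _ _
  have h2 : ∀ a ∈ ((supp u)ᶜ).powerset,
      (∏ l ∈ Finset.univ.erase i, S.g l (nn S.p (part u l))) * (pw S.x a * S.g i (nn S.p a)) ≤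
        pw S.x a * S.wh (ext i u a) := by
    intro a ha
    rw [Finset.mem_powerset] at ha
    have hd : Disjoint (supp u) a := disjoint_of_subset_compl ha
    have hpa := pw_nonneg (fun j => (S.x_pos j).le) a
    by_cases hga : S.g i (nn S.p a) = 0
    · rw [hga, mul_zero, mul_zero]
      exact mul_nonneg hpa (S.wh_nonneg _)
    · have hna := S.hgR _ _ hga
      have hle : nn S.p (supp (ext i u a)) ≤ S.R := by
        rw [supp_ext, nn_union hd]
        have h5 : (nn S.p (supp u) * nn S.p a) * (nn S.p (supp u) * nn S.p a) ≤ S.R * S.R := by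
          calc (nn S.p (supp u) * nn S.p a) * (nn S.p (supp u) * nn S.p a)
              = (nn S.p (supp u) * nn S.p (supp u)) * (nn S.p a * nn S.p a) := by ring
            _ ≤ S.R * S.R := Nat.mul_le_mul hR hna
        exact Nat.mul_self_le_mul_self_iff.mp h5
      unfold wh
      rw [if_pos hle]
      rw [← Finset.mul_prod_erase Finset.univ (fun l => S.g l (nn S.p (part (ext i u a) l)))
        (Finset.mem_univ i)]
      rw [part_ext_self i u hu]
      have h6 : ∏ l ∈ Finset.univ.erase i, S.g l (nn S.p (part (ext i u a) l)) =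
          ∏ l ∈ Finset.univ.erase i, S.g l (nn S.p (part u l)) := by
        refine Finset.prod_congr rfl fun l hl => ?_
        rw [part_ext_ne i l (Finset.ne_of_mem_erase hl) u a ha]
      rw [h6]
      apply le_of_eq
      ring
  have h3 : (∏ l ∈ Finset.univ.erase i, S.g l (nn S.p (part u l))) *
      ∑ a ∈ ((supp u)ᶜ).powerset, pw S.x a * S.g i (nn S.p a) ≤
      ∑ a ∈ ((supp u)ᶜ).powerset, pw S.x a * S.wh (ext i u a) := by
    rw [Finset.mul_sum]
    exact Finset.sum_le_sum h2
  calc (∏ l ∈ Finset.univ.erase i, S.g l (nn S.p (part u l))) * S.A1 i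
      ≤ (∏ l ∈ Finset.univ.erase i, S.g l (nn S.p (part u l))) * ((∏ j ∈ supp u, (1 + S.x j)) *
        ∑ a ∈ ((supp u)ᶜ).powerset, pw S.x a * S.g i (nn S.p a)) :=
        mul_le_mul_of_nonneg_left h1 hg0
    _ = (∏ j ∈ supp u, (1 + S.x j)) * ((∏ l ∈ Finset.univ.erase i, S.g l (nn S.p (part u l))) *
        ∑ a ∈ ((supp u)ᶜ).powerset, pw S.x a * S.g i (nn S.p a)) := by ring
    _ ≤ _ := by
        refine mul_le_mul_of_nonneg_left h3 (Finset.prod_nonneg fun j _ => ?_)
        linarith [S.x_pos j]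

end ND

namespace ND

variable (S : ND ι J)

/-- The loss at `j`. -/
noncomputable def eta (j : J) : ℝ := ((Fintype.card ι : ℝ) + 2) * S.x' j

theorem eta_nonneg (j : J) : 0 ≤ S.eta j :=
  mul_nonneg (by positivity) (S.x'_pos j).le

theorem eta_le (j : J) : S.eta j ≤ 1 / 2 := by
  have h := S.hE'
  have h1 : S.x' j ^ 2 ≤ ∑ j, S.x' j ^ 2 :=
    Finset.single_le_sum (f := fun j => S.x' j ^ 2) (fun j _ => sq_nonneg _) (Finset.mem_univ j)
  have h2 : S.eta j ^ 2 ≤ 1 / 8 := by
    unfold eta
    rw [mul_pow]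
    refine le_trans (mul_le_mul_of_nonneg_left h1 (sq_nonneg _)) h
  nlinarith only [h2, S.eta_nonneg j]

/-- The local inequality. -/
theorem local_ge (j : J) : S.x j * (1 - S.eta j) ≤
    S.x' j * (1 - (Fintype.card ι : ℝ) * S.x' j) / (1 + S.x j) ^ 2 := by
  have hx := S.x_pos j
  have hx' := S.x'_pos j
  have hxx := S.x_le_x' j
  have he := S.eta_le j
  have hx2 := S.x_le_half j
  have hK : (0 : ℝ) ≤ Fintype.card ι := Nat.cast_nonneg _
  rw [le_div_iff₀ (by positivity)]
  unfold eta at he ⊢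
  set K : ℝ := ((Fintype.card ι : ℕ) : ℝ) with hKdef
  set x := S.x j
  set x' := S.x' j
  have h1 : (1 - (K + 2) * x') * (1 + x) ^ 2 ≤ 1 - K * x' := by
    have h3 : (K + 2) * x' ≤ 1 / 2 := he
    have h2 : 0 ≤ K * x' := by positivity
    -- (1 - (K+2) x')(1 + 2x + x^2) <= 1 - K x'
    nlinarith only [hxx, hx, hx', h2, mul_nonneg hx.le hx'.le, mul_nonneg h2 hx.le, mul_nonneg (mul_nonneg h2 hx.le) hx.le,
      mul_nonneg (mul_nonneg hx.le hx.le) hx'.le]
  have h4 : 0 ≤ 1 - K * x' := by nlinarith only [hx, hx2, hx', he]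
  calc x * (1 - (K + 2) * x') * (1 + x) ^ 2 = x * ((1 - (K + 2) * x') * (1 + x) ^ 2) := by ring
    _ ≤ x * (1 - K * x') := mul_le_mul_of_nonneg_left h1 hx.le
    _ ≤ x' * (1 - K * x') := mul_le_mul_of_nonneg_right hxx h4

/-- The probability distribution with density `pw x a g(a)^2 / A2`, and the point mass at `i`. -/
noncomputable def PP (i : ι) (l : ι) (a : Finset J) : ℝ :=
  if l = i then (if a = ∅ then 1 else 0) else pw S.x a * S.g l (nn S.p a) ^ 2 / S.A2 l

theorem A2_pos (l : ι) : 0 < S.A2 l := lt_of_lt_of_le one_pos (S.A2_ge_one l)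

theorem PP_nonneg (i l : ι) (a : Finset J) : 0 ≤ S.PP i l a := by
  unfold PP
  split_ifs
  · norm_num
  · norm_num
  · exact div_nonneg (mul_nonneg (pw_nonneg (fun j => (S.x_pos j).le) a) (sq_nonneg _)) (S.A2_pos l).le

theorem PP_sum (i l : ι) : ∑ a, S.PP i l a = 1 := by
  unfold PP
  by_cases h : l = i
  · simp [h]
  · simp only [h, if_false]
    rw [← Finset.sum_div]
    exact div_self (S.A2_pos l).ne'

theorem PP_mem (i l : ι) (j : J) :
    ∑ a, S.PP i l a * (if j ∈ a then 1 else 0) ≤ S.x j := by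
  unfold PP
  by_cases h : l = i
  · simp only [h, if_true]
    rw [Finset.sum_eq_zero]
    · exact (S.x_pos j).le
    · intro a _
      by_cases ha : a = ∅
      · simp [ha]
      · simp [ha]
  · simp only [h, if_false]
    have h1 := sum_mem_le (fun j => (S.x_pos j).le) S.p_one (fun n => S.g l n ^ 2)
      (fun n => sq_nonneg _) (fun m n hm hmn => pow_le_pow_left₀ (S.hg0 l n) (S.hg l m n hm hmn) 2) j
    have h2 : ∑ a : Finset J, pw S.x a * S.g l (nn S.p a) ^ 2 / S.A2 l * (if j ∈ a then 1 else 0) =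
        (∑ a ∈ (Finset.univ : Finset (Finset J)).filter (fun a => j ∈ a),
          pw S.x a * S.g l (nn S.p a) ^ 2) / S.A2 l := by
      rw [Finset.sum_filter, Finset.sum_div]
      refine Finset.sum_congr rfl fun a _ => ?_
      split_ifs <;> simp
    rw [h2, div_le_iff₀ (S.A2_pos l)]
    exact h1

theorem PP_log (i l : ι) :
    ∑ a, S.PP i l a * Real.log (nn S.p a) ≤ S.B1 l / S.A2 l := by
  have hB : 0 ≤ S.B1 l := by
    unfold B1
    refine Finset.sum_nonneg fun a _ => mul_nonneg (mul_nonneg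
      (pw_nonneg (fun j => (S.x_pos j).le) a) (sq_nonneg _)) ?_
    exact Real.log_nonneg (by exact_mod_cast nn_pos S.p_one a)
  unfold PP
  by_cases h : l = i
  · simp only [h, if_true]
    rw [Finset.sum_eq_zero]
    · subst h
      exact div_nonneg hB (S.A2_pos _).le
    · intro a _
      by_cases ha : a = ∅
      · simp [ha, nn_empty]
      · simp [ha]
  · simp only [h, if_false]
    unfold B1
    rw [Finset.sum_div]
    refine le_of_eq (Finset.sum_congr rfl fun a _ => ?_)
    ring

/-- The total loss of a family. -/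
noncomputable def bad (c : ι → Finset J) : ℝ :=
  (∑ l, ∑ l', if l ≠ l' then ∑ j, (if j ∈ c l then (1:ℝ) else 0) * (if j ∈ c l' then 1 else 0)
    else 0) + 2 / Real.log S.R * ∑ l, Real.log (nn S.p (c l)) +
    ∑ l, ∑ j, S.eta j * (if j ∈ c l then 1 else 0)

theorem E_bad (i : ι) (hR : 1 < Real.log S.R)
    (hM : 16 * ∑ l, S.B1 l / S.A2 l ≤ Real.log S.R) :
    ∑ c : ι → Finset J, (∏ l, S.PP i l (c l)) * S.bad c ≤ 1 / 2 := by
  set K : ℝ := ((Fintype.card ι : ℕ) : ℝ) with hK
  have hK0 : 0 ≤ K := Nat.cast_nonneg _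
  have hsq : ∑ j, S.x j ^ 2 ≤ ∑ j, S.x' j ^ 2 :=
    Finset.sum_le_sum fun j _ => pow_le_pow_left₀ (S.x_pos j).le (S.x_le_x' j) 2
  have hsq0 : 0 ≤ ∑ j, S.x j ^ 2 := Finset.sum_nonneg fun j _ => sq_nonneg _
  have hE := S.hE'
  rw [← hK] at hE
  have t1 : ∑ c : ι → Finset J, (∏ l, S.PP i l (c l)) *
      (∑ l, ∑ l', if l ≠ l' then ∑ j, (if j ∈ c l then (1:ℝ) else 0) *
        (if j ∈ c l' then 1 else 0) else 0) ≤ K ^ 2 * ∑ j, S.x j ^ 2 := by
    simp_rw [Finset.mul_sum]
    rw [Finset.sum_comm]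
    have h1 : ∀ l : ι, ∑ c : ι → Finset J, ∑ l', (∏ l, S.PP i l (c l)) *
        (if l ≠ l' then ∑ j, (if j ∈ c l then (1:ℝ) else 0) * (if j ∈ c l' then 1 else 0) else 0) ≤
        K * ∑ j, S.x j ^ 2 := by
      intro l
      rw [Finset.sum_comm]
      have h2 : ∀ l' : ι, ∑ c : ι → Finset J, (∏ l, S.PP i l (c l)) *
          (if l ≠ l' then ∑ j, (if j ∈ c l then (1:ℝ) else 0) * (if j ∈ c l' then 1 else 0)
            else 0) ≤ ∑ j, S.x j ^ 2 := by
        intro l'
        by_cases hll : l ≠ l'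
        · simp only [hll, ne_eq, not_false_eq_true, if_true]
          simp_rw [Finset.mul_sum]
          rw [Finset.sum_comm]
          refine Finset.sum_le_sum fun j _ => ?_
          rw [E_pair (S.PP i) (S.PP_sum i) l l' hll (fun a => if j ∈ a then (1:ℝ) else 0)
            (fun a => if j ∈ a then (1:ℝ) else 0)]
          rw [sq]
          refine mul_le_mul (S.PP_mem i l j) (S.PP_mem i l' j) ?_ (S.x_pos j).le
          refine Finset.sum_nonneg fun a _ => mul_nonneg (S.PP_nonneg i l' a) ?_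
          split_ifs <;> norm_num
        · simp only [hll, if_false, mul_zero, Finset.sum_const_zero]
          exact hsq0
      refine le_trans (Finset.sum_le_sum fun l' _ => h2 l') ?_
      rw [Finset.sum_const, Finset.card_univ, nsmul_eq_mul]
    refine le_trans (Finset.sum_le_sum fun l _ => h1 l) ?_
    rw [Finset.sum_const, Finset.card_univ, nsmul_eq_mul, ← hK, ← Finset.mul_sum]
    apply le_of_eq
    ring
  have t2 : ∑ c : ι → Finset J, (∏ l, S.PP i l (c l)) *
      (2 / Real.log S.R * ∑ l, Real.log (nn S.p (c l))) ≤ 1 / 8 := by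
    have h1 : ∑ c : ι → Finset J, (∏ l, S.PP i l (c l)) *
      (2 / Real.log S.R * ∑ l, Real.log (nn S.p (c l))) =
      2 / Real.log S.R * ∑ l, ∑ c : ι → Finset J, (∏ l, S.PP i l (c l)) *
        Real.log (nn S.p (c l)) := by
      rw [Finset.sum_comm, Finset.mul_sum]
      refine Finset.sum_congr rfl fun c _ => ?_
      rw [← Finset.mul_sum]
      ring
    rw [h1]
    have h2 : ∑ l, ∑ c : ι → Finset J, (∏ l, S.PP i l (c l)) * Real.log (nn S.p (c l)) ≤
        ∑ l, S.B1 l / S.A2 l := by
      have h3 : ∀ l : ι, ∑ c : ι → Finset J, (∏ l, S.PP i l (c l)) * Real.log (nn S.p (c l)) ≤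
          S.B1 l / S.A2 l := by
        intro l
        rw [E_single (S.PP i) (S.PP_sum i) l (fun a => Real.log (nn S.p a))]
        exact S.PP_log i l
      exact Finset.sum_le_sum fun l _ => h3 l
    have hlog : 0 < Real.log S.R := by linarith only [hR]
    refine le_trans (mul_le_mul_of_nonneg_left h2 (by positivity)) ?_
    rw [div_mul_eq_mul_div, div_le_iff₀ hlog]
    linarith only [hM]
  have t3 : ∑ c : ι → Finset J, (∏ l, S.PP i l (c l)) *
      (∑ l, ∑ j, S.eta j * (if j ∈ c l then 1 else 0)) ≤ 1 / 8 := by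
    have h1 : ∑ c : ι → Finset J, (∏ l, S.PP i l (c l)) *
        (∑ l, ∑ j, S.eta j * (if j ∈ c l then 1 else 0)) =
        ∑ l, ∑ j, S.eta j * ∑ c : ι → Finset J, (∏ l, S.PP i l (c l)) *
          (if j ∈ c l then 1 else 0) := by
      simp_rw [Finset.mul_sum]
      rw [Finset.sum_comm]
      refine Finset.sum_congr rfl fun l _ => ?_
      rw [Finset.sum_comm]
      refine Finset.sum_congr rfl fun j _ => ?_
      refine Finset.sum_congr rfl fun c _ => ?_
      ring
    rw [h1]
    have h2 : ∀ l : ι, ∑ j, S.eta j * ∑ c : ι → Finset J, (∏ l, S.PP i l (c l)) *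
          (if j ∈ c l then 1 else 0) ≤ (K + 2) * ∑ j, S.x' j ^ 2 := by
      intro l
      rw [Finset.mul_sum]
      refine Finset.sum_le_sum fun j _ => ?_
      rw [E_single (S.PP i) (S.PP_sum i) l (fun a => if j ∈ a then (1:ℝ) else 0)]
      refine le_trans (mul_le_mul_of_nonneg_left
        (le_trans (S.PP_mem i l j) (S.x_le_x' j)) (S.eta_nonneg j)) ?_
      unfold eta
      rw [← hK]
      apply le_of_eq
      ring
    refine le_trans (Finset.sum_le_sum fun l _ => h2 l) ?_
    rw [Finset.sum_const, Finset.card_univ, nsmul_eq_mul, ← hK]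
    have h0 := S.sum_sq_nonneg
    nlinarith only [hsq, hsq0, hE, hK0, h0, mul_nonneg hK0 h0]
  unfold bad
  simp_rw [mul_add]
  rw [Finset.sum_add_distrib, Finset.sum_add_distrib]
  have h4 : K ^ 2 * ∑ j, S.x j ^ 2 ≤ 1 / 8 := by
    have h0 := S.sum_sq_nonneg
    nlinarith only [hsq, hsq0, hE, hK0, h0, mul_nonneg hK0 h0, mul_nonneg (mul_nonneg hK0 hK0) h0,
      mul_le_mul_of_nonneg_left hsq (sq_nonneg K)]
  linarith only [t1, t2, t3, h4]

/-- Lower bound for the sum over small assignments without the value `i`. -/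
theorem sum_small_ge (i : ι) (hR : 1 < Real.log S.R)
    (hM : 16 * ∑ l, S.B1 l / S.A2 l ≤ Real.log S.R) :
    (∏ l ∈ Finset.univ.erase i, S.A2 l) / 2 ≤
      ∑ u ∈ (Finset.univ : Finset (J → Option ι)).filter
        (fun u => part u i = ∅ ∧ nn S.p (supp u) * nn S.p (supp u) ≤ S.R),
        (∏ l ∈ Finset.univ.erase i, S.g l (nn S.p (part u l)) ^ 2) *
          ∏ j ∈ supp u, (S.x j * (1 - S.eta j)) := by
  classical
  -- rewrite as a sum over families
  have h1 : ∑ u ∈ (Finset.univ : Finset (J → Option ι)).filter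
        (fun u => part u i = ∅ ∧ nn S.p (supp u) * nn S.p (supp u) ≤ S.R),
        (∏ l ∈ Finset.univ.erase i, S.g l (nn S.p (part u l)) ^ 2) *
          ∏ j ∈ supp u, (S.x j * (1 - S.eta j)) =
      ∑ c ∈ (Finset.univ : Finset (ι → Finset J)).filter
        (fun c => ∀ l l', l ≠ l' → Disjoint (c l) (c l')),
        if c i = ∅ ∧ (∏ l, nn S.p (c l)) * (∏ l, nn S.p (c l)) ≤ S.R then
          (∏ l ∈ Finset.univ.erase i, S.g l (nn S.p (c l)) ^ 2) *
          ∏ l, ∏ j ∈ c l, (S.x j * (1 - S.eta j)) else 0 := by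
    rw [← sum_part, Finset.sum_filter]
    refine Finset.sum_congr rfl fun u _ => ?_
    rw [nn_supp, prod_supp_eq]
  rw [h1]
  have h2 : ∑ c : ι → Finset J, (∏ l ∈ Finset.univ.erase i, S.A2 l) *
      ((∏ l, S.PP i l (c l)) * (1 - S.bad c)) ≤
      ∑ c ∈ (Finset.univ : Finset (ι → Finset J)).filter
        (fun c => ∀ l l', l ≠ l' → Disjoint (c l) (c l')),
        if c i = ∅ ∧ (∏ l, nn S.p (c l)) * (∏ l, nn S.p (c l)) ≤ S.R then
          (∏ l ∈ Finset.univ.erase i, S.g l (nn S.p (c l)) ^ 2) *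
          ∏ l, ∏ j ∈ c l, (S.x j * (1 - S.eta j)) else 0 := by
    rw [Finset.sum_filter]
    refine Finset.sum_le_sum fun c _ => ?_
    have hA : 0 < ∏ l ∈ Finset.univ.erase i, S.A2 l := Finset.prod_pos fun l _ => S.A2_pos l
    -- nonnegativity of the pieces of bad
    have b1 : ∀ l l' : ι, 0 ≤ (if l ≠ l' then ∑ j, (if j ∈ c l then (1:ℝ) else 0) *
        (if j ∈ c l' then 1 else 0) else 0) := by
      intro l l'
      split_ifs
      · exact Finset.sum_nonneg fun j _ => by split_ifs <;> norm_num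
      · exact le_refl _
    have b1' : 0 ≤ ∑ l, ∑ l', (if l ≠ l' then ∑ j, (if j ∈ c l then (1:ℝ) else 0) *
        (if j ∈ c l' then 1 else 0) else 0) :=
      Finset.sum_nonneg fun l _ => Finset.sum_nonneg fun l' _ => b1 l l'
    have b2l : ∀ l, 0 ≤ Real.log (nn S.p (c l)) := fun l =>
      Real.log_nonneg (by exact_mod_cast nn_pos S.p_one _)
    have b2 : 0 ≤ 2 / Real.log S.R * ∑ l, Real.log (nn S.p (c l)) :=
      mul_nonneg (by positivity) (Finset.sum_nonneg fun l _ => b2l l)
    have b3 : 0 ≤ ∑ l, ∑ j, S.eta j * (if j ∈ c l then (1:ℝ) else 0) :=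
      Finset.sum_nonneg fun l _ => Finset.sum_nonneg fun j _ =>
        mul_nonneg (S.eta_nonneg j) (by split_ifs <;> norm_num)
    have hP0 : 0 ≤ ∏ l, S.PP i l (c l) := Finset.prod_nonneg fun l _ => S.PP_nonneg i l _
    have hrhs : 0 ≤ (∏ l ∈ Finset.univ.erase i, S.g l (nn S.p (c l)) ^ 2) *
          ∏ l, ∏ j ∈ c l, (S.x j * (1 - S.eta j)) := by
      refine mul_nonneg (Finset.prod_nonneg fun l _ => sq_nonneg _)
        (Finset.prod_nonneg fun l _ => Finset.prod_nonneg fun j _ => mul_nonneg (S.x_pos j).le ?_)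
      linarith only [S.eta_le j]
    by_cases hci : c i = ∅
    · by_cases hdis : ∀ l l', l ≠ l' → Disjoint (c l) (c l')
      · by_cases hsm : (∏ l, nn S.p (c l)) * (∏ l, nn S.p (c l)) ≤ S.R
        · rw [if_pos hdis, if_pos ⟨hci, hsm⟩]
          have e1 : (∏ l ∈ Finset.univ.erase i, S.A2 l) * ∏ l, S.PP i l (c l) =
              (∏ l ∈ Finset.univ.erase i, S.g l (nn S.p (c l)) ^ 2) * ∏ l, pw S.x (c l) := by
            rw [← Finset.mul_prod_erase Finset.univ (fun l => S.PP i l (c l)) (Finset.mem_univ i),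
              ← Finset.mul_prod_erase Finset.univ (fun l => pw S.x (c l)) (Finset.mem_univ i)]
            have e2 : S.PP i i (c i) = 1 := by
              unfold PP; simp [hci]
            have e3 : pw S.x (c i) = 1 := by rw [hci, pw_empty]
            have e4 : ∏ l ∈ Finset.univ.erase i, S.PP i l (c l) =
                (∏ l ∈ Finset.univ.erase i, (pw S.x (c l) * S.g l (nn S.p (c l)) ^ 2)) /
                  (∏ l ∈ Finset.univ.erase i, S.A2 l) := by
              have e5 : ∀ l ∈ Finset.univ.erase i, S.PP i l (c l) =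
                  pw S.x (c l) * S.g l (nn S.p (c l)) ^ 2 / S.A2 l := by
                intro l hl
                unfold PP
                rw [if_neg (Finset.ne_of_mem_erase hl)]
              rw [Finset.prod_congr rfl e5, Finset.prod_div_distrib]
            rw [e2, e3, e4, Finset.prod_mul_distrib]
            field_simp
          have e6 : 1 - S.bad c ≤ ∏ l, ∏ j ∈ c l, (1 - S.eta j) := by
            have e7 := one_sub_sum_le_prod
              ((Finset.univ : Finset ι).sigma (fun l => c l))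
              (fun k : (Σ _ : ι, J) => S.eta k.2)
              (fun k _ => S.eta_nonneg k.2) (fun k _ => by linarith [S.eta_le k.2])
            rw [Finset.prod_sigma, Finset.sum_sigma] at e7
            refine le_trans ?_ e7
            have e8 : ∑ l, ∑ j ∈ c l, S.eta j =
                ∑ l, ∑ j, S.eta j * (if j ∈ c l then (1:ℝ) else 0) := by
              refine Finset.sum_congr rfl fun l _ => ?_
              simp
            have e9 : ∑ l, ∑ j ∈ c l, S.eta j ≤ S.bad c := by
              rw [e8]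
              unfold bad
              linarith
            linarith
          have e10 : ∏ l, ∏ j ∈ c l, (S.x j * (1 - S.eta j)) =
              (∏ l, pw S.x (c l)) * ∏ l, ∏ j ∈ c l, (1 - S.eta j) := by
            rw [← Finset.prod_mul_distrib]
            refine Finset.prod_congr rfl fun l _ => ?_
            rw [Finset.prod_mul_distrib]
            rfl
          rw [e10, ← mul_assoc, ← mul_assoc, e1]
          refine mul_le_mul_of_nonneg_left e6 ?_
          rw [← e1]
          exact mul_nonneg (by positivity) hP0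
        · rw [if_pos hdis, if_neg (fun h => hsm h.2)]
          have hbad : 1 ≤ S.bad c := by
            unfold bad
            have hlogR : 0 < Real.log S.R := by linarith
            have e1 : Real.log S.R ≤ 2 * ∑ l, Real.log (nn S.p (c l)) := by
              rw [← Real.log_prod (fun l _ => by
                have := nn_pos S.p_one (c l); positivity)]
              rw [← Nat.cast_prod]
              push Not at hsm
              have e2 : (0 : ℝ) < ((∏ l, nn S.p (c l) : ℕ) : ℝ) := by
                have : 0 < ∏ l, nn S.p (c l) := Finset.prod_pos fun l _ => nn_pos S.p_one _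
                exact_mod_cast this
              rw [two_mul, ← Real.log_mul e2.ne' e2.ne']
              apply Real.log_le_log
              · by_contra hh
                push Not at hh
                have : (S.R : ℝ) = 0 := le_antisymm hh (Nat.cast_nonneg _)
                rw [this, Real.log_zero] at hR
                linarith
              · exact_mod_cast hsm.le
            have e3 : 1 ≤ 2 / Real.log S.R * ∑ l, Real.log (nn S.p (c l)) := by
              rw [div_mul_eq_mul_div, le_div_iff₀ hlogR, one_mul]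
              exact e1
            linarith
          have : (∏ l, S.PP i l (c l)) * (1 - S.bad c) ≤ 0 :=
            mul_nonpos_of_nonneg_of_nonpos hP0 (by linarith)
          exact mul_nonpos_of_nonneg_of_nonpos (by positivity) this
      · rw [if_neg hdis]
        push Not at hdis
        obtain ⟨l, l', hll, hnd⟩ := hdis
        rw [Finset.not_disjoint_iff] at hnd
        obtain ⟨j, hj, hj'⟩ := hnd
        have hbad : 1 ≤ S.bad c := by
          unfold bad
          have e1 : 1 ≤ ∑ l, ∑ l', (if l ≠ l' then ∑ j, (if j ∈ c l then (1:ℝ) else 0) *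
              (if j ∈ c l' then 1 else 0) else 0) := by
            have e2 : (1:ℝ) ≤ (if l ≠ l' then ∑ j, (if j ∈ c l then (1:ℝ) else 0) *
              (if j ∈ c l' then 1 else 0) else 0) := by
              rw [if_pos hll]
              refine le_trans ?_ (Finset.single_le_sum (f := fun j => (if j ∈ c l then (1:ℝ) else 0) *
                (if j ∈ c l' then 1 else 0)) (fun j _ => by split_ifs <;> norm_num)
                (Finset.mem_univ j))
              simp [hj, hj']
            refine le_trans e2 ?_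
            refine le_trans (Finset.single_le_sum (f := fun l' => if l ≠ l' then
              ∑ j, (if j ∈ c l then (1:ℝ) else 0) * (if j ∈ c l' then 1 else 0) else 0)
              (fun l' _ => b1 l l') (Finset.mem_univ l')) ?_
            exact Finset.single_le_sum (f := fun l => ∑ l', if l ≠ l' then
              ∑ j, (if j ∈ c l then (1:ℝ) else 0) * (if j ∈ c l' then 1 else 0) else 0)
              (fun l _ => Finset.sum_nonneg fun l' _ => b1 l l') (Finset.mem_univ l)
          linarith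
        have : (∏ l, S.PP i l (c l)) * (1 - S.bad c) ≤ 0 :=
          mul_nonpos_of_nonneg_of_nonpos hP0 (by linarith)
        exact mul_nonpos_of_nonneg_of_nonpos (by positivity) this
    · have hP : ∏ l, S.PP i l (c l) = 0 := by
        refine Finset.prod_eq_zero (Finset.mem_univ i) ?_
        unfold PP
        simp [hci]
      rw [hP, zero_mul, mul_zero]
      split_ifs with h3 h4
      · exact absurd h4.1 hci
      · exact le_refl _
      · exact le_refl _
  refine le_trans ?_ h2
  rw [← Finset.mul_sum]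
  have h3 : ∑ c : ι → Finset J, (∏ l, S.PP i l (c l)) * (1 - S.bad c) =
      1 - ∑ c : ι → Finset J, (∏ l, S.PP i l (c l)) * S.bad c := by
    simp_rw [mul_sub, mul_one]
    rw [Finset.sum_sub_distrib, E_one (S.PP i) (S.PP_sum i)]
  rw [h3]
  have h4 := S.E_bad i hR hM
  have h5 : 0 < (∏ l ∈ Finset.univ.erase i, S.A2 l) := Finset.prod_pos fun l _ => S.A2_pos l
  nlinarith only [h4, h5]

/-- (II): lower bound for the quadratic form of the prime variable. -/
theorem bil_lami_ge (i : ι) (hR : 1 < Real.log S.R)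
    (hM : 16 * ∑ l, S.B1 l / S.A2 l ≤ Real.log S.R) :
    S.A1 i ^ 2 * (∏ l ∈ Finset.univ.erase i, S.A2 l) / 4 ≤ bil S.x' (S.lami i) (S.lami i) := by
  have h1 := (bil_bounds S.x' (fun j => ⟨(S.x'_pos j).le, S.card_mul_x' j⟩) (S.lami i)).1
  refine le_trans ?_ h1
  have hwt0 : ∀ u : J → Option ι, 0 ≤ ∏ j, wt (S.x' j * (1 - (Fintype.card ι : ℝ) * S.x' j))
      (u j) := by
    intro u
    refine Finset.prod_nonneg fun j _ => ?_
    rcases u j with _ | l
    · simp [wt]
    · simp only [wt]
      exact mul_nonneg (S.x'_pos j).le (by linarith [S.card_mul_x' j])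
  have h2 : ∑ u ∈ (Finset.univ : Finset (J → Option ι)).filter
        (fun u => part u i = ∅ ∧ nn S.p (supp u) * nn S.p (supp u) ≤ S.R),
      (op (fun j => tm (S.x' j)) (S.lami i) u) ^ 2 *
        ∏ j, wt (S.x' j * (1 - (Fintype.card ι : ℝ) * S.x' j)) (u j) ≤
      ∑ u : J → Option ι, (op (fun j => tm (S.x' j)) (S.lami i) u) ^ 2 *
        ∏ j, wt (S.x' j * (1 - (Fintype.card ι : ℝ) * S.x' j)) (u j) :=
    Finset.sum_le_sum_of_subset_of_nonneg (Finset.filter_subset _ _)
      fun u _ _ => mul_nonneg (sq_nonneg _) (hwt0 u)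
  refine le_trans ?_ h2
  have h3 : ∀ u ∈ (Finset.univ : Finset (J → Option ι)).filter
        (fun u => part u i = ∅ ∧ nn S.p (supp u) * nn S.p (supp u) ≤ S.R),
      9 / 16 * S.A1 i ^ 2 * ((∏ l ∈ Finset.univ.erase i, S.g l (nn S.p (part u l)) ^ 2) *
          ∏ j ∈ supp u, (S.x j * (1 - S.eta j))) ≤
      (op (fun j => tm (S.x' j)) (S.lami i) u) ^ 2 *
        ∏ j, wt (S.x' j * (1 - (Fintype.card ι : ℝ) * S.x' j)) (u j) := by
    intro u hu
    rw [Finset.mem_filter] at hu
    obtain ⟨_, hui, hus⟩ := hu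
    rw [S.op_tm_lami i u, mul_pow, sgn_sq, one_mul, prod_wt]
    have e1 := S.op_iy_ge i u hui
    have e2 := S.MM_ge i u hui hus
    have e3 := S.MM_nonneg i u hui
    have hprod : 0 < ∏ j ∈ supp u, (1 + S.x j) :=
      Finset.prod_pos fun j _ => by linarith [S.x_pos j]
    set P1 := ∏ j ∈ supp u, (1 + S.x j) with hP1
    set Gp := ∏ l ∈ Finset.univ.erase i, S.g l (nn S.p (part u l)) with hGp
    have hG0 : 0 ≤ Gp := Finset.prod_nonneg fun l _ => S.hg0 _ _
    have e4 : (3 / 4 * (Gp * S.A1 i / P1)) ^ 2 ≤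
        (op (fun j => iy i (S.x' j - S.x j)) (S.MM i) u) ^ 2 := by
      refine pow_le_pow_left₀ ?_ ?_ 2
      · exact mul_nonneg (by norm_num) (div_nonneg (mul_nonneg hG0 (S.A1_nonneg i)) hprod.le)
      · refine le_trans ?_ e1
        refine mul_le_mul_of_nonneg_left ?_ (by norm_num)
        rw [div_le_iff₀ hprod]
        linarith [mul_comm P1 (S.MM i u)]
    have e5 : ∏ j ∈ supp u, (S.x j * (1 - S.eta j)) ≤
        ∏ j ∈ supp u, (S.x' j * (1 - (Fintype.card ι : ℝ) * S.x' j) / (1 + S.x j) ^ 2) :=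
      Finset.prod_le_prod (fun j _ => mul_nonneg (S.x_pos j).le (by linarith only [S.eta_le j]))
        fun j _ => S.local_ge j
    rw [Finset.prod_div_distrib, Finset.prod_pow] at e5
    have hpw : 0 ≤ pw (fun j => S.x' j * (1 - (Fintype.card ι : ℝ) * S.x' j)) (supp u) :=
      pw_nonneg (fun j => mul_nonneg (S.x'_pos j).le (by linarith only [S.card_mul_x' j])) _
    have e6 : (∏ l ∈ Finset.univ.erase i, S.g l (nn S.p (part u l)) ^ 2) = Gp ^ 2 := by
      rw [hGp, Finset.prod_pow]
    rw [e6]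
    calc 9 / 16 * S.A1 i ^ 2 * (Gp ^ 2 * ∏ j ∈ supp u, (S.x j * (1 - S.eta j)))
        ≤ 9 / 16 * S.A1 i ^ 2 * (Gp ^ 2 *
          ((∏ j ∈ supp u, (S.x' j * (1 - (Fintype.card ι : ℝ) * S.x' j))) / P1 ^ 2)) := by
          refine mul_le_mul_of_nonneg_left ?_ (by (clear * -; positivity))
          exact mul_le_mul_of_nonneg_left e5 (sq_nonneg _)
      _ = (3 / 4 * (Gp * S.A1 i / P1)) ^ 2 *
          pw (fun j => S.x' j * (1 - (Fintype.card ι : ℝ) * S.x' j)) (supp u) := by
          unfold pw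
          generalize (∏ j ∈ supp u, (S.x' j * (1 - (Fintype.card ι : ℝ) * S.x' j))) = Q
          field_simp
          ring
      _ ≤ _ := mul_le_mul_of_nonneg_right e4 hpw
  refine le_trans ?_ (Finset.sum_le_sum h3)
  rw [← Finset.mul_sum]
  have h4 := S.sum_small_ge i hR hM
  have h5 : 0 < (∏ l ∈ Finset.univ.erase i, S.A2 l) := Finset.prod_pos fun l _ => S.A2_pos l
  have h6 : 9 / 16 * S.A1 i ^ 2 * ((∏ l ∈ Finset.univ.erase i, S.A2 l) / 2) ≤ 9 / 16 * S.A1 i ^ 2 *
      ∑ u ∈ (Finset.univ : Finset (J → Option ι)).filter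
        (fun u => part u i = ∅ ∧ nn S.p (supp u) * nn S.p (supp u) ≤ S.R),
        (∏ l ∈ Finset.univ.erase i, S.g l (nn S.p (part u l)) ^ 2) *
          ∏ j ∈ supp u, (S.x j * (1 - S.eta j)) :=
    mul_le_mul_of_nonneg_left h4 (by positivity)
  refine le_trans ?_ h6
  nlinarith only [h5, mul_nonneg (sq_nonneg (S.A1 i)) h5.le]

end ND

end Pool.Agent.IS
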