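import Pool.Agent.Lib.MP_bca3e5_nt.IS.N1

set_option autoImplicit false
set_option linter.unusedSectionVars false

/-!
Project IS: majorant weights for a pair of variables `i`, `k`, with two cut-offs `T`, `T'`.
-/

namespace Pool.Agent.IS

open Pool.Agent.MP89da58

variable {ι : Type} [Fintype ι] [DecidableEq ι] {J : Type} [Fintype J] [DecidableEq J]

namespace ND

variable (S : ND ι J)

noncomputable def G0 (T : ℕ) : ℝ := ∑ a : Finset J, pw S.x a * tau T (nn S.p a)

/-- `Y`. -/
noncomputable def YY (i k : ι) : (J → Option ι) → ℝ := op (fun j => ep i k (S.x j)) S.wh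

/-- The cut-off in the two variables. -/
noncomputable def tauh (i k : ι) (T T' : ℕ) (u : J → Option ι) : ℝ :=
  tau T (nn S.p (part u i)) * tau T' (nn S.p (part u k))

/-- `G`. -/
noncomputable def GG (i k : ι) (T T' : ℕ) : (J → Option ι) → ℝ :=
  op (fun j => ep i k (S.x j)) (S.tauh i k T T')

/-- The new weight function. -/
noncomputable def wt2 (i k : ι) (T T' : ℕ) (u : J → Option ι) : ℝ :=
  S.YY i k (core i k u) * S.tauh i k T T' u / S.GG i k T T' (core i k u)

/-- The majorant weights. -/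
noncomputable def lamt (i k : ι) (T T' : ℕ) : (J → Option ι) → ℝ :=
  op (fun j => tm (-S.x j)) (fun u => sgn u * S.wt2 i k T T' u)

theorem op_neg_eq (i k : ι) (F : (J → Option ι) → ℝ) (α : J → Option ι)
    (hα : part α i = ∅ ∧ part α k = ∅) :
    op (fun j => tm (-S.x j)) (fun u => sgn u * F u) α =
      op (fun j => tik i k (-S.x j)) (fun v => sgn v * op (fun j => ep i k (S.x j)) F v) α := by
  have h1 : (fun v => sgn v * op (fun j => ep i k (S.x j)) F v) =
      op (fun j => ep i k (-S.x j)) (fun u => sgn u * F u) := by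
    funext v
    unfold op sgn
    rw [Finset.mul_sum]
    refine Finset.sum_congr rfl fun u _ => ?_
    rw [← mul_assoc, ← mul_assoc, ← Finset.prod_mul_distrib, ← Finset.prod_mul_distrib]
    congr 1
    refine Finset.prod_congr rfl fun j _ => ?_
    rw [ep_sg]
  rw [h1, op_comp]
  unfold op
  refine Finset.sum_congr rfl fun u _ => ?_
  congr 1
  refine Finset.prod_congr rfl fun j _ => ?_
  change tm (-S.x j) (α j) (u j) =
    ∑ c, tik i k (-S.x j) (α j) c * ep i k (-S.x j) c (u j)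
  rw [tik_ep]
  have h2 : rho2 i k (α j) = 1 := by
    unfold rho2
    rw [if_neg]
    rintro (h | h)
    · have : j ∈ part α i := mem_part.mpr h
      rw [hα.1] at this
      exact absurd this (Finset.notMem_empty j)
    · have : j ∈ part α k := mem_part.mpr h
      rw [hα.2] at this
      exact absurd this (Finset.notMem_empty j)
  rw [h2, one_mul]

theorem sum_sq_x_le : ∑ j, S.x j ^ 2 ≤ 1 / 32 := by
  have h1 : ∑ j, S.x j ^ 2 ≤ ∑ j, S.x' j ^ 2 :=
    Finset.sum_le_sum fun j _ => pow_le_pow_left₀ (S.x_pos j).le (S.x_le_x' j) 2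
  have h2 := S.hE'
  have h0 := S.sum_sq_nonneg
  have hK : (0 : ℝ) ≤ Fintype.card ι := Nat.cast_nonneg _
  nlinarith only [h1, h2, hK, h0, mul_nonneg hK h0, mul_nonneg (mul_nonneg hK hK) h0]

theorem G0_ge_one (T : ℕ) (hT : 1 ≤ T) : 1 ≤ S.G0 T := by
  unfold G0
  have h : pw S.x (∅ : Finset J) * tau T (nn S.p ∅) = 1 := by
    rw [pw_empty, nn_empty]; unfold tau; rw [if_pos hT]; norm_num
  rw [← h]
  exact Finset.single_le_sum (f := fun a => pw S.x a * tau T (nn S.p a))
    (fun a _ => mul_nonneg (pw_nonneg (fun j => (S.x_pos j).le) a) (tau_nonneg _ _))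
    (Finset.mem_univ ∅)

theorem part_core (i k : ι) (u : J → Option ι) (l : ι) :
    part (core i k u) l = if l = i ∨ l = k then ∅ else part u l := by
  ext j
  rw [mem_part]
  unfold core corel
  by_cases hl : l = i ∨ l = k
  · rw [if_pos hl]
    simp only [Finset.notMem_empty, iff_false]
    split_ifs with h
    · simp
    · intro h2
      apply h
      rw [h2]
      rcases hl with hl | hl
      · left; rw [hl]
      · right; rw [hl]
  · rw [if_neg hl, mem_part]
    push Not at hl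
    constructor
    · intro h
      split_ifs at h with h2
      exact h
    · intro h
      rw [if_neg, h]
      rw [h]
      rintro (h2 | h2)
      · exact hl.1 (by simpa using h2)
      · exact hl.2 (by simpa using h2)

/-- Lower bound for `G`. -/
theorem GG_ge (i k : ι) (hik : i ≠ k) (T T' : ℕ) (hT : 1 ≤ T) (hT' : 1 ≤ T') (v : J → Option ι)
    (hi : part v i = ∅) (hk : part v k = ∅) :
    S.G0 T * S.G0 T' / 2 ≤ (∏ j ∈ supp v, (1 + S.x j)) ^ 2 * S.GG i k T T' v := by
  have hx0 : ∀ j, 0 ≤ S.x j := fun j => (S.x_pos j).le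
  have hG0 : 0 ≤ S.G0 T := le_trans zero_le_one (S.G0_ge_one T hT)
  have hG0' : 0 ≤ S.G0 T' := le_trans zero_le_one (S.G0_ge_one T' hT')
  set P := ∏ j ∈ supp v, (1 + S.x j) with hP
  have hPpos : 0 < P := Finset.prod_pos fun j _ => by linarith [S.x_pos j]
  unfold GG
  rw [op_ep_eq i k hik S.x _ v hi hk]
  -- value of the cut-off
  have hval : ∀ b ∈ ((supp v)ᶜ).powerset, ∀ a ∈ ((supp v ∪ b)ᶜ).powerset,
      S.tauh i k T T' (ext i (ext k v b) a) = tau T (nn S.p a) * tau T' (nn S.p b) := by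
    intro b hb a ha
    rw [Finset.mem_powerset] at hb ha
    unfold tauh
    have hib : part (ext k v b) i = ∅ := by rw [part_ext_ne k i hik v b hb, hi]
    rw [part_ext_self i _ hib, part_ext_ne i k (Ne.symm hik) _ a (by rw [supp_ext]; exact ha),
      part_ext_self k v hk]
  -- inner sum
  have hinner : ∀ b ∈ ((supp v)ᶜ).powerset,
      tau T' (nn S.p b) * (1 - ∑ j ∈ b, S.x j) * (S.G0 T / P) ≤
      ∑ a ∈ ((supp v ∪ b)ᶜ).powerset, pw S.x a * S.tauh i k T T' (ext i (ext k v b) a) := by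
    intro b hb
    have e0 : ∑ a ∈ ((supp v ∪ b)ᶜ).powerset, pw S.x a * S.tauh i k T T' (ext i (ext k v b) a) =
        ∑ a ∈ ((supp v ∪ b)ᶜ).powerset, pw S.x a * (tau T (nn S.p a) * tau T' (nn S.p b)) :=
      Finset.sum_congr rfl fun a ha => by rw [hval b hb a ha]
    rw [e0]
    have e1 := sum_compl_ge hx0 S.p_one (tau T) (tau_anti T) (supp v ∪ b)
    rw [Finset.mem_powerset] at hb
    have hd := disjoint_of_subset_compl hb
    rw [Finset.prod_union hd] at e1
    have e2 : ∑ a ∈ ((supp v ∪ b)ᶜ).powerset, pw S.x a * (tau T (nn S.p a) * tau T' (nn S.p b)) =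
        tau T' (nn S.p b) * ∑ a ∈ ((supp v ∪ b)ᶜ).powerset, pw S.x a * tau T (nn S.p a) := by
      rw [Finset.mul_sum]
      exact Finset.sum_congr rfl fun a _ => by ring
    rw [e2, mul_assoc]
    refine mul_le_mul_of_nonneg_left ?_ (tau_nonneg _ _)
    set Sm := ∑ a ∈ ((supp v ∪ b)ᶜ).powerset, pw S.x a * tau T (nn S.p a) with hSm
    have hSm0 : 0 ≤ Sm := Finset.sum_nonneg fun a _ =>
      mul_nonneg (pw_nonneg hx0 a) (tau_nonneg _ _)
    have hPb : 0 < ∏ j ∈ b, (1 + S.x j) := Finset.prod_pos fun j _ => by linarith [S.x_pos j]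
    have e3 : S.G0 T / P ≤ (∏ j ∈ b, (1 + S.x j)) * Sm := by
      rw [div_le_iff₀ hPpos]
      calc S.G0 T ≤ P * (∏ j ∈ b, (1 + S.x j)) * Sm := e1
        _ = (∏ j ∈ b, (1 + S.x j)) * Sm * P := by ring
    have e4 : (1 - ∑ j ∈ b, S.x j) * ∏ j ∈ b, (1 + S.x j) ≤ 1 := by
      have e5 : 1 - ∑ j ∈ b, S.x j ≤ ∏ j ∈ b, (1 - S.x j) :=
        one_sub_sum_le_prod b S.x (fun j _ => hx0 j) (fun j _ => by linarith [S.x_le_half j])
      refine le_trans (mul_le_mul_of_nonneg_right e5 hPb.le) ?_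
      rw [← Finset.prod_mul_distrib]
      refine Finset.prod_le_one (fun j _ => ?_) (fun j _ => ?_)
      · exact mul_nonneg (by linarith [S.x_le_half j]) (by linarith [hx0 j])
      · nlinarith only [hx0, hx0 j]
    by_cases hneg : 1 - ∑ j ∈ b, S.x j ≤ 0
    · exact le_trans (mul_nonpos_of_nonpos_of_nonneg hneg (div_nonneg hG0 hPpos.le)) hSm0
    · push Not at hneg
      calc (1 - ∑ j ∈ b, S.x j) * (S.G0 T / P) ≤
          (1 - ∑ j ∈ b, S.x j) * ((∏ j ∈ b, (1 + S.x j)) * Sm) :=
            mul_le_mul_of_nonneg_left e3 hneg.le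
        _ = ((1 - ∑ j ∈ b, S.x j) * ∏ j ∈ b, (1 + S.x j)) * Sm := by ring
        _ ≤ 1 * Sm := mul_le_mul_of_nonneg_right e4 hSm0
        _ = Sm := one_mul _
  have houter : (∑ b ∈ ((supp v)ᶜ).powerset, pw S.x b *
      (tau T' (nn S.p b) * (1 - ∑ j ∈ b, S.x j))) * (S.G0 T / P) ≤
      ∑ b ∈ ((supp v)ᶜ).powerset, pw S.x b *
      ∑ a ∈ ((supp v ∪ b)ᶜ).powerset, pw S.x a * S.tauh i k T T' (ext i (ext k v b) a) := by
    rw [Finset.sum_mul]
    refine Finset.sum_le_sum fun b hb => ?_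
    rw [mul_assoc]
    exact mul_le_mul_of_nonneg_left (hinner b hb) (pw_nonneg hx0 b)
  -- the remaining sum over b
  set H := ∑ b ∈ ((supp v)ᶜ).powerset, pw S.x b * tau T' (nn S.p b) with hH
  have hH1 : S.G0 T' / P ≤ H := by
    rw [div_le_iff₀ hPpos]
    have := sum_compl_ge hx0 S.p_one (tau T') (tau_anti T') (supp v)
    calc S.G0 T' ≤ P * H := this
      _ = H * P := by ring
  have hH0 : 0 ≤ H := le_trans (div_nonneg hG0' hPpos.le) hH1
  have hsum : H / 2 ≤ ∑ b ∈ ((supp v)ᶜ).powerset, pw S.x b *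
      (tau T' (nn S.p b) * (1 - ∑ j ∈ b, S.x j)) := by
    have e1 : ∑ b ∈ ((supp v)ᶜ).powerset, pw S.x b *
      (tau T' (nn S.p b) * (1 - ∑ j ∈ b, S.x j)) = H -
      ∑ j, S.x j * ∑ b ∈ ((supp v)ᶜ).powerset.filter (fun b => j ∈ b),
        pw S.x b * tau T' (nn S.p b) := by
      have e2 : ∑ j, S.x j * ∑ b ∈ ((supp v)ᶜ).powerset.filter (fun b => j ∈ b),
        pw S.x b * tau T' (nn S.p b) =
        ∑ b ∈ ((supp v)ᶜ).powerset, pw S.x b * tau T' (nn S.p b) * ∑ j ∈ b, S.x j := by
        simp_rw [Finset.sum_filter, Finset.mul_sum]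
        rw [Finset.sum_comm]
        refine Finset.sum_congr rfl fun b _ => ?_
        rw [← Finset.sum_filter_add_sum_filter_not Finset.univ (fun j => j ∈ b)]
        rw [Finset.filter_mem_eq_inter, Finset.univ_inter]
        rw [Finset.sum_eq_zero (s := Finset.univ.filter (fun j => j ∉ b)), add_zero]
        · refine Finset.sum_congr rfl fun j hj => ?_
          rw [if_pos hj]
          ring
        · intro j hj
          rw [Finset.mem_filter] at hj
          rw [if_neg hj.2, mul_zero]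
      rw [e2, hH, ← Finset.sum_sub_distrib]
      refine Finset.sum_congr rfl fun b _ => ?_
      ring
    rw [e1]
    have e3 : ∑ j, S.x j * ∑ b ∈ ((supp v)ᶜ).powerset.filter (fun b => j ∈ b),
        pw S.x b * tau T' (nn S.p b) ≤ ∑ j, S.x j * (S.x j * H) :=
      Finset.sum_le_sum fun j _ => mul_le_mul_of_nonneg_left
        (sum_mem_le' hx0 S.p_one (tau T') (tau_nonneg T') (tau_anti T') _ j) (hx0 j)
    have e4 : ∑ j, S.x j * (S.x j * H) = (∑ j, S.x j ^ 2) * H := by
      rw [Finset.sum_mul]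
      exact Finset.sum_congr rfl fun j _ => by ring
    have e5 := S.sum_sq_x_le
    nlinarith only [hH0, e3, e4, e5]
  have hfin : H / 2 * (S.G0 T / P) ≤ ∑ b ∈ ((supp v)ᶜ).powerset, pw S.x b *
      ∑ a ∈ ((supp v ∪ b)ᶜ).powerset, pw S.x a * S.tauh i k T T' (ext i (ext k v b) a) :=
    le_trans (mul_le_mul_of_nonneg_right hsum (div_nonneg hG0 hPpos.le)) houter
  have h5 : (S.G0 T' / P) / 2 * (S.G0 T / P) ≤ H / 2 * (S.G0 T / P) :=
    mul_le_mul_of_nonneg_right (by linarith only [hH1]) (div_nonneg hG0 hPpos.le)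
  calc S.G0 T * S.G0 T' / 2 = P ^ 2 * ((S.G0 T' / P) / 2 * (S.G0 T / P)) := by
        field_simp
    _ ≤ P ^ 2 * _ := mul_le_mul_of_nonneg_left (le_trans h5 hfin) (sq_nonneg _)

theorem GG_pos (i k : ι) (hik : i ≠ k) (T T' : ℕ) (hT : 1 ≤ T) (hT' : 1 ≤ T') (v : J → Option ι)
    (hi : part v i = ∅) (hk : part v k = ∅) : 0 < S.GG i k T T' v := by
  have h1 := S.GG_ge i k hik T T' hT hT' v hi hk
  have h2 := S.G0_ge_one T hT
  have h2' := S.G0_ge_one T' hT'
  have hPpos : 0 < ∏ j ∈ supp v, (1 + S.x j) := Finset.prod_pos fun j _ => by linarith only [S.x_pos j]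
  by_contra hneg
  push Not at hneg
  have h3 : (∏ j ∈ supp v, (1 + S.x j)) ^ 2 * S.GG i k T T' v ≤ 0 :=
    mul_nonpos_of_nonneg_of_nonpos (sq_nonneg _) hneg
  nlinarith only [h1, h2, h2', h3]

/-- Upper bound for `Y`. -/
theorem YY_le (i k : ι) (hik : i ≠ k) (v : J → Option ι)
    (hi : part v i = ∅) (hk : part v k = ∅) :
    S.YY i k v ≤ (∏ l ∈ (Finset.univ.erase i).erase k, S.g l (nn S.p (part v l))) * (S.A1 i * S.A1 k) := by
  have hx0 : ∀ j, 0 ≤ S.x j := fun j => (S.x_pos j).le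
  unfold YY
  rw [op_ep_eq i k hik S.x _ v hi hk]
  set Gp := ∏ l ∈ (Finset.univ.erase i).erase k, S.g l (nn S.p (part v l)) with hGp
  have hGp0 : 0 ≤ Gp := Finset.prod_nonneg fun l _ => S.hg0 _ _
  have h1 : ∀ b ∈ ((supp v)ᶜ).powerset,
      ∑ a ∈ ((supp v ∪ b)ᶜ).powerset, pw S.x a * S.wh (ext i (ext k v b) a) ≤
      Gp * S.g k (nn S.p b) * S.A1 i := by
    intro b hb
    rw [Finset.mem_powerset] at hb
    have h2 : ∀ a ∈ ((supp v ∪ b)ᶜ).powerset, pw S.x a * S.wh (ext i (ext k v b) a) ≤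
        Gp * S.g k (nn S.p b) * (pw S.x a * S.g i (nn S.p a)) := by
      intro a ha
      rw [Finset.mem_powerset] at ha
      have hib : part (ext k v b) i = ∅ := by rw [part_ext_ne k i hik v b hb, hi]
      have h3 := S.wh_le (ext i (ext k v b) a)
      rw [← Finset.mul_prod_erase Finset.univ _ (Finset.mem_univ i),
        ← Finset.mul_prod_erase (Finset.univ.erase i) _
        (Finset.mem_erase.mpr ⟨Ne.symm hik, Finset.mem_univ k⟩)] at h3
      rw [part_ext_self i _ hib, part_ext_ne i k (Ne.symm hik) _ a (by rw [supp_ext]; exact ha),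
        part_ext_self k v hk] at h3
      have h4 : ∏ l ∈ (Finset.univ.erase i).erase k,
          S.g l (nn S.p (part (ext i (ext k v b) a) l)) = Gp := by
        refine Finset.prod_congr rfl fun l hl => ?_
        rw [Finset.mem_erase, Finset.mem_erase] at hl
        rw [part_ext_ne i l hl.2.1 _ a (by rw [supp_ext]; exact ha),
          part_ext_ne k l hl.1 v b hb]
      rw [h4] at h3
      calc pw S.x a * S.wh (ext i (ext k v b) a)
          ≤ pw S.x a * (S.g i (nn S.p a) * (S.g k (nn S.p b) * Gp)) :=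
            mul_le_mul_of_nonneg_left h3 (pw_nonneg hx0 a)
        _ = _ := by ring
    refine le_trans (Finset.sum_le_sum h2) ?_
    rw [← Finset.mul_sum]
    refine mul_le_mul_of_nonneg_left ?_ (mul_nonneg hGp0 (S.hg0 _ _))
    unfold A1
    refine Finset.sum_le_sum_of_subset_of_nonneg (Finset.subset_univ _) ?_
    intro a _ _
    exact mul_nonneg (pw_nonneg hx0 a) (S.hg0 _ _)
  refine le_trans (Finset.sum_le_sum fun b hb =>
    mul_le_mul_of_nonneg_left (h1 b hb) (pw_nonneg hx0 b)) ?_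
  have h5 : ∑ b ∈ ((supp v)ᶜ).powerset, pw S.x b * (Gp * S.g k (nn S.p b) * S.A1 i) =
      Gp * S.A1 i * ∑ b ∈ ((supp v)ᶜ).powerset, pw S.x b * S.g k (nn S.p b) := by
    rw [Finset.mul_sum]
    exact Finset.sum_congr rfl fun b _ => by ring
  rw [h5]
  have h6 : ∑ b ∈ ((supp v)ᶜ).powerset, pw S.x b * S.g k (nn S.p b) ≤ S.A1 k := by
    unfold A1
    refine Finset.sum_le_sum_of_subset_of_nonneg (Finset.subset_univ _) ?_
    intro a _ _
    exact mul_nonneg (pw_nonneg hx0 a) (S.hg0 _ _)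
  calc Gp * S.A1 i * ∑ b ∈ ((supp v)ᶜ).powerset, pw S.x b * S.g k (nn S.p b)
      ≤ Gp * S.A1 i * S.A1 k := mul_le_mul_of_nonneg_left h6 (mul_nonneg hGp0 (S.A1_nonneg i))
    _ = Gp * (S.A1 i * S.A1 k) := by ring

theorem YY_nonneg (i k : ι) (hik : i ≠ k) (v : J → Option ι)
    (hi : part v i = ∅) (hk : part v k = ∅) : 0 ≤ S.YY i k v := by
  unfold YY
  rw [op_ep_eq i k hik S.x _ v hi hk]
  exact Finset.sum_nonneg fun b _ => mul_nonneg (pw_nonneg (fun j => (S.x_pos j).le) b)
    (Finset.sum_nonneg fun a _ => mul_nonneg (pw_nonneg (fun j => (S.x_pos j).le) a)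
      (S.wh_nonneg _))

/-- The new weights produce the same function `Y`. -/
theorem op_wt2 (i k : ι) (hik : i ≠ k) (T T' : ℕ) (hT : 1 ≤ T) (hT' : 1 ≤ T') :
    op (fun j => ep i k (S.x j)) (S.wt2 i k T T') = S.YY i k := by
  funext v
  by_cases hv : part v i = ∅ ∧ part v k = ∅
  · have h1 : op (fun j => ep i k (S.x j)) (S.wt2 i k T T') v =
        S.YY i k v / S.GG i k T T' v *
          ∑ u : J → Option ι, (∏ j, ep i k (S.x j) (v j) (u j)) * S.tauh i k T T' u := by
      unfold op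
      rw [Finset.mul_sum]
      refine Finset.sum_congr rfl fun u _ => ?_
      by_cases h : ∏ j, ep i k (S.x j) (v j) (u j) = 0
      · rw [h]; ring
      · have hc := core_eq_of_ep_ne_zero i k S.x v u h
        unfold wt2
        rw [hc]
        ring
    rw [h1]
    change S.YY i k v / S.GG i k T T' v * S.GG i k T T' v = _
    exact div_mul_cancel₀ _ (S.GG_pos i k hik T T' hT hT' v hv.1 hv.2).ne'
  · have hv' : part v i ≠ ∅ ∨ part v k ≠ ∅ := by
      by_contra hh
      push Not at hh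
      exact hv hh
    unfold YY
    rw [op_ep_eq_zero i k S.x _ v hv', op_ep_eq_zero i k S.x _ v hv']

theorem lamt_eq_lam (i k : ι) (hik : i ≠ k) (T T' : ℕ) (hT : 1 ≤ T) (hT' : 1 ≤ T') (α : J → Option ι)
    (hα : part α i = ∅ ∧ part α k = ∅) : S.lamt i k T T' α = S.lam α := by
  unfold lamt lam
  rw [op_neg_eq S i k _ α hα, op_neg_eq S i k _ α hα, S.op_wt2 i k hik T T' hT hT']
  rfl

/-- (III): upper bound for the quadratic form of the majorant. -/
theorem bil_lamt_le (i k : ι) (hik : i ≠ k) (T T' : ℕ) (hT : 1 ≤ T) (hT' : 1 ≤ T') :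
    bil S.x (S.lamt i k T T') (S.lamt i k T T') ≤
      4 * (S.A1 i * S.A1 k) ^ 2 / (S.G0 T * S.G0 T') *
        ∏ l ∈ (Finset.univ.erase i).erase k, S.A2 l := by
  have hx0 : ∀ j, 0 ≤ S.x j := fun j => (S.x_pos j).le
  have h1 := (bil_bounds S.x (fun j => ⟨(S.x_pos j).le, S.card_mul_x j⟩) (S.lamt i k T T')).2
  refine le_trans h1 ?_
  unfold lamt
  rw [op_tm_neg]
  have hG0 : 1 ≤ S.G0 T := S.G0_ge_one T hT
  have hG0' : 1 ≤ S.G0 T' := S.G0_ge_one T' hT'
  have h2 : ∀ u : J → Option ι, (sgn u * S.wt2 i k T T' u) ^ 2 * ∏ j, wt (S.x j) (u j) =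
      (fun v => (S.YY i k v / S.GG i k T T' v) ^ 2) (core i k u) * S.tauh i k T T' u *
        pw S.x (supp u) := by
    intro u
    rw [mul_pow, sgn_sq, one_mul, prod_wt]
    unfold wt2
    have h3 : S.tauh i k T T' u ^ 2 = S.tauh i k T T' u := by
      unfold tauh
      rw [mul_pow, tau_sq, tau_sq]
    simp only
    rw [div_pow, mul_pow, h3, div_pow]
    ring
  rw [Finset.sum_congr rfl fun u _ => h2 u]
  refine le_trans (le_of_eq (sum_core i k S.x
    (fun v => (S.YY i k v / S.GG i k T T' v) ^ 2) (S.tauh i k T T'))) ?_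
  change ∑ v : J → Option ι, (S.YY i k v / S.GG i k T T' v) ^ 2 * pw S.x (supp v) *
    S.GG i k T T' v ≤ _
  -- pointwise bound
  set z : J → ℝ := fun j => S.x j * (1 + S.x j) ^ 2 with hz
  have h4 : ∀ v : J → Option ι, (S.YY i k v / S.GG i k T T' v) ^ 2 * pw S.x (supp v) *
      S.GG i k T T' v ≤ 2 * (S.A1 i * S.A1 k) ^ 2 / (S.G0 T * S.G0 T') *
        ∏ l, (if l = i ∨ l = k then (if part v l = ∅ then (1:ℝ) else 0) else
          pw z (part v l) * S.g l (nn S.p (part v l)) ^ 2) := by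
    intro v
    have hrhs0 : 0 ≤ 2 * (S.A1 i * S.A1 k) ^ 2 / (S.G0 T * S.G0 T') *
        ∏ l, (if l = i ∨ l = k then (if part v l = ∅ then (1:ℝ) else 0) else
          pw z (part v l) * S.g l (nn S.p (part v l)) ^ 2) := by
      refine mul_nonneg (by positivity) (Finset.prod_nonneg fun l _ => ?_)
      split_ifs
      · norm_num
      · norm_num
      · refine mul_nonneg (pw_nonneg (fun j => ?_) _) (sq_nonneg _)
        exact mul_nonneg (hx0 j) (sq_nonneg _)
    by_cases hv : part v i = ∅ ∧ part v k = ∅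
    · obtain ⟨hi, hk⟩ := hv
      have e1 := S.GG_ge i k hik T T' hT hT' v hi hk
      have e2 := S.GG_pos i k hik T T' hT hT' v hi hk
      have e3 := S.YY_le i k hik v hi hk
      have e4 := S.YY_nonneg i k hik v hi hk
      set P := ∏ j ∈ supp v, (1 + S.x j) with hP
      have hPpos : 0 < P := Finset.prod_pos fun j _ => by linarith only [S.x_pos j]
      set Gp := ∏ l ∈ (Finset.univ.erase i).erase k, S.g l (nn S.p (part v l)) with hGp
      have hGp0 : 0 ≤ Gp := Finset.prod_nonneg fun l _ => S.hg0 _ _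
      have e5 : (S.YY i k v / S.GG i k T T' v) ^ 2 * pw S.x (supp v) * S.GG i k T T' v =
          S.YY i k v ^ 2 * pw S.x (supp v) / S.GG i k T T' v := by
        field_simp
      have e6 : ∏ l, (if l = i ∨ l = k then (if part v l = ∅ then (1:ℝ) else 0) else
          pw z (part v l) * S.g l (nn S.p (part v l)) ^ 2) = pw z (supp v) * Gp ^ 2 := by
        rw [pw_supp]
        rw [← Finset.mul_prod_erase Finset.univ _ (Finset.mem_univ i),
          ← Finset.mul_prod_erase (Finset.univ.erase i) _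
          (Finset.mem_erase.mpr ⟨Ne.symm hik, Finset.mem_univ k⟩)]
        rw [← Finset.mul_prod_erase Finset.univ (fun l => pw z (part v l)) (Finset.mem_univ i),
          ← Finset.mul_prod_erase (Finset.univ.erase i) (fun l => pw z (part v l))
          (Finset.mem_erase.mpr ⟨Ne.symm hik, Finset.mem_univ k⟩)]
        simp only [true_or, or_true, if_true, hi, hk, pw_empty, one_mul]
        rw [hGp, ← Finset.prod_pow, ← Finset.prod_mul_distrib]
        refine Finset.prod_congr rfl fun l hl => ?_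
        rw [Finset.mem_erase, Finset.mem_erase] at hl
        rw [if_neg]
        push Not
        exact ⟨hl.2.1, hl.1⟩
      have e7 : pw z (supp v) = pw S.x (supp v) * P ^ 2 := by
        rw [hP, hz]
        unfold pw
        rw [Finset.prod_mul_distrib, Finset.prod_pow]
      rw [e5, e6, e7, div_le_iff₀ e2]
      have e8 : S.YY i k v ^ 2 ≤ (Gp * (S.A1 i * S.A1 k)) ^ 2 := pow_le_pow_left₀ e4 e3 2
      have hpw := pw_nonneg hx0 (supp v)
      have hG0p : 0 < S.G0 T * S.G0 T' := by positivity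
      calc S.YY i k v ^ 2 * pw S.x (supp v) ≤ (Gp * (S.A1 i * S.A1 k)) ^ 2 * pw S.x (supp v) :=
            mul_le_mul_of_nonneg_right e8 hpw
        _ = 2 * (S.A1 i * S.A1 k) ^ 2 / (S.G0 T * S.G0 T') * (pw S.x (supp v) * Gp ^ 2) * (S.G0 T * S.G0 T' / 2) := by
            field_simp
        _ ≤ 2 * (S.A1 i * S.A1 k) ^ 2 / (S.G0 T * S.G0 T') * (pw S.x (supp v) * Gp ^ 2) * (P ^ 2 * S.GG i k T T' v) := by
            refine mul_le_mul_of_nonneg_left e1 ?_
            exact mul_nonneg (by (clear * - hG0 hG0'; positivity)) (mul_nonneg hpw (sq_nonneg _))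
        _ = _ := by ring
    · have hv' : part v i ≠ ∅ ∨ part v k ≠ ∅ := by
        by_contra hh
        push Not at hh
        exact hv hh
      have e1 : S.GG i k T T' v = 0 := op_ep_eq_zero i k S.x _ v hv'
      rw [e1, mul_zero]
      exact hrhs0
  refine le_trans (Finset.sum_le_sum fun v _ => h4 v) ?_
  rw [← Finset.mul_sum]
  have h5 := sum_prod_part_le (ι := ι) (J := J) (fun l a =>
    if l = i ∨ l = k then (if a = ∅ then (1:ℝ) else 0) else pw z a * S.g l (nn S.p a) ^ 2)
    (fun l a => by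
      split_ifs
      · norm_num
      · norm_num
      · refine mul_nonneg (pw_nonneg (fun j => ?_) _) (sq_nonneg _)
        exact mul_nonneg (hx0 j) (sq_nonneg _))
  have hA2 : 0 < ∏ l ∈ (Finset.univ.erase i).erase k, S.A2 l :=
    Finset.prod_pos fun l _ => S.A2_pos l
  have h6 : ∏ l : ι, ∑ a : Finset J, (if l = i ∨ l = k then (if a = ∅ then (1:ℝ) else 0) else
      pw z a * S.g l (nn S.p a) ^ 2) ≤
        2 * ∏ l ∈ (Finset.univ.erase i).erase k, S.A2 l := by
    rw [← Finset.mul_prod_erase Finset.univ _ (Finset.mem_univ i),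
      ← Finset.mul_prod_erase (Finset.univ.erase i) _
      (Finset.mem_erase.mpr ⟨Ne.symm hik, Finset.mem_univ k⟩)]
    have e1 : ∀ l ∈ (Finset.univ.erase i).erase k, ∑ a : Finset J,
        (if l = i ∨ l = k then (if a = ∅ then (1:ℝ) else 0) else
        pw z a * S.g l (nn S.p a) ^ 2) = ∑ a : Finset J, pw z a * S.g l (nn S.p a) ^ 2 := by
      intro l hl
      rw [Finset.mem_erase, Finset.mem_erase] at hl
      refine Finset.sum_congr rfl fun a _ => ?_
      rw [if_neg]
      push Not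
      exact ⟨hl.2.1, hl.1⟩
    rw [Finset.prod_congr rfl e1]
    have e2 : ((Finset.univ.erase i).erase k).card = Fintype.card ι - 2 := by
      rw [Finset.card_erase_of_mem (Finset.mem_erase.mpr ⟨Ne.symm hik, Finset.mem_univ k⟩),
        Finset.card_erase_of_mem (Finset.mem_univ i), Finset.card_univ]
      omega
    simp only [true_or, or_true, if_true]
    rw [Finset.sum_ite_eq' Finset.univ (∅ : Finset J) (fun _ => (1:ℝ))]
    simp only [Finset.mem_univ, if_true, one_mul]
    -- compare the tilted sum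
    have e3 : ∀ l, ∑ a : Finset J, pw z a * S.g l (nn S.p a) ^ 2 ≤
        (∏ j, (1 + S.x j * (3 * S.x j))) * S.A2 l := by
      intro l
      refine le_trans ?_ (sum_tilt_le hx0 (z := fun j => 3 * S.x j)
        (fun j => mul_nonneg (by norm_num) (hx0 j)) S.p_one
        (fun n => S.g l n ^ 2) (fun n => sq_nonneg _)
        (fun m n hm hmn => pow_le_pow_left₀ (S.hg0 l n) (S.hg l m n hm hmn) 2))
      refine Finset.sum_le_sum fun a _ => ?_
      refine mul_le_mul_of_nonneg_right ?_ (sq_nonneg _)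
      unfold pw
      rw [← Finset.prod_mul_distrib]
      refine Finset.prod_le_prod (fun j _ => mul_nonneg (hx0 j) (sq_nonneg _)) fun j _ => ?_
      rw [hz]
      refine mul_le_mul_of_nonneg_left ?_ (hx0 j)
      nlinarith only [hx0, hx0 j, S.x_le_half j]
    have hPP : (1:ℝ) ≤ ∏ j, (1 + S.x j * (3 * S.x j)) := by
      calc (1:ℝ) = ∏ _j : J, (1:ℝ) := by simp
        _ ≤ _ := Finset.prod_le_prod (fun _ _ => zero_le_one) fun j _ => by
          nlinarith only [hx0 j, mul_nonneg (hx0 j) (hx0 j)]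
    have e4 : (∏ j, (1 + S.x j * (3 * S.x j))) ^ (Fintype.card ι - 2) ≤ 2 := by
      have e5 : ∏ j, (1 + S.x j * (3 * S.x j)) ≤ Real.exp (3 * ∑ j, S.x j ^ 2) := by
        rw [Finset.mul_sum, Real.exp_sum]
        refine Finset.prod_le_prod (fun j _ => by nlinarith only [hx0 j, mul_nonneg (hx0 j) (hx0 j)])
          fun j _ => ?_
        have := Real.add_one_le_exp (3 * S.x j ^ 2)
        nlinarith only [this]
      have e6 : (∏ j, (1 + S.x j * (3 * S.x j))) ^ (Fintype.card ι - 2) ≤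
          Real.exp (3 * ∑ j, S.x j ^ 2) ^ (Fintype.card ι) := by
        refine le_trans (pow_le_pow_left₀ (by linarith) e5 _) ?_
        exact pow_le_pow_right₀ (by
          rw [← Real.exp_zero]
          apply Real.exp_le_exp.mpr
          have : 0 ≤ ∑ j, S.x j ^ 2 := Finset.sum_nonneg fun j _ => sq_nonneg _
          linarith) (Nat.sub_le _ _)
      refine le_trans e6 ?_
      rw [← Real.exp_nat_mul]
      have e7 : (Fintype.card ι : ℝ) * (3 * ∑ j, S.x j ^ 2) ≤ 3 / 64 := by
        have e8 : ∑ j, S.x j ^ 2 ≤ ∑ j, S.x' j ^ 2 :=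
          Finset.sum_le_sum fun j _ => pow_le_pow_left₀ (S.x_pos j).le (S.x_le_x' j) 2
        have e9 := S.card_sum_le
        have hK : (0 : ℝ) ≤ Fintype.card ι := Nat.cast_nonneg _
        nlinarith only [e9, e8, hK, mul_le_mul_of_nonneg_left e8 hK]
      have e10 : Real.exp ((Fintype.card ι : ℝ) * (3 * ∑ j, S.x j ^ 2)) ≤ Real.exp (1 / 2) :=
        Real.exp_le_exp.mpr (by linarith)
      refine le_trans e10 ?_
      have e11 : Real.exp (1 / 2) ^ 2 ≤ 2 ^ 2 := by
        rw [← Real.exp_nat_mul]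
        norm_num
        have := Real.exp_one_lt_d9
        linarith
      exact le_of_sq_le_sq e11 (by norm_num)
    have hsum0 : ∀ l, 0 ≤ ∑ a : Finset J, pw z a * S.g l (nn S.p a) ^ 2 := fun l =>
      Finset.sum_nonneg fun a _ => mul_nonneg (pw_nonneg (fun j =>
        mul_nonneg (hx0 j) (sq_nonneg _)) _) (sq_nonneg _)
    calc ∏ l ∈ (Finset.univ.erase i).erase k, ∑ a : Finset J, pw z a * S.g l (nn S.p a) ^ 2
        ≤ ∏ l ∈ (Finset.univ.erase i).erase k, ((∏ j, (1 + S.x j * (3 * S.x j))) * S.A2 l) :=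
          Finset.prod_le_prod (fun l _ => hsum0 l) fun l _ => e3 l
      _ = (∏ j, (1 + S.x j * (3 * S.x j))) ^ (Fintype.card ι - 2) *
          ∏ l ∈ (Finset.univ.erase i).erase k, S.A2 l := by
          rw [Finset.prod_mul_distrib, Finset.prod_const, e2]
      _ ≤ 2 * ∏ l ∈ (Finset.univ.erase i).erase k, S.A2 l :=
          mul_le_mul_of_nonneg_right e4 hA2.le
  calc 2 * (S.A1 i * S.A1 k) ^ 2 / (S.G0 T * S.G0 T') * ∑ v : J → Option ι, ∏ l, (if l = i ∨ l = k then
        (if part v l = ∅ then (1:ℝ) else 0) else pw z (part v l) * S.g l (nn S.p (part v l)) ^ 2)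
      ≤ 2 * (S.A1 i * S.A1 k) ^ 2 / (S.G0 T * S.G0 T') *
          (2 * ∏ l ∈ (Finset.univ.erase i).erase k, S.A2 l) :=
        mul_le_mul_of_nonneg_left (le_trans h5 h6) (by positivity)
    _ = _ := by ring

end ND

end Pool.Agent.IS
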