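import Pool.Agent.Lib.MP_bca3e5_nt.IS.N2
import Pool.Agent.Lib.MP_89da58_nt.Sizes

set_option autoImplicit false
set_option linter.unusedSectionVars false

/-!
Project IS: supports and sizes of the weights.
-/

namespace Pool.Agent.IS

open Pool.Agent.MP89da58

variable {ι : Type} [Fintype ι] [DecidableEq ι] {J : Type} [Fintype J] [DecidableEq J]

namespace ND

variable (S : ND ι J)

theorem supp_of_wh (u : J → Option ι) (h : S.wh u ≠ 0) : nn S.p (supp u) ≤ S.R := by
  unfold wh at h
  by_contra hc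
  rw [if_neg hc] at h
  exact h rfl

theorem lam_support (α : J → Option ι) (h : S.lam α ≠ 0) : nn S.p (supp α) ≤ S.R := by
  unfold lam op at h
  obtain ⟨u, _, hu⟩ := Finset.exists_ne_zero_of_sum_ne_zero h
  have h1 : ∏ j, tm (-S.x j) (α j) (u j) ≠ 0 := fun hz => hu (by rw [hz, zero_mul])
  have h2 : S.wh u ≠ 0 := fun hz => hu (by simp [hz])
  exact le_trans (nn_mono S.p_one (supp_subset_of_sub (tm_ne_zero_sub h1))) (S.supp_of_wh u h2)

theorem abs_lam_le (α : J → Option ι) : |S.lam α| ≤ S.G0 S.R ^ Fintype.card ι := by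
  unfold lam G0
  refine abs_op_tm_le (fun j => (S.x_pos j).le) S.p_one S.R _ ?_ ?_ α
  · intro u
    rw [abs_mul, abs_sgn, one_mul, abs_of_nonneg (S.wh_nonneg u)]
    exact S.wh_le_one u
  · intro u hu
    exact S.supp_of_wh u (fun hz => hu (by rw [hz, mul_zero]))

theorem lami_eq (i : ι) (α : J → Option ι) :
    S.lami i α = if part α i = ∅ then S.lam α else 0 := by
  unfold lami
  by_cases h : part α i = ∅
  · rw [if_pos h, Finset.prod_eq_one, one_mul]
    intro j _
    unfold rho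
    rw [if_neg]
    intro hj
    have : j ∈ part α i := mem_part.mpr hj
    rw [h] at this
    exact absurd this (Finset.notMem_empty j)
  · rw [if_neg h]
    obtain ⟨j, hj⟩ := Finset.nonempty_iff_ne_empty.mpr h
    rw [Finset.prod_eq_zero (Finset.mem_univ j), zero_mul]
    unfold rho
    rw [if_pos (mem_part.mp hj)]

theorem abs_lami_le (i : ι) (α : J → Option ι) : |S.lami i α| ≤ S.G0 S.R ^ Fintype.card ι := by
  rw [lami_eq]
  split_ifs
  · exact S.abs_lam_le α
  · rw [abs_zero]
    refine pow_nonneg (Finset.sum_nonneg fun a _ => ?_) _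
    exact mul_nonneg (pw_nonneg (fun j => (S.x_pos j).le) a) (tau_nonneg _ _)

theorem lami_support (i : ι) (α : J → Option ι) (h : S.lami i α ≠ 0) :
    part α i = ∅ ∧ nn S.p (supp α) ≤ S.R := by
  rw [lami_eq] at h
  split_ifs at h with h1
  · exact ⟨h1, S.lam_support α h⟩
  · exact absurd rfl h

theorem GG_ge_one (i k : ι) (hik : i ≠ k) (T T' : ℕ) (hT : 1 ≤ T) (hT' : 1 ≤ T') (v : J → Option ι)
    (hi : part v i = ∅) (hk : part v k = ∅) : 1 ≤ S.GG i k T T' v := by
  unfold GG
  have hx0 : ∀ j, 0 ≤ S.x j := fun j => (S.x_pos j).le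
  rw [op_ep_eq i k hik S.x _ v hi hk]
  have hth : ∀ u, 0 ≤ S.tauh i k T T' u := fun u => mul_nonneg (tau_nonneg _ _) (tau_nonneg _ _)
  refine le_trans ?_ (Finset.single_le_sum (f := fun b => pw S.x b *
      ∑ a ∈ ((supp v ∪ b)ᶜ).powerset, pw S.x a * S.tauh i k T T' (ext i (ext k v b) a))
      (fun b _ => mul_nonneg (pw_nonneg hx0 b) (Finset.sum_nonneg fun a _ =>
        mul_nonneg (pw_nonneg hx0 a) (hth _))) (Finset.empty_mem_powerset _))
  rw [pw_empty, one_mul]
  refine le_trans ?_ (Finset.single_le_sum (f := fun a => pw S.x a *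
    S.tauh i k T T' (ext i (ext k v ∅) a)) (fun a _ =>
        mul_nonneg (pw_nonneg hx0 a) (hth _)) (Finset.empty_mem_powerset _))
  rw [pw_empty, one_mul]
  have h1 : ext i (ext k v ∅) ∅ = v := by
    funext j
    simp [ext]
  rw [h1]
  unfold tauh
  rw [hi, hk, nn_empty]
  unfold tau
  rw [if_pos hT, if_pos hT']
  norm_num

theorem core_parts (i k : ι) (u : J → Option ι) :
    part (core i k u) i = ∅ ∧ part (core i k u) k = ∅ := by
  rw [part_core, part_core]
  simp

theorem abs_wt2_le (i k : ι) (hik : i ≠ k) (T T' : ℕ) (hT : 1 ≤ T) (hT' : 1 ≤ T') (u : J → Option ι) :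
    |S.wt2 i k T T' u| ≤ (S.A1 i * S.A1 k) := by
  unfold wt2
  obtain ⟨hi, hk⟩ := core_parts i k u
  have h1 := S.GG_ge_one i k hik T T' hT hT' _ hi hk
  have h2 := S.YY_le i k hik _ hi hk
  have h3 := S.YY_nonneg i k hik _ hi hk
  have h4 : ∏ l ∈ (Finset.univ.erase i).erase k, S.g l (nn S.p (part (core i k u) l)) ≤ 1 :=
    Finset.prod_le_one (fun l _ => S.hg0 _ _) (fun l _ => S.g_le_one _ _ (nn_pos S.p_one _))
  have h5 : 0 ≤ S.tauh i k T T' u := mul_nonneg (tau_nonneg _ _) (tau_nonneg _ _)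
  have h6 : S.tauh i k T T' u ≤ 1 := by
    unfold tauh tau
    split_ifs <;> norm_num
  have h7 : 0 ≤ (S.A1 i * S.A1 k) := mul_nonneg (S.A1_nonneg i) (S.A1_nonneg k)
  rw [abs_of_nonneg (div_nonneg (mul_nonneg h3 h5) (by linarith)),
    div_le_iff₀ (by linarith)]
  calc S.YY i k (core i k u) * S.tauh i k T T' u ≤ S.YY i k (core i k u) * 1 :=
        mul_le_mul_of_nonneg_left h6 h3
    _ ≤ 1 * (S.A1 i * S.A1 k) := by
        rw [mul_one]
        exact le_trans h2 (mul_le_mul_of_nonneg_right h4 h7)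
    _ ≤ (S.A1 i * S.A1 k) * S.GG i k T T' (core i k u) := by
        rw [one_mul]
        exact le_mul_of_one_le_right h7 h1

theorem wt2_support (i k : ι) (hik : i ≠ k) (T T' : ℕ) (u : J → Option ι)
    (h : S.wt2 i k T T' u ≠ 0) : nn S.p (supp u) ≤ S.R * (T * T') := by
  unfold wt2 at h
  have h1 : S.YY i k (core i k u) ≠ 0 := by
    intro hz; rw [hz, zero_mul, zero_div] at h; exact h rfl
  have h2 : S.tauh i k T T' u ≠ 0 := by
    intro hz; rw [hz, mul_zero, zero_div] at h; exact h rfl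
  have h3 : nn S.p (part u i) ≤ T ∧ nn S.p (part u k) ≤ T' := by
    unfold tauh tau at h2
    constructor
    · by_contra hc
      rw [if_neg hc, zero_mul] at h2
      exact h2 rfl
    · by_contra hc
      rw [if_neg hc, mul_zero] at h2
      exact h2 rfl
  have h4 : nn S.p (supp (core i k u)) ≤ S.R := by
    unfold YY op at h1
    obtain ⟨u', _, hu'⟩ := Finset.exists_ne_zero_of_sum_ne_zero h1
    have e1 : ∏ j, ep i k (S.x j) (core i k u j) (u' j) ≠ 0 := fun hz => hu' (by rw [hz, zero_mul])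
    have e2 : S.wh u' ≠ 0 := fun hz => hu' (by rw [hz]; ring)
    have e3 := core_eq_of_ep_ne_zero i k S.x _ _ e1
    rw [← e3]
    refine le_trans (nn_mono S.p_one ?_) (S.supp_of_wh u' e2)
    intro j hj
    rw [mem_supp] at hj ⊢
    intro hz
    apply hj
    unfold core corel
    rw [hz]
    simp
  have h5 : nn S.p (supp u) = nn S.p (supp (core i k u)) * (nn S.p (part u i) *
      nn S.p (part u k)) := by
    rw [nn_supp, nn_supp]
    rw [← Finset.mul_prod_erase Finset.univ _ (Finset.mem_univ i),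
      ← Finset.mul_prod_erase (Finset.univ.erase i) _
      (Finset.mem_erase.mpr ⟨Ne.symm hik, Finset.mem_univ k⟩)]
    rw [← Finset.mul_prod_erase Finset.univ (fun l => nn S.p (part (core i k u) l))
      (Finset.mem_univ i),
      ← Finset.mul_prod_erase (Finset.univ.erase i) (fun l => nn S.p (part (core i k u) l))
      (Finset.mem_erase.mpr ⟨Ne.symm hik, Finset.mem_univ k⟩)]
    rw [(core_parts i k u).1, (core_parts i k u).2, nn_empty]
    have e1 : ∏ l ∈ (Finset.univ.erase i).erase k, nn S.p (part (core i k u) l) =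
        ∏ l ∈ (Finset.univ.erase i).erase k, nn S.p (part u l) := by
      refine Finset.prod_congr rfl fun l hl => ?_
      rw [Finset.mem_erase, Finset.mem_erase] at hl
      rw [part_core, if_neg]
      push Not
      exact ⟨hl.2.1, hl.1⟩
    rw [e1]
    ring
  rw [h5]
  exact Nat.mul_le_mul h4 (Nat.mul_le_mul h3.1 h3.2)

theorem lamt_support (i k : ι) (hik : i ≠ k) (T T' : ℕ) (α : J → Option ι)
    (h : S.lamt i k T T' α ≠ 0) : nn S.p (supp α) ≤ S.R * (T * T') := by
  unfold lamt op at h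
  obtain ⟨u, _, hu⟩ := Finset.exists_ne_zero_of_sum_ne_zero h
  have h1 : ∏ j, tm (-S.x j) (α j) (u j) ≠ 0 := fun hz => hu (by rw [hz, zero_mul])
  have h2 : S.wt2 i k T T' u ≠ 0 := fun hz => hu (by simp [hz])
  exact le_trans (nn_mono S.p_one (supp_subset_of_sub (tm_ne_zero_sub h1)))
    (S.wt2_support i k hik T T' u h2)

theorem lamt_parts (i k : ι) (T T' : ℕ) (α : J → Option ι) (h : S.lamt i k T T' α ≠ 0) :
    nn S.p (part α i) ≤ T ∧ nn S.p (part α k) ≤ T' := by
  unfold lamt op at h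
  obtain ⟨u, _, hu⟩ := Finset.exists_ne_zero_of_sum_ne_zero h
  have h1 : ∏ j, tm (-S.x j) (α j) (u j) ≠ 0 := fun hz => hu (by rw [hz, zero_mul])
  have h2 : S.wt2 i k T T' u ≠ 0 := fun hz => hu (by simp [hz])
  have h3 : S.tauh i k T T' u ≠ 0 := by
    intro hz
    apply h2
    unfold wt2
    rw [hz, mul_zero, zero_div]
  have hsub := tm_ne_zero_sub h1
  have h4 : ∀ l, part α l ⊆ part u l := fun l j hj => by
    rw [mem_part] at hj ⊢
    exact hsub j l hj
  unfold tauh tau at h3
  constructor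
  · refine (nn_mono S.p_one (h4 i)).trans ?_
    by_contra hc
    rw [if_neg hc, zero_mul] at h3
    exact h3 rfl
  · refine (nn_mono S.p_one (h4 k)).trans ?_
    by_contra hc
    rw [if_neg hc, mul_zero] at h3
    exact h3 rfl

theorem part_empty_of_nn_le_one {a : Finset J} (h : nn S.p a ≤ 1) : a = ∅ := by
  by_contra hne
  obtain ⟨j, hj⟩ := Finset.nonempty_iff_ne_empty.mpr hne
  have h1 : S.p j ∣ nn S.p a := Finset.dvd_prod_of_mem _ hj
  have h2 := Nat.le_of_dvd (nn_pos S.p_one a) h1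
  have h3 := S.hp j
  omega

theorem abs_lamt_le (i k : ι) (hik : i ≠ k) (T T' : ℕ) (hT : 1 ≤ T) (hT' : 1 ≤ T')
    (α : J → Option ι) :
    |S.lamt i k T T' α| ≤ (S.A1 i * S.A1 k) * S.G0 (S.R * (T * T')) ^ Fintype.card ι := by
  have hA0 : 0 ≤ S.A1 i * S.A1 k := mul_nonneg (S.A1_nonneg i) (S.A1_nonneg k)
  by_cases hA : S.A1 i * S.A1 k = 0
  · have h0 : S.lamt i k T T' α = 0 := by
      unfold lamt op
      refine Finset.sum_eq_zero fun u _ => ?_
      have h1 := S.abs_wt2_le i k hik T T' hT hT' u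
      rw [hA] at h1
      have h2 : S.wt2 i k T T' u = 0 := abs_nonpos_iff.1 h1
      simp [h2]
    rw [h0, hA]
    norm_num
  · have hApos : 0 < S.A1 i * S.A1 k := lt_of_le_of_ne hA0 (Ne.symm hA)
    have h1 := abs_op_tm_le (x := S.x) (fun j => (S.x_pos j).le) S.p_one (S.R * (T * T'))
      (fun u => (1 / (S.A1 i * S.A1 k)) * (sgn u * S.wt2 i k T T' u)) (by
        intro u
        rw [abs_mul, abs_mul, abs_sgn, one_mul,
          abs_of_pos (by positivity : 0 < 1 / (S.A1 i * S.A1 k)),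
          one_div, inv_mul_le_iff₀ hApos, mul_one]
        exact S.abs_wt2_le i k hik T T' hT hT' u) (by
        intro u hu
        exact S.wt2_support i k hik T T' u (fun hz => hu (by rw [hz]; ring))) α
    have h2 : op (fun j => tm (-S.x j)) (fun u => (1 / (S.A1 i * S.A1 k)) *
        (sgn u * S.wt2 i k T T' u)) α = (1 / (S.A1 i * S.A1 k)) * S.lamt i k T T' α := by
      unfold lamt op
      rw [Finset.mul_sum]
      exact Finset.sum_congr rfl fun u _ => by ring
    rw [h2, abs_mul, abs_of_pos (by positivity : 0 < 1 / (S.A1 i * S.A1 k)), one_div,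
      inv_mul_le_iff₀ hApos] at h1
    exact h1

end ND

end Pool.Agent.IS
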