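import Pool.Agent.Lib.MP_bca3e5_nt.IS.Defs
import Pool.Agent.Lib.MP_bca3e5_nt.IS.N3
import Pool.Agent.Lib.MP_0da313_nt.MT.MkG

set_option autoImplicit false
set_option linter.unusedSectionVars false

/-!
Project IS: the sieve data attached to a set of primes, with different scales.
-/

open Finset

namespace Pool.Agent.IS

open Pool.Agent.MP89da58
open Pool.Agent.MT (PJf g0 sum_subtype_powerset)

variable {ι : Type} [Fintype ι] [DecidableEq ι]

/-- The sieve data. -/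
noncomputable def mkN (P : Finset ℕ) (z R : ℕ) (m y : ι → ℕ) (hy : ∀ l, 1 ≤ y l)
    (hP : ∀ p ∈ P, p.Prime ∧ z < p) (hM : ∀ l, y l ^ (2 * 2 ^ m l) ≤ R)
    (hz : 16 * (Fintype.card ι + 2) ^ 2 ≤ z) : ND ι (PJf P) where
  p := fun j => (j : ℕ)
  hp := fun j => (hP j.1 j.2).1.two_le
  hpK := fun j => by
    have h1 : Fintype.card ι + 2 ≤ 16 * (Fintype.card ι + 2) ^ 2 := by nlinarith
    have h2 := (hP j.1 j.2).2
    omega
  g := fun l => gfun (m l) (y l)
  hg0 := fun l => gfun_nonneg (m l) (y l)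
  hg1 := fun l => gfun_one (m l) (y l) 1 (hy l)
  hg := fun l => gfun_anti (m l) (y l)
  R := R
  hgR := fun l n hn => by
    have h1 := gfun_support (m l) (y l) n (hy l) hn
    calc n * n ≤ y l ^ 2 ^ m l * y l ^ 2 ^ m l := Nat.mul_le_mul h1 h1
      _ = y l ^ (2 * 2 ^ m l) := by rw [← pow_add]; congr 1; ring
      _ ≤ R := hM l
  hE := by
    have h1 : ∑ j : PJf P, (1 / (((j : ℕ) : ℝ) - 1)) ^ 2 ≤ (2 : ℝ) / z := by
      rw [Finset.sum_coe_sort P (fun n : ℕ => (1 / ((n : ℝ) - 1)) ^ 2)]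
      have h2 : P ⊆ Finset.Ioc z (P.sup id) := by
        intro p hp
        rw [Finset.mem_Ioc]
        exact ⟨(hP p hp).2, Finset.le_sup (f := id) hp⟩
      refine (Finset.sum_le_sum_of_subset_of_nonneg h2
        fun _ _ _ => by positivity).trans (sum_inv_sq_le z _ ?_)
      have h3 : 1 ≤ (Fintype.card ι + 2) ^ 2 := Nat.one_le_pow _ _ (by omega)
      omega
    have hz' : (16 : ℝ) * ((Fintype.card ι : ℝ) + 2) ^ 2 ≤ z := by exact_mod_cast hz
    have hz0 : (0 : ℝ) < z := by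
      have : (0 : ℝ) < 16 * ((Fintype.card ι : ℝ) + 2) ^ 2 := by positivity
      linarith
    calc ((Fintype.card ι : ℝ) + 2) ^ 2 * ∑ j : PJf P,
        (1 / (((j : ℕ) : ℝ) - 1)) ^ 2 ≤ ((Fintype.card ι : ℝ) + 2) ^ 2 * (2 / z) :=
          mul_le_mul_of_nonneg_left h1 (by positivity)
      _ ≤ 1 / 8 := by
          rw [mul_div_assoc', div_le_div_iff₀ hz0 (by norm_num)]
          linarith

namespace ND

/-- the one-dimensional sum in terms of subsets of `P` -/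
theorem G0_eq {P : Finset ℕ} (S : ND ι (PJf P)) (hS : ∀ j, S.p j = (j : ℕ)) (T : ℕ) :
    S.G0 T = g0 P T := by
  unfold G0 g0
  rw [Finset.sum_filter, ← sum_subtype_powerset P
    (fun A => if ∏ p ∈ A, p ≤ T then ∏ p ∈ A, (1 / (p : ℝ)) else 0)]
  apply Finset.sum_congr rfl
  intro a _
  have h1 : nn S.p a = ∏ p ∈ a.map (Function.Embedding.subtype (· ∈ P)), p := by
    unfold nn
    rw [Finset.prod_map]
    exact Finset.prod_congr rfl fun j _ => hS j
  have h2 : pw S.x a = ∏ p ∈ a.map (Function.Embedding.subtype (· ∈ P)), (1 / (p : ℝ)) := by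
    unfold pw x
    rw [Finset.prod_map]
    exact Finset.prod_congr rfl fun j _ => by rw [hS j]; rfl
  rw [← h1, ← h2]
  unfold tau
  split_ifs <;> ring

variable {J : Type} [Fintype J] [DecidableEq J]

/-- The bounds for the one-dimensional sums. -/
theorem one_dim (S : ND ι J) (l : ι) (m y : ℕ) (κ : ℝ) (hκ : 0 < κ) (hy : 2 ≤ y)
    (hg : S.g l = gfun m y)
    (hGk : ∀ k ≤ m, κ * ((2 : ℝ) ^ k * Real.log y) / 4 ≤ S.G0 (y ^ 2 ^ k) ∧
      S.G0 (y ^ 2 ^ k) ≤ 1000 * κ * ((2 : ℝ) ^ k * Real.log y)) :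
    (m : ℝ) * κ * Real.log y / 8 ≤ S.A1 l ∧ S.A1 l ≤ S.G0 (y ^ 2 ^ m) ∧
    κ * Real.log y / 4 ≤ S.A2 l ∧ S.A2 l ≤ 2000 * κ * Real.log y ∧
    S.B1 l ≤ ((m : ℝ) + 1) * (1000 * κ * Real.log y ^ 2) := by
  have hy1 : 1 ≤ y := by omega
  set L : ℝ := Real.log y with hL
  have hL0 : 0 < L := Real.log_pos (by exact_mod_cast (show 1 < y by omega))
  have hpw0 : ∀ a, 0 ≤ pw S.x a := fun a => pw_nonneg (fun j => (S.x_pos j).le) a
  have hnn1 : ∀ a, 1 ≤ nn S.p a := fun a => nn_pos S.p_one a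
  -- expansions
  have hA1 : S.A1 l = ∑ k ∈ Finset.range m, (1 / 2 : ℝ) ^ (k + 1) * S.G0 (y ^ 2 ^ k) +
      (1 / 2 : ℝ) ^ m * S.G0 (y ^ 2 ^ m) := by
    unfold A1 G0
    simp_rw [Finset.mul_sum]
    rw [Finset.sum_comm, ← Finset.sum_add_distrib]
    apply Finset.sum_congr rfl
    intro a _
    rw [hg]
    unfold gfun gav
    rw [mul_add, Finset.mul_sum]
    congr 1
    · apply Finset.sum_congr rfl
      intro k _
      ring
    · ring
  have hA2 : S.A2 l = ∑ k ∈ Finset.range m, (3 / 4 : ℝ) * (1 / 4 : ℝ) ^ k * S.G0 (y ^ 2 ^ k) +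
      (1 / 4 : ℝ) ^ m * S.G0 (y ^ 2 ^ m) := by
    unfold A2 G0
    simp_rw [Finset.mul_sum]
    rw [Finset.sum_comm, ← Finset.sum_add_distrib]
    apply Finset.sum_congr rfl
    intro a _
    rw [hg]
    rw [gfun_sq m y _ hy1, mul_add, Finset.mul_sum]
    congr 1
    · apply Finset.sum_congr rfl
      intro k _
      ring
    · ring
  have hhalf : ∀ k : ℕ, (1 / 2 : ℝ) ^ k * 2 ^ k = 1 := by
    intro k
    rw [← mul_pow]
    norm_num
  have hquart : ∀ k : ℕ, (1 / 4 : ℝ) ^ k * 2 ^ k * 2 ^ k = 1 := by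
    intro k
    rw [← mul_pow, ← mul_pow]
    norm_num
  have hquart1 : ∀ k : ℕ, (1 / 4 : ℝ) ^ k * 2 ^ k = (1 / 2) ^ k := by
    intro k
    rw [← mul_pow]
    norm_num
  refine ⟨?_, ?_, ?_, ?_, ?_⟩
  · -- lower bound for A1
    rw [hA1]
    have h1 : ∑ k ∈ Finset.range m, κ * L / 8 ≤
        ∑ k ∈ Finset.range m, (1 / 2 : ℝ) ^ (k + 1) * S.G0 (y ^ 2 ^ k) := by
      apply Finset.sum_le_sum
      intro k hk
      rw [Finset.mem_range] at hk
      calc κ * L / 8 = ((1 / 2 : ℝ) ^ k * 2 ^ k) * (κ * L / 8) := by rw [hhalf]; ring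
        _ = (1 / 2 : ℝ) ^ (k + 1) * (κ * ((2 : ℝ) ^ k * L) / 4) := by rw [pow_succ]; ring
        _ ≤ _ := mul_le_mul_of_nonneg_left (hGk k hk.le).1 (by positivity)
    rw [Finset.sum_const, Finset.card_range, nsmul_eq_mul] at h1
    have h2 : 0 ≤ (1 / 2 : ℝ) ^ m * S.G0 (y ^ 2 ^ m) := by
      apply mul_nonneg (by positivity)
      have := (hGk m le_rfl).1
      have h3 : 0 ≤ κ * ((2 : ℝ) ^ m * L) / 4 := by positivity
      linarith only [this, h3]
    calc (m : ℝ) * κ * L / 8 = (m : ℝ) * (κ * L / 8) := by ring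
      _ ≤ _ := by linarith only [h1, h2]
  · unfold A1 G0
    apply Finset.sum_le_sum
    intro a _
    apply mul_le_mul_of_nonneg_left _ (hpw0 a)
    rw [hg]
    unfold tau
    split_ifs with h
    · rw [← hg]
      exact S.g_le_one l _ (hnn1 a)
    · by_contra hc
      exact h (gfun_support m y _ hy1 (fun h0 => hc (le_of_eq h0)))
  · have h1 : S.G0 y ≤ S.A2 l := by
      unfold G0 A2
      apply Finset.sum_le_sum
      intro a _
      apply mul_le_mul_of_nonneg_left _ (hpw0 a)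
      rw [hg]
      unfold tau
      split_ifs with h
      · rw [gfun_one m y _ h]; norm_num
      · positivity
    have h2 := (hGk 0 (Nat.zero_le _)).1
    simp only [pow_zero, pow_one, one_mul] at h2
    linarith only [h1, h2]
  · rw [hA2]
    have h1 : ∑ k ∈ Finset.range m, (3 / 4 : ℝ) * (1 / 4 : ℝ) ^ k * S.G0 (y ^ 2 ^ k) ≤
        ∑ k ∈ Finset.range m, (3 / 2 * 1000 * κ * L) * (1 / 2 : ℝ) ^ (k + 1) := by
      apply Finset.sum_le_sum
      intro k hk
      rw [Finset.mem_range] at hk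
      calc (3 / 4 : ℝ) * (1 / 4 : ℝ) ^ k * S.G0 (y ^ 2 ^ k) ≤
          (3 / 4 : ℝ) * (1 / 4 : ℝ) ^ k * (1000 * κ * ((2 : ℝ) ^ k * L)) :=
            mul_le_mul_of_nonneg_left (hGk k hk.le).2 (by positivity)
        _ = ((1 / 4 : ℝ) ^ k * 2 ^ k) * (3 / 4 * 1000 * κ * L) := by ring
        _ = (3 / 2 * 1000 * κ * L) * (1 / 2 : ℝ) ^ (k + 1) := by rw [hquart1, pow_succ]; ring
    rw [← Finset.mul_sum] at h1
    have h2 : (1 / 4 : ℝ) ^ m * S.G0 (y ^ 2 ^ m) ≤ (1000 * κ * L) * (1 / 2 : ℝ) ^ m := by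
      calc (1 / 4 : ℝ) ^ m * S.G0 (y ^ 2 ^ m) ≤
            (1 / 4 : ℝ) ^ m * (1000 * κ * ((2 : ℝ) ^ m * L)) :=
            mul_le_mul_of_nonneg_left (hGk m le_rfl).2 (by positivity)
        _ = ((1 / 4 : ℝ) ^ m * 2 ^ m) * (1000 * κ * L) := by ring
        _ = _ := by rw [hquart1]; ring
    have h3 := sum_gav_coeff m
    have h4 : 0 ≤ 1000 * κ * L := by positivity
    have h5 : 0 ≤ (1000 * κ * L) * (1 / 2 : ℝ) ^ m := by positivity
    have h6 : (3 / 2 * 1000 * κ * L) * ∑ k ∈ Finset.range m, (1 / 2 : ℝ) ^ (k + 1) +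
        (3 / 2 * 1000 * κ * L) * (1 / 2 : ℝ) ^ m = 3 / 2 * 1000 * κ * L := by
      rw [← mul_add, h3, mul_one]
    nlinarith only [h1, h2, h4, h5, h6]
  · -- B1
    have hlogle : ∀ k a, tau (y ^ 2 ^ k) (nn S.p a) * Real.log (nn S.p a) ≤
        tau (y ^ 2 ^ k) (nn S.p a) * ((2 : ℝ) ^ k * L) := by
      intro k a
      unfold tau
      split_ifs with h
      · rw [one_mul, one_mul]
        have h1 : (0 : ℝ) < nn S.p a := by exact_mod_cast hnn1 a
        have h2 : (nn S.p a : ℝ) ≤ ((y ^ 2 ^ k : ℕ) : ℝ) := by exact_mod_cast h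
        have h3 := Real.log_le_log h1 h2
        push_cast at h3
        rw [Real.log_pow] at h3
        push_cast at h3
        exact h3
      · simp
    have hB1 : S.B1 l ≤ ∑ k ∈ Finset.range m, (3 / 4 : ℝ) * (1 / 4 : ℝ) ^ k *
        (((2 : ℝ) ^ k * L) * S.G0 (y ^ 2 ^ k)) +
        (1 / 4 : ℝ) ^ m * (((2 : ℝ) ^ m * L) * S.G0 (y ^ 2 ^ m)) := by
      unfold B1 G0
      simp_rw [Finset.mul_sum]
      rw [Finset.sum_comm, ← Finset.sum_add_distrib]
      apply Finset.sum_le_sum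
      intro a _
      rw [hg]
      rw [gfun_sq m y _ hy1, mul_add, add_mul, Finset.mul_sum, Finset.sum_mul]
      apply add_le_add
      · apply Finset.sum_le_sum
        intro k _
        calc pw S.x a * ((3 / 4 : ℝ) * (1 / 4 : ℝ) ^ k * tau (y ^ 2 ^ k) (nn S.p a)) *
              Real.log (nn S.p a) = (pw S.x a * ((3 / 4 : ℝ) * (1 / 4 : ℝ) ^ k)) *
              (tau (y ^ 2 ^ k) (nn S.p a) * Real.log (nn S.p a)) := by ring
          _ ≤ (pw S.x a * ((3 / 4 : ℝ) * (1 / 4 : ℝ) ^ k)) *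
              (tau (y ^ 2 ^ k) (nn S.p a) * ((2 : ℝ) ^ k * L)) :=
              mul_le_mul_of_nonneg_left (hlogle k a) (mul_nonneg (hpw0 a) (by positivity))
          _ = _ := by ring
      · calc pw S.x a * ((1 / 4 : ℝ) ^ m * tau (y ^ 2 ^ m) (nn S.p a)) *
              Real.log (nn S.p a) = (pw S.x a * ((1 / 4 : ℝ) ^ m)) *
              (tau (y ^ 2 ^ m) (nn S.p a) * Real.log (nn S.p a)) := by ring
          _ ≤ (pw S.x a * ((1 / 4 : ℝ) ^ m)) *
              (tau (y ^ 2 ^ m) (nn S.p a) * ((2 : ℝ) ^ m * L)) :=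
              mul_le_mul_of_nonneg_left (hlogle m a) (mul_nonneg (hpw0 a) (by positivity))
          _ = _ := by ring
    have h1 : ∑ k ∈ Finset.range m, (3 / 4 : ℝ) * (1 / 4 : ℝ) ^ k *
        (((2 : ℝ) ^ k * L) * S.G0 (y ^ 2 ^ k)) ≤ ∑ k ∈ Finset.range m, (1000 * κ * L ^ 2) := by
      apply Finset.sum_le_sum
      intro k hk
      rw [Finset.mem_range] at hk
      calc (3 / 4 : ℝ) * (1 / 4 : ℝ) ^ k * (((2 : ℝ) ^ k * L) * S.G0 (y ^ 2 ^ k))
          ≤ (3 / 4 : ℝ) * (1 / 4 : ℝ) ^ k *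
              (((2 : ℝ) ^ k * L) * (1000 * κ * ((2 : ℝ) ^ k * L))) := by
            apply mul_le_mul_of_nonneg_left _ (by positivity)
            exact mul_le_mul_of_nonneg_left (hGk k hk.le).2 (by positivity)
        _ = ((1 / 4 : ℝ) ^ k * 2 ^ k * 2 ^ k) * (3 / 4 * (1000 * κ * L ^ 2)) := by ring
        _ = 3 / 4 * (1000 * κ * L ^ 2) := by rw [hquart]; ring
        _ ≤ 1000 * κ * L ^ 2 := by
            have : 0 ≤ 1000 * κ * L ^ 2 := by positivity
            linarith only [this]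
    rw [Finset.sum_const, Finset.card_range, nsmul_eq_mul] at h1
    have h2 : (1 / 4 : ℝ) ^ m * (((2 : ℝ) ^ m * L) * S.G0 (y ^ 2 ^ m)) ≤ 1000 * κ * L ^ 2 := by
      calc (1 / 4 : ℝ) ^ m * (((2 : ℝ) ^ m * L) * S.G0 (y ^ 2 ^ m))
          ≤ (1 / 4 : ℝ) ^ m * (((2 : ℝ) ^ m * L) * (1000 * κ * ((2 : ℝ) ^ m * L))) := by
            apply mul_le_mul_of_nonneg_left _ (by positivity)
            exact mul_le_mul_of_nonneg_left (hGk m le_rfl).2 (by positivity)
        _ = ((1 / 4 : ℝ) ^ m * 2 ^ m * 2 ^ m) * (1000 * κ * L ^ 2) := by ring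
        _ = 1000 * κ * L ^ 2 := by rw [hquart]; ring
    calc S.B1 l ≤ _ := hB1
      _ ≤ (m : ℝ) * (1000 * κ * L ^ 2) + 1000 * κ * L ^ 2 := add_le_add h1 h2
      _ = _ := by ring

/-- The sums `ZI`. -/
theorem ZI_lami (S : ND ι J) (D : J → ι → ℤ → Prop) (i : ι) (y : ℤ) (h : ∀ j, ¬ D j i y) :
    Pool.Agent.MT.ZI D (S.lami i) y = Pool.Agent.MT.ZI D S.lam y := by
  classical
  unfold Pool.Agent.MT.ZI
  apply Finset.sum_congr rfl
  intro α _
  by_cases hd : Pool.Agent.MT.dvI D y α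
  · rw [if_pos hd, if_pos hd, S.lami_eq, if_pos]
    rw [Finset.eq_empty_iff_forall_notMem]
    intro j hj
    exact h j (hd j i (mem_part.1 hj))
  · rw [if_neg hd, if_neg hd]

theorem ZI_lamt (S : ND ι J) (D : J → ι → ℤ → Prop) (i k : ι) (hik : i ≠ k) (T T' : ℕ)
    (hT : 1 ≤ T) (hT' : 1 ≤ T') (y : ℤ) (h : ∀ j, ¬ D j i y) (h' : ∀ j, ¬ D j k y) :
    Pool.Agent.MT.ZI D (S.lamt i k T T') y = Pool.Agent.MT.ZI D S.lam y := by
  classical
  unfold Pool.Agent.MT.ZI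
  apply Finset.sum_congr rfl
  intro α _
  by_cases hd : Pool.Agent.MT.dvI D y α
  · rw [if_pos hd, if_pos hd, S.lamt_eq_lam i k hik T T' hT hT' α]
    constructor
    · rw [Finset.eq_empty_iff_forall_notMem]
      intro j hj
      exact h j (hd j i (mem_part.1 hj))
    · rw [Finset.eq_empty_iff_forall_notMem]
      intro j hj
      exact h' j (hd j k (mem_part.1 hj))
  · rw [if_neg hd, if_neg hd]

end ND

/-! ### The exponents -/

/-- `2^m m^3`. -/
def Wt (x : ℕ) : ℕ := 2 ^ mth x * mth x ^ 3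

theorem mth_pos (x : ℕ) : 1 ≤ mth x := by
  unfold mth
  exact (Nat.le_log_iff_pow_le (by norm_num) (by omega)).2 (by omega)

theorem Wt_pos (x : ℕ) : 1 ≤ Wt x :=
  Nat.mul_pos (by positivity) (pow_pos (mth_pos x) 3)

theorem sum_block (k : ℕ) :
    ∑ x ∈ Finset.range (2 ^ (k + 1) - 2), ((mth x : ℝ) + 1) / Wt x ≤ 8 - 4 / ((k : ℝ) + 1) := by
  induction k with
  | zero => norm_num
  | succ k ih =>
    have h2 : 2 ≤ 2 ^ (k + 1) := Nat.le_self_pow (by omega) 2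
    have h3 : 2 ^ (k + 1 + 1) = 2 * 2 ^ (k + 1) := by rw [pow_succ]; ring
    have h1 : 2 ^ (k + 1 + 1) - 2 = (2 ^ (k + 1) - 2) + 2 ^ (k + 1) := by omega
    rw [h1, Finset.sum_range_add]
    have h4 : ∀ x ∈ Finset.range (2 ^ (k + 1)), ((mth (2 ^ (k + 1) - 2 + x) : ℝ) + 1) /
        Wt (2 ^ (k + 1) - 2 + x) = ((k : ℝ) + 2) / (2 ^ (k + 1) * ((k : ℝ) + 1) ^ 3) := by
      intro x hx
      rw [Finset.mem_range] at hx
      have h5 : mth (2 ^ (k + 1) - 2 + x) = k + 1 := by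
        unfold mth
        rw [Nat.log_eq_iff (by omega)]
        constructor
        · omega
        · omega
      unfold Wt
      rw [h5]
      push_cast
      ring
    rw [Finset.sum_congr rfl h4, Finset.sum_const, Finset.card_range, nsmul_eq_mul]
    push_cast
    have hk : (0 : ℝ) ≤ k := Nat.cast_nonneg k
    have h6 : (2 : ℝ) ^ (k + 1) * (((k : ℝ) + 2) / (2 ^ (k + 1) * ((k : ℝ) + 1) ^ 3)) =
        ((k : ℝ) + 2) / ((k : ℝ) + 1) ^ 3 := by
      field_simp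
    rw [h6]
    have h7 : ((k : ℝ) + 2) / ((k : ℝ) + 1) ^ 3 ≤ 4 / ((k : ℝ) + 1) - 4 / ((k : ℝ) + 1 + 1) := by
      rw [div_sub_div _ _ (by positivity) (by positivity), div_le_div_iff₀ (by positivity)
        (by positivity)]
      nlinarith only [hk, mul_nonneg hk hk, mul_nonneg (mul_nonneg hk hk) hk]
    linarith only [ih, h7]

theorem sum_exp_le (e : ι → ℕ) (he : Function.Injective e) :
    ∑ l, ((mth (e l) : ℝ) + 1) / Wt (e l) ≤ 8 := by
  have h0 : ∀ x, 0 ≤ ((mth x : ℝ) + 1) / Wt x := fun x => by positivity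
  set N := Finset.univ.sup e with hN
  have h1 : ∑ l, ((mth (e l) : ℝ) + 1) / Wt (e l) =
      ∑ x ∈ Finset.univ.image e, ((mth x : ℝ) + 1) / Wt x := by
    rw [Finset.sum_image fun a _ b _ h => he h]
  rw [h1]
  have h2 : Finset.univ.image e ⊆ Finset.range (2 ^ (N + 1 + 1) - 2) := by
    intro x hx
    rw [Finset.mem_image] at hx
    obtain ⟨l, _, rfl⟩ := hx
    rw [Finset.mem_range]
    have h3 : e l ≤ N := Finset.le_sup (Finset.mem_univ l)
    have h4 : N + 1 < 2 ^ (N + 1) := Nat.lt_two_pow_self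
    have h5 : 2 ^ (N + 1 + 1) = 2 * 2 ^ (N + 1) := by rw [pow_succ]; ring
    omega
  refine (Finset.sum_le_sum_of_subset_of_nonneg h2 fun x _ _ => h0 x).trans ?_
  refine (sum_block (N + 1)).trans ?_
  have : (0 : ℝ) ≤ 4 / (((N + 1 : ℕ) : ℝ) + 1) := by positivity
  linarith only [this]

end Pool.Agent.IS
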