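import Pool.Agent.Lib.MP_bca3e5_nt.RC.Defs
import Pool.Agent.Lib.MP_0da313_nt.CM.C

set_option autoImplicit false

/-!
Project IS: a positive proportion of the fixed sets of coefficients.
-/

namespace Pool.Agent.IS

open Finset Filter
open ArithmeticFunction (cardFactors)

theorem mf {α : Type} {p : α → Prop} {inst : DecidablePred p} {s : Finset α} {a : α} :
    a ∈ @Finset.filter α p inst s ↔ a ∈ s ∧ p a := Finset.mem_filter

open Classical in
/-- The number of `1 < n ≤ x` with at most two prime factors, both larger than `x^(1/12)`, such that all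
`a n + 1`, `a ∈ A`, are prime. -/
noncomputable def N1 (A : Finset ℕ) (x : ℝ) : ℕ :=
  ((Finset.range (⌊x⌋₊ + 1)).filter (fun n : ℕ => 1 < n ∧ cardFactors n ≤ 2 ∧
    (∀ p ∈ n.primeFactors, x < (p : ℝ) ^ 12) ∧ ∀ a ∈ A, (a * n + 1).Prime)).card

open Classical in
/-- The number of primes `n ≤ x` such that all `a n + 1`, `a ∈ A`, have at most two prime factors, all of
them larger than `x^(1/B)`. -/
noncomputable def N2 (B : ℕ) (A : Finset ℕ) (x : ℝ) : ℕ :=
  ((Finset.range (⌊x⌋₊ + 1)).filter (fun n : ℕ => n.Prime ∧ ∀ a ∈ A, cardFactors (a * n + 1) ≤ 2 ∧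
    ∀ p ∈ (a * n + 1).primeFactors, x < (p : ℝ) ^ B)).card

/-- Admissible sets. -/
def AdS (A : Finset ℕ) : Prop :=
  (∀ a ∈ A, 0 < a) ∧ ¬ ∃ p : ℕ, p.Prime ∧ ∀ n : ℕ, 1 ≤ n → p ∣ n * ∏ a ∈ A, (a * n + 1)

theorem AdS.sub {A A' : Finset ℕ} (h : AdS A) (hs : A' ⊆ A) : AdS A' := by
  refine ⟨fun a ha => h.1 a (hs ha), ?_⟩
  rintro ⟨p, hp, hn⟩
  apply h.2
  refine ⟨p, hp, fun n hn1 => (hn n hn1).trans ?_⟩
  exact Nat.mul_dvd_mul_left n (Finset.prod_dvd_prod_of_subset _ _ _ hs)

/-- Pigeonhole over the subsets. -/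
theorem pigeon (A : Finset ℕ) (s : ℕ) (hs : s ≤ A.card) (F : Finset ℕ → ℝ → ℕ) (f : ℝ → ℝ)
    (hf : ∀ᶠ x : ℕ in atTop, f x ≤ ∑ A1 ∈ A.powersetCard s, (F A1 x : ℝ)) :
    ∃ A1 ∈ A.powersetCard s, ∃ᶠ x : ℕ in atTop, f x / (A.card.choose s) ≤ F A1 x := by
  by_contra h
  push Not at h
  have h1 : ∀ A1 ∈ A.powersetCard s, ∀ᶠ x : ℕ in atTop, (F A1 x : ℝ) < f x / (A.card.choose s) := h
  have h2 : ∀ᶠ x : ℕ in atTop, ∀ A1 ∈ A.powersetCard s, (F A1 x : ℝ) < f x / (A.card.choose s) :=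
    (Filter.eventually_all_finset _).2 h1
  obtain ⟨x, hx1, hx2⟩ := (hf.and h2).exists
  have hne : (A.powersetCard s).Nonempty := Finset.powersetCard_nonempty.2 hs
  have h3 := Finset.sum_lt_sum_of_nonempty hne hx2
  rw [Finset.sum_const, Finset.card_powersetCard, nsmul_eq_mul] at h3
  have hc : (0 : ℝ) < A.card.choose s := by exact_mod_cast Nat.choose_pos hs
  rw [mul_div_cancel₀ _ hc.ne'] at h3
  linarith only [hx1, h3]

theorem N1_anti {A A' : Finset ℕ} (h : A' ⊆ A) (x : ℝ) : N1 A x ≤ N1 A' x := by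
  classical
  unfold N1
  apply Finset.card_le_card
  intro n hn
  rw [Finset.mem_filter] at hn ⊢
  exact ⟨hn.1, hn.2.1, hn.2.2.1, hn.2.2.2.1, fun a ha => hn.2.2.2.2 a (h ha)⟩

/-- Consequence of the theorem RC. -/
theorem sub1 (h : RC.R_cor) : ∀ s : ℕ, 1 ≤ s → ∃ (k : ℕ) (c : ℝ), s ≤ k ∧ 0 < c ∧
    ∀ A : Finset ℕ, A.card = k → AdS A → ∃ A1 ∈ A.powersetCard s,
      ∃ᶠ x : ℕ in atTop, c * x / (Real.log x) ^ (k + 1) ≤ N1 A1 x := by
  classical
  obtain ⟨c0, hc0, h⟩ := h
  intro s hs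
  obtain ⟨k0, hk0⟩ := exists_nat_ge (Real.exp (s / c0))
  set k := max k0 s with hk
  have hk0k : (k0 : ℝ) ≤ k := by exact_mod_cast le_max_left _ _
  have hsk : s ≤ k := le_max_right _ _
  have hk1 : 1 ≤ k := hs.trans hsk
  have hkr : (0 : ℝ) < k := by exact_mod_cast hk1
  have hlog : (s : ℝ) ≤ c0 * Real.log k := by
    have h1 : s / c0 ≤ Real.log k := by
      rw [Real.le_log_iff_exp_le hkr]
      exact hk0.trans hk0k
    rw [div_le_iff₀ hc0] at h1
    linarith only [h1]
  obtain ⟨B, c, hc, h⟩ := h k hk1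
  have hch : (0 : ℝ) < k.choose s := by exact_mod_cast Nat.choose_pos hsk
  refine ⟨k, c / k.choose s, hsk, div_pos hc hch, ?_⟩
  intro A hA hAd
  obtain ⟨x₀, hx₀⟩ := h A hA hAd.1 hAd.2 A (Finset.Subset.refl A)
    (Finset.card_pos.1 (by omega))
  obtain ⟨A1, hA1, hf⟩ := pigeon A s (by omega) N1 (fun x => c * x / (Real.log x) ^ (k + 1)) (by
    filter_upwards [tendsto_natCast_atTop_atTop.eventually_ge_atTop x₀] with x hx
    refine (hx₀ x hx).trans ?_
    have h1 : ((Finset.range (⌊(x : ℝ)⌋₊ + 1)).filter (fun n : ℕ => 1 < n ∧ cardFactors n ≤ 2 ∧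
      (∀ p ∈ n.primeFactors, (x : ℝ) < (p : ℝ) ^ 12) ∧
      c0 * Real.log A.card ≤ ((A.filter (fun a => (a * n + 1).Prime)).card : ℝ) ∧
      1 ≤ (A.filter (fun a => (a * n + 1).Prime)).card ∧
      ∀ a ∈ A, cardFactors (a * n + 1) ≤ B ∧
        ∀ p ∈ (a * n + 1).primeFactors, (x : ℝ) < (p : ℝ) ^ B)).card ≤
        ∑ A1 ∈ A.powersetCard s, N1 A1 x := by
      unfold N1
      refine le_trans (Finset.card_le_card ?_) Finset.card_biUnion_le
      intro n hn
      rw [Finset.mem_filter] at hn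
      obtain ⟨hnx, hn1, hn2, hn3, hn4, _, _⟩ := hn
      have h2 : s ≤ (A.filter (fun a => (a * n + 1).Prime)).card := by
        rw [hA] at hn4
        have h3 := hlog.trans hn4
        exact_mod_cast h3
      obtain ⟨A1, hA1, hA1c⟩ := Finset.exists_subset_card_eq h2
      rw [Finset.mem_biUnion]
      refine ⟨A1, Finset.mem_powersetCard.2 ⟨hA1.trans (Finset.filter_subset _ _), hA1c⟩, ?_⟩
      rw [Finset.mem_filter]
      exact ⟨hnx, hn1, hn2, hn3, fun a ha => (Finset.mem_filter.1 (hA1 ha)).2⟩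
    have h2 := (Nat.cast_le (α := ℝ)).2 h1
    push_cast at h2
    exact_mod_cast h2)
  refine ⟨A1, hA1, hf.mono ?_⟩
  intro x hx
  rw [hA] at hx
  refine le_trans (le_of_eq ?_) hx
  ring

/-- Consequence of the theorem CM. -/
theorem sub2 (h : CM.C.R_cor) : ∀ s : ℕ, 1 ≤ s → ∃ (k B : ℕ) (c : ℝ), s ≤ k ∧ 0 < c ∧
    ∀ A : Finset ℕ, A.card = k → AdS A → ∃ A1 ∈ A.powersetCard s,
      ∃ᶠ x : ℕ in atTop, c * x / (Real.log x) ^ (k + 1) ≤ N2 B A1 x := by
  classical
  obtain ⟨c0, hc0, h⟩ := h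
  intro s hs
  obtain ⟨k0, hk0⟩ := exists_nat_ge (Real.exp (s / c0))
  set k := max k0 s with hk
  have hk0k : (k0 : ℝ) ≤ k := by exact_mod_cast le_max_left _ _
  have hsk : s ≤ k := le_max_right _ _
  have hk1 : 1 ≤ k := hs.trans hsk
  have hkr : (0 : ℝ) < k := by exact_mod_cast hk1
  have hlog : (s : ℝ) ≤ c0 * Real.log k := by
    have h1 : s / c0 ≤ Real.log k := by
      rw [Real.le_log_iff_exp_le hkr]
      exact hk0.trans hk0k
    rw [div_le_iff₀ hc0] at h1
    linarith only [h1]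
  obtain ⟨B, c, hc, h⟩ := h k hk1
  have hch : (0 : ℝ) < k.choose s := by exact_mod_cast Nat.choose_pos hsk
  refine ⟨k, B, c / k.choose s, hsk, div_pos hc hch, ?_⟩
  intro A hA hAd
  obtain ⟨x₀, hx₀⟩ := h A hA hAd.1 hAd.2 A (Finset.Subset.refl A)
    (Finset.card_pos.1 (by omega))
  obtain ⟨A1, hA1, hf⟩ := pigeon A s (by omega) (N2 B)
    (fun x => c * x / (Real.log x) ^ (k + 1)) (by
    filter_upwards [tendsto_natCast_atTop_atTop.eventually_ge_atTop x₀] with x hx
    refine (hx₀ x hx).trans ?_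
    have h1 : ((Finset.range (⌊(x : ℝ)⌋₊ + 1)).filter (fun n : ℕ => n.Prime ∧
      c0 * Real.log A.card ≤ ((A.filter (fun a => cardFactors (a * n + 1) ≤ 2)).card : ℝ) ∧
      1 ≤ (A.filter (fun a => cardFactors (a * n + 1) ≤ 2)).card ∧
      ∀ a ∈ A, cardFactors (a * n + 1) ≤ B ∧
        ∀ p ∈ (a * n + 1).primeFactors, (x : ℝ) < (p : ℝ) ^ B)).card ≤
        ∑ A1 ∈ A.powersetCard s, N2 B A1 x := by
      unfold N2
      refine le_trans (Finset.card_le_card ?_) Finset.card_biUnion_le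
      intro n hn
      obtain ⟨hnx, hn1, hn4, _, hn5⟩ := mf.1 hn
      have h2 : s ≤ (A.filter (fun a => cardFactors (a * n + 1) ≤ 2)).card := by
        rw [hA] at hn4
        have h3 := hlog.trans hn4
        exact_mod_cast h3
      obtain ⟨A1, hA1, hA1c⟩ := Finset.exists_subset_card_eq h2
      rw [Finset.mem_biUnion]
      refine ⟨A1, Finset.mem_powersetCard.2 ⟨hA1.trans (Finset.filter_subset _ _), hA1c⟩, ?_⟩
      exact mf.2 ⟨hnx, hn1, fun a ha => ⟨(mf.1 (hA1 ha)).2,
        (hn5 a (mf.1 (hA1 ha)).1).2⟩⟩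
    have h2 := (Nat.cast_le (α := ℝ)).2 h1
    push_cast at h2
    exact_mod_cast h2)
  refine ⟨A1, hA1, hf.mono ?_⟩
  intro x hx
  rw [hA] at hx
  refine le_trans (le_of_eq ?_) hx
  ring

/-- Sets of even numbers which avoid a nonzero class modulo each small odd prime are admissible. -/
theorem ads_of (A : Finset ℕ) (h0 : ∀ a ∈ A, 0 < a ∧ Even a)
    (h : ∀ p : ℕ, p.Prime → 3 ≤ p → p ≤ A.card + 1 → ∃ r : ℕ, 1 ≤ r ∧ r < p ∧ ∀ a ∈ A, a % p ≠ r) :
    AdS A := by
  classical
  refine ⟨fun a ha => (h0 a ha).1, ?_⟩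
  rintro ⟨p, hp, hn⟩
  by_cases hp2 : p = 2
  · have h1 := hn 1 (le_refl _)
    rw [one_mul] at h1
    rw [hp.prime.dvd_finset_prod_iff (fun a => a * 1 + 1)] at h1
    obtain ⟨a, ha, hd⟩ := h1
    obtain ⟨b, hb⟩ := (h0 a ha).2
    rw [hp2] at hd
    omega
  · have hp3 : 3 ≤ p := by
      have := hp.two_le
      omega
    -- find a residue class
    have key : ∃ r : ℕ, 1 ≤ r ∧ r < p ∧ ∀ a ∈ A, a % p ≠ r := by
      by_cases hc : p ≤ A.card + 1
      · exact h p hp hp3 hc
      · by_contra hcon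
        push Not at hcon
        have h1 : Finset.Ico 1 p ⊆ A.image (fun a => a % p) := by
          intro r hr
          rw [Finset.mem_Ico] at hr
          obtain ⟨a, ha, hr'⟩ := hcon r hr.1 hr.2
          exact Finset.mem_image.2 ⟨a, ha, hr'⟩
        have h2 := (Finset.card_le_card h1).trans Finset.card_image_le
        rw [Nat.card_Ico] at h2
        omega
    obtain ⟨r, hr1, hrp, hr⟩ := key
    have : Fact p.Prime := ⟨hp⟩
    -- `n` with `n * r = -1` modulo `p`
    have hrne : ((r : ℕ) : ZMod p) ≠ 0 := by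
      intro h1
      rw [ZMod.natCast_eq_zero_iff] at h1
      have := Nat.le_of_dvd (by omega) h1
      omega
    set u : ZMod p := -((r : ℕ) : ZMod p)⁻¹ with hu
    have hu0 : u ≠ 0 := neg_ne_zero.2 (inv_ne_zero hrne)
    have h1 := hn (u.val) (Nat.one_le_iff_ne_zero.2 (by
      intro h2
      exact hu0 ((ZMod.val_eq_zero u).1 h2)))
    have h2 : ¬ p ∣ u.val := by
      intro h3
      rw [← ZMod.natCast_eq_zero_iff, ZMod.natCast_zmod_val] at h3
      exact hu0 h3
    rw [hp.dvd_mul] at h1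
    rcases h1 with h1 | h1
    · exact h2 h1
    · rw [hp.prime.dvd_finset_prod_iff (fun a => a * u.val + 1)] at h1
      obtain ⟨a, ha, hd⟩ := h1
      rw [← ZMod.natCast_eq_zero_iff] at hd
      push_cast at hd
      rw [ZMod.natCast_zmod_val] at hd
      -- `a u = -1` hence `a = r`
      have h3 : ((a : ℕ) : ZMod p) = ((r : ℕ) : ZMod p) := by
        have h4 : ((a : ℕ) : ZMod p) * (-((r : ℕ) : ZMod p)⁻¹) + 1 = 0 := hd
        have h5 : ((a : ℕ) : ZMod p) * ((r : ℕ) : ZMod p)⁻¹ = 1 := by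
          linear_combination -h4
        calc ((a : ℕ) : ZMod p) = ((a : ℕ) : ZMod p) * ((r : ℕ) : ZMod p)⁻¹ * r := by
              rw [mul_assoc, inv_mul_cancel₀ hrne, mul_one]
          _ = _ := by rw [h5, one_mul]
      rw [ZMod.natCast_eq_natCast_iff'] at h3
      apply hr a ha
      rw [h3, Nat.mod_eq_of_lt hrp]

/-- The subset which avoids the residue classes. -/
theorem thin (k : ℕ) (C : Finset ℕ) : ∃ C' ⊆ C, C.card ≤ 2 ^ k * C'.card ∧
    ∀ p : ℕ, p.Prime → 3 ≤ p → p ≤ k + 2 → ∃ r : ℕ, 1 ≤ r ∧ r < p ∧ ∀ a ∈ C', a % p ≠ r := by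
  classical
  induction k with
  | zero =>
    refine ⟨C, Finset.Subset.refl C, by omega, ?_⟩
    intro p _ h1 h2
    omega
  | succ k ih =>
    obtain ⟨C', hC', hcard, hp⟩ := ih
    -- one of the classes 1, 2 modulo `k + 3` contains at most half of the elements
    have h12 : (C'.filter (fun a => a % (k + 3) = 1)).card +
        (C'.filter (fun a => a % (k + 3) = 2)).card ≤ C'.card := by
      rw [← Finset.card_union_of_disjoint]
      · exact Finset.card_le_card (Finset.union_subset (Finset.filter_subset _ _)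
          (Finset.filter_subset _ _))
      · rw [Finset.disjoint_filter]
        intro a _ h1 h2
        omega
    obtain ⟨r, hr1, hr2, hr⟩ : ∃ r : ℕ, 1 ≤ r ∧ r ≤ 2 ∧
        2 * (C'.filter (fun a => a % (k + 3) = r)).card ≤ C'.card := by
      by_cases h1 : 2 * (C'.filter (fun a => a % (k + 3) = 1)).card ≤ C'.card
      · exact ⟨1, le_refl _, by norm_num, h1⟩
      · exact ⟨2, by norm_num, le_refl _, by omega⟩
    have hsplit := Finset.card_filter_add_card_filter_not (s := C')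
      (p := fun a => a % (k + 3) = r)
    refine ⟨C'.filter (fun a => ¬ a % (k + 3) = r), (Finset.filter_subset _ _).trans hC', ?_, ?_⟩
    · have h1 : C'.card ≤ 2 * (C'.filter (fun a => ¬ a % (k + 3) = r)).card := by omega
      calc C.card ≤ 2 ^ k * C'.card := hcard
        _ ≤ 2 ^ k * (2 * (C'.filter (fun a => ¬ a % (k + 3) = r)).card) :=
            Nat.mul_le_mul_left _ h1
        _ = _ := by rw [pow_succ]; ring
    · intro p hpp h3 hpk
      by_cases hpk' : p ≤ k + 2
      · obtain ⟨r', h1, h2, h4⟩ := hp p hpp h3 hpk'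
        exact ⟨r', h1, h2, fun a ha => h4 a (Finset.mem_filter.1 ha).1⟩
      · have : p = k + 3 := by omega
        subst this
        exact ⟨r, hr1, by omega, fun a ha => (Finset.mem_filter.1 ha).2⟩

/-- Averaging over the `k`-element subsets. -/
theorem averaging (k s : ℕ) (hsk : s ≤ k) (C : Finset ℕ) (hC : k ≤ C.card) (G : Finset ℕ → Prop)
    [DecidablePred G] (h : ∀ A ∈ C.powersetCard k, ∃ A1 ∈ A.powersetCard s, G A1) :
    C.card.choose s ≤ k.choose s * ((C.powersetCard s).filter G).card := by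
  classical
  -- double counting
  have h1 : C.card.choose k ≤ ∑ A1 ∈ (C.powersetCard s).filter G,
      ((C.powersetCard k).filter (fun A => A1 ⊆ A)).card := by
    rw [← Finset.card_powersetCard k C]
    have h2 : C.powersetCard k ⊆ ((C.powersetCard s).filter G).biUnion
        (fun A1 => (C.powersetCard k).filter (fun A => A1 ⊆ A)) := by
      intro A hA
      obtain ⟨A1, hA1, hG⟩ := h A hA
      rw [Finset.mem_powersetCard] at hA1
      rw [Finset.mem_biUnion]
      refine ⟨A1, Finset.mem_filter.2 ⟨Finset.mem_powersetCard.2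
        ⟨hA1.1.trans (Finset.mem_powersetCard.1 hA).1, hA1.2⟩, hG⟩, ?_⟩
      exact Finset.mem_filter.2 ⟨hA, hA1.1⟩
    exact (Finset.card_le_card h2).trans Finset.card_biUnion_le
  have h3 : ∀ A1 ∈ (C.powersetCard s).filter G,
      ((C.powersetCard k).filter (fun A => A1 ⊆ A)).card = (C.card - s).choose (k - s) := by
    intro A1 hA1
    rw [Finset.mem_filter, Finset.mem_powersetCard] at hA1
    obtain ⟨⟨hA1C, hA1s⟩, _⟩ := hA1
    have h4 : (C.powersetCard k).filter (fun A => A1 ⊆ A) =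
        ((C \ A1).powersetCard (k - s)).image (fun D => A1 ∪ D) := by
      ext A
      rw [Finset.mem_filter, Finset.mem_powersetCard, Finset.mem_image]
      constructor
      · rintro ⟨⟨hAC, hAk⟩, hA1A⟩
        refine ⟨A \ A1, Finset.mem_powersetCard.2 ⟨Finset.sdiff_subset_sdiff hAC (le_refl _), ?_⟩,
          Finset.union_sdiff_of_subset hA1A⟩
        rw [Finset.card_sdiff_of_subset hA1A, hAk, hA1s]
      · rintro ⟨D, hD, rfl⟩
        rw [Finset.mem_powersetCard] at hD
        have hdis : Disjoint A1 D := by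
          rw [Finset.disjoint_left]
          intro a ha haD
          exact (Finset.mem_sdiff.1 (hD.1 haD)).2 ha
        refine ⟨⟨Finset.union_subset hA1C (hD.1.trans Finset.sdiff_subset), ?_⟩,
          Finset.subset_union_left⟩
        rw [Finset.card_union_of_disjoint hdis, hA1s, hD.2]
        omega
    rw [h4, Finset.card_image_of_injOn, Finset.card_powersetCard,
      Finset.card_sdiff_of_subset hA1C, hA1s]
    intro D hD D' hD' hDD
    rw [Finset.mem_coe, Finset.mem_powersetCard] at hD hD'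
    have hdis : ∀ D : Finset ℕ, D ⊆ C \ A1 → (A1 ∪ D) \ A1 = D := by
      intro D hD
      rw [Finset.union_sdiff_left, Finset.sdiff_eq_self_iff_disjoint, Finset.disjoint_left]
      intro a haD ha
      exact (Finset.mem_sdiff.1 (hD haD)).2 ha
    rw [← hdis D hD.1, ← hdis D' hD'.1]
    exact congrArg (fun E => E \ A1) hDD
  rw [Finset.sum_congr rfl h3, Finset.sum_const, smul_eq_mul] at h1
  have h5 := Nat.choose_mul (n := C.card) hsk
  -- `choose N k * choose k s = choose N s * choose (N - s) (k - s)`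
  have h6 : 0 < (C.card - s).choose (k - s) := Nat.choose_pos (by omega)
  have h7 := Nat.mul_le_mul_right (k.choose s) h1
  rw [h5] at h7
  apply Nat.le_of_mul_le_mul_right _ h6
  calc C.card.choose s * (C.card - s).choose (k - s) ≤ _ := h7
    _ = _ := by ring

/-- Comparison of binomial coefficients. -/
theorem choose_thin (s k N N' : ℕ) (hN : N ≤ 2 ^ k * N') (hs : 2 * s ≤ N') :
    N.choose s ≤ (2 ^ (k + 1)) ^ s * N'.choose s := by
  have h1 : N.choose s * s.factorial ≤ N ^ s := by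
    rw [mul_comm, ← Nat.descFactorial_eq_factorial_mul_choose]
    exact Nat.descFactorial_le_pow N s
  have h2 : (N' + 1 - s) ^ s ≤ N'.choose s * s.factorial := by
    rw [mul_comm, ← Nat.descFactorial_eq_factorial_mul_choose]
    exact Nat.pow_sub_le_descFactorial N' s
  have h3 : N ≤ 2 ^ (k + 1) * (N' + 1 - s) := by
    calc N ≤ 2 ^ k * N' := hN
      _ ≤ 2 ^ k * (2 * (N' + 1 - s)) := Nat.mul_le_mul_left _ (by omega)
      _ = _ := by rw [pow_succ]; ring
  apply Nat.le_of_mul_le_mul_right _ (Nat.factorial_pos s)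
  calc N.choose s * s.factorial ≤ N ^ s := h1
    _ ≤ (2 ^ (k + 1) * (N' + 1 - s)) ^ s := Nat.pow_le_pow_left h3 s
    _ = (2 ^ (k + 1)) ^ s * (N' + 1 - s) ^ s := mul_pow _ _ _
    _ ≤ (2 ^ (k + 1)) ^ s * (N'.choose s * s.factorial) := Nat.mul_le_mul_left _ h2
    _ = _ := by ring

open Classical in
/-- A positive proportion of the sets of coefficients. -/
def R_pos : Prop := ∀ s : ℕ, 1 ≤ s → ∃ (K : ℕ) (c : ℝ), 0 < c ∧ ∀ C : Finset ℕ, K ≤ C.card →
  (∀ a ∈ C, 0 < a ∧ Even a) →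
  c * (C.card.choose s) ≤ (((C.powersetCard s).filter (fun A =>
    (∃ᶠ x : ℕ in atTop, c * x / (Real.log x) ^ K ≤ N1 A x) ∧
    ∃ᶠ x : ℕ in atTop, c * x / (Real.log x) ^ K ≤ N2 K A x)).card : ℝ)

theorem N2_mono {B B' : ℕ} (h : B ≤ B') (A : Finset ℕ) (x : ℝ) : N2 B A x ≤ N2 B' A x := by
  classical
  unfold N2
  apply Finset.card_le_card
  intro n hn'
  have hn := mf.1 hn'
  refine mf.2 ⟨hn.1, hn.2.1, fun a ha => ⟨(hn.2.2 a ha).1, fun p hp => ?_⟩⟩
  refine lt_of_lt_of_le ((hn.2.2 a ha).2 p hp) ?_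
  have h1 : (1 : ℝ) ≤ p := by exact_mod_cast (Nat.prime_of_mem_primeFactors hp).one_le
  exact pow_le_pow_right₀ h1 h

theorem p_pos (hrc : RC.R_cor) (hcm : CM.C.R_cor) : R_pos := by
  classical
  intro s hs
  obtain ⟨k2, B, c2, hsk2, hc2, h2⟩ := sub2 hcm s hs
  obtain ⟨k1, c1, hk21, hc1, h1⟩ := sub1 hrc k2 (hs.trans hsk2)
  set K := 2 ^ k1 * (2 * (k1 + s)) + B + k1 + 1 with hK
  set P1 : ℝ := (((2 ^ (k1 + 1)) ^ s * k1.choose s : ℕ) : ℝ) with hP1
  have hP10 : 0 < P1 := by
    rw [hP1]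
    have : 0 < k1.choose s := Nat.choose_pos (by omega)
    positivity
  set c := min (min c1 c2) (1 / P1) with hc
  have hc0 : 0 < c := lt_min (lt_min hc1 hc2) (by positivity)
  have hcc1 : c ≤ c1 := (min_le_left _ _).trans (min_le_left _ _)
  have hcc2 : c ≤ c2 := (min_le_left _ _).trans (min_le_right _ _)
  have hccP : c ≤ 1 / P1 := min_le_right _ _
  refine ⟨K, c, hc0, ?_⟩
  intro C hCK hC
  obtain ⟨C', hC'C, hcard, hav⟩ := thin k1 C
  have hC'card : 2 * (k1 + s) ≤ C'.card := by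
    have h3 : 2 ^ k1 * (2 * (k1 + s)) ≤ 2 ^ k1 * C'.card := by omega
    exact Nat.le_of_mul_le_mul_left h3 (by positivity)
  set G : Finset ℕ → Prop := fun A =>
    (∃ᶠ x : ℕ in atTop, c * x / (Real.log x) ^ K ≤ N1 A x) ∧
    ∃ᶠ x : ℕ in atTop, c * x / (Real.log x) ^ K ≤ N2 K A x with hG
  have hkey : ∀ A ∈ C'.powersetCard k1, ∃ A1 ∈ A.powersetCard s, G A1 := by
    intro A hA
    rw [Finset.mem_powersetCard] at hA
    have hAd : AdS A := ads_of A (fun a ha => hC a (hC'C (hA.1 ha))) (by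
      intro p hp h3 hpA
      obtain ⟨r, hr1, hr2, hr⟩ := hav p hp h3 (by omega)
      exact ⟨r, hr1, hr2, fun a ha => hr a (hA.1 ha)⟩)
    obtain ⟨A2, hA2, hf1⟩ := h1 A hA.2 hAd
    rw [Finset.mem_powersetCard] at hA2
    obtain ⟨A1, hA1, hf2⟩ := h2 A2 hA2.2 (hAd.sub hA2.1)
    rw [Finset.mem_powersetCard] at hA1
    have hlog : ∀ᶠ x : ℕ in atTop, 1 ≤ Real.log (x : ℝ) :=
      (Real.tendsto_log_atTop.comp
        (tendsto_natCast_atTop_atTop (R := ℝ))).eventually_ge_atTop 1
    refine ⟨A1, Finset.mem_powersetCard.2 ⟨hA1.1.trans hA2.1, hA1.2⟩, ?_, ?_⟩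
    · refine (hf1.and_eventually hlog).mono ?_
      rintro x ⟨hx, hl⟩
      have h3 : (N1 A2 x : ℝ) ≤ N1 A1 x := by exact_mod_cast N1_anti hA1.1 x
      refine le_trans (le_trans ?_ hx) h3
      calc c * x / (Real.log x) ^ K ≤ c * x / (Real.log x) ^ (k1 + 1) := by
            apply div_le_div_of_nonneg_left (by positivity) (by positivity)
            exact pow_le_pow_right₀ hl (by omega)
        _ ≤ c1 * x / (Real.log x) ^ (k1 + 1) := by
            apply div_le_div_of_nonneg_right _ (by positivity)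
            exact mul_le_mul_of_nonneg_right hcc1 (Nat.cast_nonneg x)
    · refine (hf2.and_eventually hlog).mono ?_
      rintro x ⟨hx, hl⟩
      have h3 : (N2 B A1 x : ℝ) ≤ N2 K A1 x := by
        exact_mod_cast N2_mono (by omega) A1 x
      refine le_trans (le_trans ?_ hx) h3
      calc c * x / (Real.log x) ^ K ≤ c * x / (Real.log x) ^ (k2 + 1) := by
            apply div_le_div_of_nonneg_left (by positivity) (by positivity)
            exact pow_le_pow_right₀ hl (by omega)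
        _ ≤ c2 * x / (Real.log x) ^ (k2 + 1) := by
            apply div_le_div_of_nonneg_right _ (by positivity)
            exact mul_le_mul_of_nonneg_right hcc2 (Nat.cast_nonneg x)
  have h3 := averaging k1 s (by omega) C' (by omega) G hkey
  have h4 := choose_thin s k1 C.card C'.card hcard (by omega)
  have h5 : ((C'.powersetCard s).filter G).card ≤ ((C.powersetCard s).filter G).card :=
    Finset.card_le_card (Finset.filter_subset_filter _ (Finset.powersetCard_mono hC'C))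
  have h6 : (C.card.choose s : ℝ) ≤ P1 * ((C.powersetCard s).filter G).card := by
    have h7 : C.card.choose s ≤ (2 ^ (k1 + 1)) ^ s * k1.choose s *
        ((C.powersetCard s).filter G).card := by
      calc C.card.choose s ≤ (2 ^ (k1 + 1)) ^ s * C'.card.choose s := h4
        _ ≤ (2 ^ (k1 + 1)) ^ s * (k1.choose s * ((C'.powersetCard s).filter G).card) :=
            Nat.mul_le_mul_left _ h3
        _ ≤ (2 ^ (k1 + 1)) ^ s * (k1.choose s * ((C.powersetCard s).filter G).card) :=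
            Nat.mul_le_mul_left _ (Nat.mul_le_mul_left _ h5)
        _ = _ := by ring
    rw [hP1]
    exact_mod_cast h7
  calc c * (C.card.choose s) ≤ 1 / P1 * (C.card.choose s) :=
        mul_le_mul_of_nonneg_right hccP (Nat.cast_nonneg _)
    _ ≤ 1 / P1 * (P1 * ((C.powersetCard s).filter G).card) :=
        mul_le_mul_of_nonneg_left h6 (by positivity)
    _ = _ := by
        rw [← mul_assoc, one_div_mul_cancel hP10.ne', one_mul]

end Pool.Agent.IS
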